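import Pool.Agent.H936.R.ThmT
import Pool.Agent.H936.SL.Pr

/-!
# Theorem T for Lie algebras of matrices, the projection to a semisimple Lie algebra, and simultaneous eigenvectors
-/

set_option autoImplicit false
set_option linter.unusedSectionVars false
set_option linter.unusedVariables false

open Matrix Module

namespace Pool.Agent.H936.R

open Pool.Agent.H936.SL (Mn TN IsPr exists_proj)

variable {F : Type} [Field F] [CharZero F] {n : ℕ}

theorem tr_br (A B C : Mn n F) : Matrix.trace ((A * B - B * A) * C) = Matrix.trace (A * (B * C - C * B)) := by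
  rw [Matrix.sub_mul, Matrix.mul_sub, Matrix.trace_sub, Matrix.trace_sub, Matrix.mul_assoc, Matrix.mul_assoc,
    ← Matrix.mul_assoc A C B, Matrix.trace_mul_comm (A * C) B]

attribute [local instance 100] LieRing.ofAssociativeRing

/-- **Theorem T for matrices.** -/
theorem thmT_mat {𝔤 𝔩 𝔱 : Submodule F (Mn n F)} (hbr : ∀ x ∈ 𝔤, ∀ y ∈ 𝔤, x * y - y * x ∈ 𝔤) (hTg : TN 𝔤)
    (hle : 𝔩 ≤ 𝔤) (hTN : TN 𝔩) (h𝔱 : 𝔱 ≤ 𝔤) (hcomm : ∀ s ∈ 𝔱, ∀ t ∈ 𝔱, s * t - t * s = 0)
    (hspan : ∀ x ∈ 𝔤, x ∈ Submodule.span F {e : Mn n F | e ∈ 𝔤 ∧ ∀ t ∈ 𝔱, ∃ a : F, t * e - e * t = a • e})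
    (hsum : ∀ x ∈ 𝔤, ∃ z t, x = z + t ∧ z ∈ 𝔤 ∧ t ∈ 𝔱 ∧ ∀ y ∈ 𝔩, z * y - y * z ∈ 𝔩) :
    ∀ x ∈ 𝔤, ∀ y ∈ 𝔩, x * y - y * x ∈ 𝔩 := by
  classical
  obtain ⟨P, hP⟩ := exists_proj hTN
  let 𝒢 : LieSubalgebra F (Mn n F) := { 𝔤 with lie_mem' := fun {x y} hx hy => hbr x hx y hy }
  have hmem : ∀ x : Mn n F, x ∈ 𝒢 ↔ x ∈ 𝔤 := fun x => Iff.rfl
  have hlie : ∀ x y : 𝒢, ((⁅x, y⁆ : 𝒢) : Mn n F) = x.1 * y.1 - y.1 * x.1 := fun x y => rfl
  let β : LinearMap.BilinForm F 𝒢 := LinearMap.mk₂ F (fun x y => Matrix.trace (P x.1 * y.1))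
    (fun x x' y => by
      show Matrix.trace (P (x.1 + x'.1) * y.1) = _
      rw [map_add, Matrix.add_mul, Matrix.trace_add])
    (fun c x y => by
      show Matrix.trace (P (c • x.1) * y.1) = _
      rw [map_smul, Matrix.smul_mul, Matrix.trace_smul])
    (fun x y y' => by
      show Matrix.trace (P x.1 * (y.1 + y'.1)) = _
      rw [Matrix.mul_add, Matrix.trace_add])
    (fun c x y => by
      show Matrix.trace (P x.1 * (c • y.1)) = _
      rw [Matrix.mul_smul, Matrix.trace_smul])
  have hβ : ∀ x y : 𝒢, β x y = Matrix.trace (P x.1 * y.1) := fun x y => rfl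
  -- the stabiliser
  let 𝔫 : Submodule F 𝒢 :=
    { carrier := {x | ∀ y z : 𝒢, β ⁅x, y⁆ z + β y ⁅x, z⁆ = 0}
      zero_mem' := fun y z => by rw [zero_lie, zero_lie, map_zero, map_zero, LinearMap.zero_apply, add_zero]
      add_mem' := by
        intro a b ha hb y z
        have h1 := ha y z
        have h2 := hb y z
        rw [add_lie, add_lie, map_add, map_add, LinearMap.add_apply]
        linear_combination h1 + h2
      smul_mem' := by
        intro c a ha y z
        have h1 := ha y z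
        rw [smul_lie, smul_lie, map_smul, map_smul, LinearMap.smul_apply, smul_eq_mul, smul_eq_mul]
        linear_combination c * h1 }
  let 𝔱' : Submodule F 𝒢 := 𝔱.comap 𝒢.toSubmodule.subtype
  have key := thmT (𝔫 := 𝔫) (𝔱 := 𝔱') β (fun y z => by rw [hβ, hβ, hP.adj, Matrix.trace_mul_comm])
    (fun x hx => hx) (fun s hs t ht => Subtype.ext (hcomm s.1 hs t.1 ht)) (by
      rw [eq_top_iff]
      rintro ⟨x, hx⟩ -
      have h1 := hspan x hx
      have h2 : ∀ y (hy : y ∈ Submodule.span F {e : Mn n F | e ∈ 𝔤 ∧ ∀ t ∈ 𝔱, ∃ a : F, t * e - e * t = a • e}),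
          ∃ h : y ∈ 𝔤, (⟨y, h⟩ : 𝒢) ∈ Submodule.span F {e : 𝒢 | ∀ t ∈ 𝔱', ∃ a : F, ⁅t, e⁆ = a • e} := by
        intro y hy
        induction hy using Submodule.span_induction with
        | mem y hy =>
          refine ⟨hy.1, Submodule.subset_span fun t ht => ?_⟩
          obtain ⟨a, ha⟩ := hy.2 t.1 ht
          exact ⟨a, Subtype.ext ha⟩
        | zero => exact ⟨𝔤.zero_mem, Submodule.zero_mem _⟩
        | add y y' _ _ h h' =>
          obtain ⟨h1, h2⟩ := h
          obtain ⟨h3, h4⟩ := h'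
          exact ⟨𝔤.add_mem h1 h3, Submodule.add_mem _ h2 h4⟩
        | smul c y _ h =>
          obtain ⟨h1, h2⟩ := h
          exact ⟨𝔤.smul_mem c h1, Submodule.smul_mem _ c h2⟩
      exact (h2 x h1).2) (by
      rintro ⟨x, hx⟩
      obtain ⟨z, t, rfl, hz, ht, hn⟩ := hsum x hx
      refine ⟨⟨z, hz⟩, fun a b => ?_, ⟨t, h𝔱 ht⟩, ht, rfl⟩
      have e1 := hP.comm hTN hn a.1
      rw [hβ, hβ, hlie, hlie]
      show Matrix.trace (P (z * a.1 - a.1 * z) * b.1) + Matrix.trace (P a.1 * (z * b.1 - b.1 * z)) = 0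
      rw [e1]
      have e2 := tr_br (P a.1) z b.1
      rw [← e2, ← Matrix.trace_add, ← Matrix.add_mul]
      have e3 : z * P a.1 - P a.1 * z + (P a.1 * z - z * P a.1) = 0 := by abel
      rw [e3, Matrix.zero_mul, Matrix.trace_zero])
  intro x hx y hy
  have hy𝔤 := hle hy
  have h1 : P (x * y - y * x) = x * y - y * x := by
    refine hTg.eq (hle (hP.mem _)) (hbr x hx y hy𝔤) fun z hz => ?_
    have h2 := key ⟨x, hx⟩ ⟨y, hy𝔤⟩ ⟨z, hz⟩
    rw [hβ, hβ, hlie, hlie] at h2
    have h3 : P y = y := hP.id hTN hy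
    change Matrix.trace (P (x * y - y * x) * z) + Matrix.trace (P y * (x * z - z * x)) = 0 at h2
    rw [h3] at h2
    have h4 := tr_br y x z
    have h5 : Matrix.trace ((x * y - y * x) * z) = -Matrix.trace ((y * x - x * y) * z) := by
      rw [← Matrix.trace_neg, ← Matrix.neg_mul, neg_sub]
    rw [h5, h4]
    linear_combination h2
  rw [← h1]
  exact hP.mem _

/-! ### the projection to a semisimple Lie algebra -/

section proj
variable {𝔤 : Submodule F (Mn n F)} (hTg : TN 𝔤) {π : Mn n F →ₗ[F] Mn n F} (hπ : IsPr 𝔤 π)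
  (hbr : ∀ x ∈ 𝔤, ∀ y ∈ 𝔤, x * y - y * x ∈ 𝔤)
include hTg hπ hbr

/-- a matrix which normalises `𝔤` is the sum of an element of `𝔤` and a matrix which commutes with `𝔤` -/
theorem sub_comm {Y : Mn n F} (hY : ∀ X ∈ 𝔤, Y * X - X * Y ∈ 𝔤) : ∀ X ∈ 𝔤, (Y - π Y) * X - X * (Y - π Y) = 0 := by
  intro X hX
  have h1 : (Y - π Y) * X - X * (Y - π Y) ∈ 𝔤 := by
    have h2 : (Y - π Y) * X - X * (Y - π Y) = (Y * X - X * Y) - (π Y * X - X * π Y) := by noncomm_ring
    rw [h2]
    exact 𝔤.sub_mem (hY X hX) (hbr _ (hπ.mem Y) X hX)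
  refine hTg _ h1 fun Z hZ => ?_
  rw [tr_br, Matrix.sub_mul, Matrix.trace_sub, hπ.tr Y _ (hbr X hX Z hZ), sub_self]

theorem br_proj {Y : Mn n F} (hY : ∀ X ∈ 𝔤, Y * X - X * Y ∈ 𝔤) {X : Mn n F} (hX : X ∈ 𝔤) :
    Y * X - X * Y = π Y * X - X * π Y := by
  have h := sub_comm hTg hπ hbr hY X hX
  have h2 : (Y - π Y) * X - X * (Y - π Y) = (Y * X - X * Y) - (π Y * X - X * π Y) := by noncomm_ring
  rw [h2] at h
  exact sub_eq_zero.1 h

/-- the projection is a homomorphism on the normaliser -/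
theorem proj_br {Y Y' : Mn n F} (hY : ∀ X ∈ 𝔤, Y * X - X * Y ∈ 𝔤) (hY' : ∀ X ∈ 𝔤, Y' * X - X * Y' ∈ 𝔤) :
    π (Y * Y' - Y' * Y) = π Y * π Y' - π Y' * π Y := by
  refine hTg.eq (hπ.mem _) (hbr _ (hπ.mem _) _ (hπ.mem _)) fun Z hZ => ?_
  rw [hπ.tr _ Z hZ, tr_br, tr_br]
  have h1 : Y' * Z - Z * Y' = π Y' * Z - Z * π Y' := br_proj hTg hπ hbr hY' hZ
  rw [h1, ← hπ.tr Y _ (hbr _ (hπ.mem _) _ hZ)]

end proj

/-! ### simultaneous eigenvectors -/

/-- **Simultaneous eigenvectors**: a family of operators `A d` (linear in `d`) is diagonal in a basis; a subspace which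
is stable under all operators is spanned by simultaneous eigenvectors. -/
theorem span_eigen {V 𝒟 ι : Type} [AddCommGroup V] [Module F V] [AddCommGroup 𝒟] [Module F 𝒟] [Fintype ι]
    (b : Basis ι F V) (A : 𝒟 → V →ₗ[F] V) (w : ι → 𝒟 → F) (hA : ∀ d i, A d (b i) = w i d • b i)
    {W : Submodule F V} (hW : ∀ d, ∀ x ∈ W, A d x ∈ W) :
    ∀ x ∈ W, x ∈ Submodule.span F {e : V | e ∈ W ∧ ∀ d, ∃ a : F, A d e = a • e} := by
  classical
  -- the parts of a vector
  let pt : V → (𝒟 → F) → V := fun x u => ∑ i, if w i = u then b.repr x i • b i else 0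
  have hpt : ∀ x u, pt x u = ∑ i, if w i = u then b.repr x i • b i else 0 := fun _ _ => rfl
  clear_value pt
  have hsum : ∀ x, x = ∑ u ∈ Finset.univ.image w, pt x u := by
    intro x
    conv_lhs => rw [← b.sum_repr x]
    simp only [hpt]
    rw [Finset.sum_comm]
    refine Finset.sum_congr rfl fun i _ => ?_
    rw [Finset.sum_ite_eq, if_pos (Finset.mem_image_of_mem w (Finset.mem_univ i))]
  have hAx : ∀ d x u, A d (pt x u) = u d • pt x u := by
    intro d x u
    rw [hpt, map_sum, Finset.smul_sum]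
    refine Finset.sum_congr rfl fun i _ => ?_
    by_cases h : w i = u
    · rw [if_pos h, map_smul, hA, smul_comm, h]
    · rw [if_neg h, map_zero, smul_zero]
  have hrep : ∀ d x i, b.repr (A d x) i = w i d * b.repr x i := by
    intro d x i
    conv_lhs => rw [← b.sum_repr x]
    rw [map_sum, map_sum, Finsupp.finsetSum_apply, Finset.sum_eq_single i]
    · rw [map_smul, hA, map_smul, map_smul, Finsupp.smul_apply, Finsupp.smul_apply, b.repr_self, Finsupp.single_eq_same,
        smul_eq_mul, smul_eq_mul, mul_one, mul_comm]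
    · intro j _ hj
      rw [map_smul, hA, map_smul, map_smul, Finsupp.smul_apply, Finsupp.smul_apply, b.repr_self,
        Finsupp.single_eq_of_ne (Ne.symm hj), smul_zero, smul_zero]
    · intro h
      exact absurd (Finset.mem_univ _) h
  have hptA : ∀ d (v : 𝒟 → F) x u, pt (A d x - v d • x) u = (u d - v d) • pt x u := by
    intro d v x u
    rw [hpt, hpt, Finset.smul_sum]
    refine Finset.sum_congr rfl fun i _ => ?_
    by_cases h : w i = u
    · rw [if_pos h, if_pos h, map_sub, Finsupp.sub_apply, hrep, map_smul, Finsupp.smul_apply, smul_eq_mul, ← sub_mul,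
        smul_smul, h]
    · rw [if_neg h, if_neg h, smul_zero]
  -- all parts are in `W`
  have hparts : ∀ (m : ℕ) (x : V), x ∈ W → ((Finset.univ.image w).filter fun u => pt x u ≠ 0).card ≤ m →
      ∀ u, pt x u ∈ W := by
    intro m
    induction m with
    | zero =>
      intro x hx hc u
      by_cases hu : u ∈ Finset.univ.image w
      · have h1 : pt x u = 0 := by
          by_contra hne
          have h2 : 0 < ((Finset.univ.image w).filter fun u => pt x u ≠ 0).card :=
            Finset.card_pos.2 ⟨u, Finset.mem_filter.2 ⟨hu, hne⟩⟩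
          omega
        rw [h1]
        exact W.zero_mem
      · have h1 : pt x u = 0 := by
          rw [hpt]
          refine Finset.sum_eq_zero fun i _ => ?_
          rw [if_neg]
          rintro rfl
          exact hu (Finset.mem_image_of_mem w (Finset.mem_univ i))
        rw [h1]
        exact W.zero_mem
    | succ m ih =>
      intro x hx hc u
      by_cases hu0 : pt x u = 0
      · rw [hu0]
        exact W.zero_mem
      by_cases hv : ∃ v ∈ Finset.univ.image w, v ≠ u ∧ pt x v ≠ 0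
      · obtain ⟨v, hv, hvu, hv0⟩ := hv
        obtain ⟨d, hd⟩ : ∃ d, u d ≠ v d := by
          by_contra hcon
          push Not at hcon
          exact hvu (funext fun d => (hcon d).symm)
        have h1 : A d x - v d • x ∈ W := W.sub_mem (hW d x hx) (W.smul_mem _ hx)
        have h2 := ih _ h1 (by
          have h3 : (Finset.univ.image w).filter (fun u => pt (A d x - v d • x) u ≠ 0) ⊆
              ((Finset.univ.image w).filter fun u => pt x u ≠ 0).erase v := by
            intro u' hu'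
            rw [Finset.mem_filter] at hu'
            rw [Finset.mem_erase, Finset.mem_filter]
            refine ⟨?_, hu'.1, ?_⟩
            · rintro rfl
              apply hu'.2
              rw [hptA, sub_self, zero_smul]
            · intro h
              apply hu'.2
              rw [hptA, h, smul_zero]
          have h4 := Finset.card_le_card h3
          rw [Finset.card_erase_of_mem (Finset.mem_filter.2 ⟨hv, hv0⟩)] at h4
          omega) u
        rw [hptA] at h2
        have h3 := W.smul_mem (u d - v d)⁻¹ h2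
        rwa [smul_smul, inv_mul_cancel₀ (sub_ne_zero.2 hd), one_smul] at h3
      · push Not at hv
        have h1 : x = pt x u := by
          conv_lhs => rw [hsum x]
          rw [Finset.sum_eq_single u]
          · intro v hv' hvu
            exact hv v hv' hvu
          · intro hu
            exfalso
            apply hu0
            rw [hpt]
            refine Finset.sum_eq_zero fun i _ => ?_
            rw [if_neg]
            rintro rfl
            exact hu (Finset.mem_image_of_mem w (Finset.mem_univ i))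
        rw [← h1]
        exact hx
  intro x hx
  rw [hsum x]
  refine Submodule.sum_mem _ fun u _ => Submodule.subset_span ⟨hparts _ x hx le_rfl u, fun d => ⟨u d, hAx d x u⟩⟩

end Pool.Agent.H936.R
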