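import Pool.Agent.H936.R.Ito
import Pool.Agent.H936.G.Spc2

/-!
# The blocks of a Lie algebra of block diagonal matrices
-/

set_option autoImplicit false
set_option linter.unusedSectionVars false
set_option linter.unusedVariables false

open Matrix Module Filter

namespace Pool.Agent.H936.R

open Pool.Agent.Helper880_LF (spS mem_spS comm_mem)
open Pool.Agent.Helper880_LF.NB (gm gm_mul gm_add gm_sub gm_smul gm_zero gm_one gm_ev gm_eq gm_surj gm_neg gm_unit gm_apply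
  gm_transpose gm_kt kt kt_apply dm dm_mul dm_smul Lst mem_Lst normL)
open Pool.Agent.Helper880_R3 (Ix ib ib_apply ib_inj ib_mul Tot GU mem_GU gm_ib)
open Pool.Agent.Y118.UL (mk mk_eq mk_eq_zero mk_ne_zero mk_surj ev_ge U)
open Pool.Agent.Y119.HY (cm cm_apply cm_mul cm_one cm_transpose cm_add cm_zero cm_neg)
open Pool.Agent.Y123.ST (fl um LL logder_mem fl_um um_fl)
open Pool.Agent.TH127.PT (IsSubtorsor)
open Pool.Agent.Y102 (AbVar QBar tau)
open Pool.Agent.R917 (QQ lamF lamF_apply)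
open Pool.Agent.H936.SL

section
variable {F : Type} [Field F] {n N r₀ : ℕ}

/-- the `j`-th components of the block diagonal elements -/
def bl (V : Submodule F (Matrix (Ix r₀ n N) (Ix r₀ n N) F)) (j : Fin N) : Submodule F (Mn n F) where
  carrier := {X | ∃ (e : Matrix (Fin r₀) (Fin r₀) F) (y : Fin N → Mn n F), Tot e y ∈ V ∧ y j = X}
  zero_mem' := ⟨0, fun _ => 0, by rw [Tot_zero]; exact V.zero_mem, rfl⟩
  add_mem' := by
    rintro _ _ ⟨e, y, h, rfl⟩ ⟨e', y', h', rfl⟩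
    refine ⟨e + e', fun i => y i + y' i, ?_, rfl⟩
    rw [← Tot_add]
    exact V.add_mem h h'
  smul_mem' := by
    rintro c _ ⟨e, y, h, rfl⟩
    refine ⟨c • e, fun i => c • y i, ?_, rfl⟩
    rw [← Tot_smul]
    exact V.smul_mem c h

theorem bl_of {V : Submodule F (Matrix (Ix r₀ n N) (Ix r₀ n N) F)} {e : Matrix (Fin r₀) (Fin r₀) F}
    {y : Fin N → Mn n F} (h : Tot e y ∈ V) (j : Fin N) : y j ∈ bl V j := ⟨e, y, h, rfl⟩

theorem bl_br {V : Submodule F (Matrix (Ix r₀ n N) (Ix r₀ n N) F)} (hV : ∀ x ∈ V, ∀ y ∈ V, x * y - y * x ∈ V)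
    (j : Fin N) : ∀ x ∈ bl V j, ∀ y ∈ bl V j, x * y - y * x ∈ bl V j := by
  rintro _ ⟨e, y, h, rfl⟩ _ ⟨e', y', h', rfl⟩
  have h1 := hV _ h _ h'
  rw [Tot_br] at h1
  exact ⟨_, _, h1, rfl⟩

/-- normalising elements -/
theorem bl_nrm {V : Submodule F (Matrix (Ix r₀ n N) (Ix r₀ n N) F)} {e' : Matrix (Fin r₀) (Fin r₀) F}
    {a : Fin N → Mn n F} (hn : ∀ w ∈ V, Tot e' a * w - w * Tot e' a ∈ V) (j : Fin N) :
    ∀ X ∈ bl V j, a j * X - X * a j ∈ bl V j := by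
  rintro _ ⟨e, y, h, rfl⟩
  have h1 := hn _ h
  rw [Tot_br] at h1
  exact ⟨_, _, h1, rfl⟩

/-- commutators with an element of a block -/
theorem Tot_ib_br (e : Matrix (Fin r₀) (Fin r₀) F) (y : Fin N → Mn n F) (j : Fin N) (X : Mn n F) :
    Tot e y * ib j X - ib j X * Tot e y = ib j (y j * X - X * y j) := by
  rw [ib_Tot, ib_Tot, Tot_br, Matrix.mul_zero, Matrix.zero_mul, sub_zero]
  congr 1
  funext i
  by_cases h : i = j
  · subst h
    rw [Pi.single_eq_same, Pi.single_eq_same]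
  · rw [Pi.single_eq_of_ne h, Pi.single_eq_of_ne h, Matrix.mul_zero, Matrix.zero_mul, sub_zero]

end

variable {n N r₀ g : ℕ}

/-- the blocks in the ultrapower -/
theorem gm_bl {V : ℕ → Submodule ℂ (Matrix (Ix r₀ n N) (Ix r₀ n N) ℂ)}
    {Λ : Submodule (U ℂ) (Matrix (Ix r₀ n N) (Ix r₀ n N) (U ℂ))}
    (hΛ : ∀ F : ℕ → Matrix (Ix r₀ n N) (Ix r₀ n N) ℂ, gm F ∈ Λ ↔ ∀ᶠ k in (hyperfilter ℕ : Filter ℕ), F k ∈ V k)
    {j : Fin N} {X : ℕ → Mn n ℂ} : gm X ∈ bl Λ j ↔ ∀ᶠ k in (hyperfilter ℕ : Filter ℕ), X k ∈ bl (V k) j := by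
  classical
  constructor
  · rintro ⟨e, y, h1, h2⟩
    obtain ⟨e, rfl⟩ := gm_surj e
    choose y' hy' using fun i => gm_surj (y i)
    have hy : y = fun i => gm fun k => y' i k := funext fun i => (hy' i).symm
    subst hy
    have e1 : gm (fun k => Tot (e k) fun i => y' i k) = Tot (gm e) fun i => gm fun k => y' i k :=
      gm_Tot e fun k i => y' i k
    rw [← e1, hΛ] at h1
    have e3 : gm (fun k => y' j k) = gm X := h2
    filter_upwards [h1, gm_eq e3] with k k1 k2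
    exact ⟨e k, fun i => y' i k, k1, k2⟩
  · intro h
    have h1 : ∀ k, ∃ (e : Matrix (Fin r₀) (Fin r₀) ℂ) (y : Fin N → Mn n ℂ), X k ∈ bl (V k) j →
        (Tot e y ∈ V k ∧ y j = X k) := by
      intro k
      by_cases hk : X k ∈ bl (V k) j
      · obtain ⟨e, y, k1, k2⟩ := hk
        exact ⟨e, y, fun _ => ⟨k1, k2⟩⟩
      · exact ⟨0, fun _ => 0, fun h => absurd h hk⟩
    choose e y hh using h1
    refine ⟨gm e, fun i => gm fun k => y k i, ?_, ?_⟩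
    · rw [← gm_Tot, hΛ]
      exact h.mono fun k hk => (hh k hk).1
    · show (gm fun k => y k j) = gm X
      rw [gm_ev]
      exact h.mono fun k hk => (hh k hk).2

/-- **the level of a torsor** -/
theorem mkLv {K : Subfield ℂ} (hK : ∀ x ∈ K, IsAlgebraic ℚ x) {A : AbVar g} {H R : Matrix (Fin (2 * g)) (Fin (2 * g)) ℚ}
    {C₀ : Matrix (Fin r₀) (Fin r₀) ℂ} {P : Fin N → Matrix (Fin (2 * g)) (Fin (2 * g)) ℂ}
    {S : Set (Matrix (Ix r₀ (2 * g) N) (Ix r₀ (2 * g) N) ℂ)}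
    (hS : IsSubtorsor K S) (hr : RatGrp S) (hm : Tot C₀ P ∈ S) (j : Fin N) (hp : Pres A H (P j) R) (hd : IsUnit H.det)
    (hsk : Hᵀ = -H) {𝔤 : Submodule ℚ (Matrix (Fin (2 * g)) (Fin (2 * g)) ℚ)}
    {ℰ : Set (Matrix (Fin (2 * g)) (Fin (2 * g)) ℚ)} (hgood : GoodLie H 𝔤 ℰ)
    (he : ∀ e ∈ ℰ, ∀ a b, IsAlgebraic ℚ (((P j)⁻¹ * cm e * P j) a b))
    (hg : ∀ x ∈ 𝔤, (P j)⁻¹ * cm x * P j ∈
      Submodule.span ℂ {Y | (∀ a b, IsAlgebraic ℚ (Y a b)) ∧ P j * Y * (P j)⁻¹ ∈ cx 𝔤}) :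
    Lv A H (P j) R (bl (Lm S) j) 𝔤 ℰ where
  br := bl_br (fun x hx y hy => LL_br hS ⟨_, hm⟩ hx hy) j
  lam := by
    rintro lam _ ⟨e, y, h, rfl⟩
    have h1 := Lm_map hS hr (lamF lam) h
    have h2 : (Tot e y).map (lamF lam) = Tot (e.map (lamF lam)) fun i => (y i).map (lamF lam) :=
      Tot_map _ (map_zero _) e y
    rw [h2] at h1
    exact ⟨_, _, h1, (cm_lm lam (y j)).symm⟩
  ld := by
    intro D
    have h1 : (Tot C₀ P).map (dK D K hK) * (Tot C₀ P)⁻¹ ∈ Lm S := logder_mem hS (dK D K hK) hm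
    rw [Tot_inv (hS.isUnit _ hm), Tot_map _ (map_zero _), Tot_mul'] at h1
    exact ⟨_, _, h1, rfl⟩
  pres := hp
  det := hd
  skew := hsk
  good := hgood
  he := he
  hg := hg

end Pool.Agent.H936.R
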