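import Pool.Agent.H936.R.Pt

/-!
# The constants
-/

set_option autoImplicit false
set_option linter.unusedSectionVars false
set_option linter.unusedVariables false

open Matrix Module Filter

namespace Pool.Agent.H936.R

open Pool.Agent.Helper880_LF (spS mem_spS comm_mem)
open Pool.Agent.Helper880_LF.NB (gm gm_mul gm_add gm_sub gm_smul gm_zero gm_one gm_ev gm_eq gm_surj gm_neg gm_unit gm_apply
  gm_transpose gm_kt kt kt_apply dm dm_mul dm_smul Lst mem_Lst normL)
open Pool.Agent.Helper880_R3 (Ix ib Tot GU mem_GU gm_ib GU_span exp_stab exp_HD exp_zero')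
open Pool.Agent.Y118.UL (mk mk_eq mk_eq_zero mk_ne_zero mk_surj ev_ge U)
open Pool.Agent.Y119.HY (cm cm_apply cm_mul cm_one cm_transpose cm_add cm_zero cm_neg)
open Pool.Agent.Y102 (AbVar QBar tau)
open Pool.Agent.Y123.ST (fl um LL logder_mem fl_um um_fl fl_smul)
open Pool.Agent.TH127.PT (IsSubtorsor)
open Pool.Agent.H936.SL
open Pool.Agent.H936.G (DD ld ld_apply cjg cjg_apply TN_GU GU_mono cu_GU mem_GU_of der_lin ld_GU)

variable {n : ℕ}

/-- **the logarithmic derivatives of the constants** -/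
theorem ld_GU' {V : Submodule ℂ (Mn n ℂ)} {C : Mn n ℂ} (hC : IsUnit C.det)
    (h : ∀ D : Derivation QBar ℂ ℂ, C.map D * C⁻¹ ∈ V) (δ : DD) : ld (fun _ => C) δ ∈ GU V := by
  refine mem_GU_of fun a ha => ?_
  have h1 : ∀ D : Derivation QBar ℂ ℂ, ∑ p : Fin n × Fin n, (∑ j, a p.1 j * C⁻¹ p.2 j) * D (C p.1 p.2) = 0 := by
    intro D
    have h3 := ha _ (h D)
    rw [← h3, Fintype.sum_prod_type]
    refine Finset.sum_congr rfl fun i _ => ?_
    have h4 : ∀ j, a i j * (C.map D * C⁻¹) i j = ∑ l, a i j * C⁻¹ l j * D (C i l) := by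
      intro j
      rw [Matrix.mul_apply, Finset.mul_sum]
      refine Finset.sum_congr rfl fun l _ => ?_
      rw [Matrix.map_apply]
      ring
    simp only [h4]
    rw [Finset.sum_comm]
    refine Finset.sum_congr rfl fun l _ => ?_
    rw [Finset.sum_mul]
  have h5 := der_lin (fun p : Fin n × Fin n => ∑ j, a p.1 j * C⁻¹ p.2 j) (fun p => C p.1 p.2) h1 δ
  rw [Fintype.sum_prod_type] at h5
  refine Eq.trans ?_ h5
  refine Finset.sum_congr rfl fun i _ => ?_
  have hinv : (gm fun _ => C)⁻¹ = cu C⁻¹ := cu_inv hC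
  have h4 : ∀ j, kt (a i j) * (ld (fun _ => C) δ) i j = ∑ l, kt (a i j) * kt (C⁻¹ l j) * δ (kt (C i l)) := by
    intro j
    rw [ld_apply, hinv, Matrix.mul_apply, Finset.mul_sum]
    refine Finset.sum_congr rfl fun l _ => ?_
    have h6 : dm δ (gm fun _ : ℕ => C) i l = δ (kt (C i l)) := rfl
    have h7 : (cu C⁻¹) l j = kt (C⁻¹ l j) := rfl
    rw [h6, h7]
    ring
  simp only [h4]
  rw [Finset.sum_comm]
  refine Finset.sum_congr rfl fun l _ => ?_
  rw [map_sum, Finset.sum_mul]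
  refine Finset.sum_congr rfl fun j _ => ?_
  rw [map_mul]

section horizontal
variable {P : Mn n ℂ} {𝔤 : Submodule ℚ (Matrix (Fin n) (Fin n) ℚ)}

/-- horizontal matrices: `P Y = Q P` with algebraic `Y` -/
theorem ldc (hP : IsUnit P.det) (D : Derivation QBar ℂ ℂ) {Y Q : Mn n ℂ} (hY : ∀ i j, IsAlgebraic ℚ (Y i j))
    (hQ : P * Y * P⁻¹ = Q) : (P.map D * P⁻¹) * Q - Q * (P.map D * P⁻¹) = Q.map D := by
  have h1 := Matrix.mul_nonsing_inv P hP
  have h2 := Matrix.nonsing_inv_mul P hP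
  have hm : ∀ X Y : Mn n ℂ, (X * Y).map D = X.map D * Y + X * Y.map D := by
    intro X Y
    ext i j
    rw [Matrix.map_apply, Matrix.mul_apply, map_sum, Matrix.add_apply, Matrix.mul_apply, Matrix.mul_apply,
      ← Finset.sum_add_distrib]
    refine Finset.sum_congr rfl fun k _ => ?_
    rw [Derivation.leibniz, Matrix.map_apply, Matrix.map_apply, smul_eq_mul, smul_eq_mul]
    ring
  have hY0 : Y.map D = 0 := by
    ext i j
    exact D_alg D (hY i j)
  have h3 : P * Y = Q * P := by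
    rw [← hQ, Matrix.mul_assoc, h2, Matrix.mul_one]
  have h4 := congrArg (fun M : Mn n ℂ => M.map D) h3
  simp only [hm] at h4
  rw [hY0, Matrix.mul_zero, add_zero] at h4
  calc (P.map D * P⁻¹) * Q - Q * (P.map D * P⁻¹) = P.map D * (P⁻¹ * P) * Y * P⁻¹ - Q * (P.map D * P⁻¹) := by
        rw [← hQ]
        simp only [Matrix.mul_assoc]
    _ = (Q.map D * P + Q * P.map D) * P⁻¹ - Q * (P.map D * P⁻¹) := by rw [h2, Matrix.mul_one, h4]
    _ = Q.map D * (P * P⁻¹) := by
        rw [Matrix.add_mul, Matrix.mul_assoc, Matrix.mul_assoc]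
        abel
    _ = Q.map D := by rw [h1, Matrix.mul_one]

theorem cx_mapD' (D : Derivation QBar ℂ ℂ) {Y : Mn n ℂ} (h : Y ∈ cx 𝔤) : Y.map D ∈ cx 𝔤 := by
  rw [mem_cx]
  intro lam
  let Dq : ℂ →ₗ[ℚ] ℂ := (D : ℂ →ₗ[QBar] ℂ).toAddMonoidHom.toRatLinearMap
  exact cx_lm h (lam ∘ₗ Dq)

theorem conj_self (hP : IsUnit P.det) (X : Mn n ℂ) : P * (P⁻¹ * X * P) * P⁻¹ = X := by
  have h1 := Matrix.mul_nonsing_inv P hP
  calc P * (P⁻¹ * X * P) * P⁻¹ = (P * P⁻¹) * X * (P * P⁻¹) := by simp only [Matrix.mul_assoc]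
    _ = _ := by rw [h1, Matrix.one_mul, Matrix.mul_one]

theorem ldc_g (hP : IsUnit P.det) (hg : ∀ x ∈ 𝔤, P⁻¹ * cm x * P ∈
      Submodule.span ℂ {Y | (∀ a b, IsAlgebraic ℚ (Y a b)) ∧ P * Y * P⁻¹ ∈ cx 𝔤}) (D : Derivation QBar ℂ ℂ) :
    ∀ x ∈ cx 𝔤, (P.map D * P⁻¹) * x - x * (P.map D * P⁻¹) ∈ cx 𝔤 := by
  have h3 : cx 𝔤 ≤ adp (cx 𝔤) (P.map D * P⁻¹) := by
    refine cx_ind fun X hX => ?_
    have h4 := hg X hX
    rw [← conj_self hP (cm X)]
    refine Submodule.span_induction (p := fun Y _ => P * Y * P⁻¹ ∈ adp (cx 𝔤) (P.map D * P⁻¹)) ?_ ?_ ?_ ?_ h4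
    · rintro Y ⟨hY, hYg⟩
      rw [mem_adp, ldc hP D hY rfl]
      exact cx_mapD' D hYg
    · rw [Matrix.mul_zero, Matrix.zero_mul]
      exact Submodule.zero_mem _
    · intro a b _ _ ha hb
      rw [Matrix.mul_add, Matrix.add_mul]
      exact Submodule.add_mem _ ha hb
    · intro c a _ ha
      rw [Matrix.mul_smul, Matrix.smul_mul]
      exact Submodule.smul_mem _ c ha
  exact fun x hx => h3 hx

theorem ldc_e (hP : IsUnit P.det) {e : Matrix (Fin n) (Fin n) ℚ} (he : ∀ a b, IsAlgebraic ℚ ((P⁻¹ * cm e * P) a b))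
    (D : Derivation QBar ℂ ℂ) : (P.map D * P⁻¹) * cm e = cm e * (P.map D * P⁻¹) := by
  have h6 := ldc hP D he (conj_self hP (cm e))
  have h7 : (cm e).map D = 0 := by
    ext i j
    exact D_alg D (cm_alg e i j)
  rw [h7] at h6
  exact sub_eq_zero.1 h6

end horizontal

/-! ### complex multiplication -/

/-- a rational matrix with separable characteristic polynomial is diagonal in some basis -/
theorem exists_diag {X : Matrix (Fin n) (Fin n) ℚ} (h : X.charpoly.Separable) :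
    ∃ (V : Mn n ℂ) (d : Fin n → ℂ), IsUnit V.det ∧ Function.Injective d ∧ cm X * V = V * Matrix.diagonal d := by
  classical
  set p : Polynomial ℂ := (cm X).charpoly with hp
  have hpm : p = X.charpoly.map (algebraMap ℚ ℂ) := by
    rw [hp]
    exact Matrix.charpoly_map X (algebraMap ℚ ℂ)
  have hsep : p.Separable := by
    rw [hpm]
    exact h.map
  have hp0 : p ≠ 0 := (Matrix.charpoly_monic (cm X)).ne_zero
  have hcard : p.roots.toFinset.card = n := by
    rw [Multiset.toFinset_card_of_nodup (Polynomial.nodup_roots hsep), ← (IsAlgClosed.splits p).natDegree_eq_card_roots,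
      hp, Matrix.charpoly_natDegree_eq_dim, Fintype.card_fin]
  let d : Fin n → ℂ := fun i => ((Finset.equivFinOfCardEq hcard).symm i : ℂ)
  have hd : Function.Injective d := fun i j hij => (Finset.equivFinOfCardEq hcard).symm.injective (Subtype.ext hij)
  have hroot : ∀ i, p.IsRoot (d i) := by
    intro i
    have h1 := ((Finset.equivFinOfCardEq hcard).symm i).2
    rw [Multiset.mem_toFinset, Polynomial.mem_roots hp0] at h1
    exact h1
  have hev : ∀ i, Module.End.HasEigenvalue (Matrix.toLin' (cm X)) (d i) := by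
    intro i
    rw [Module.End.hasEigenvalue_iff_isRoot_charpoly, Matrix.charpoly_toLin']
    exact hroot i
  choose v hv using fun i => (hev i).exists_hasEigenvector
  have hli := Module.End.eigenvectors_linearIndependent' (Matrix.toLin' (cm X)) d hd v hv
  refine ⟨Matrix.of fun a i => v i a, d, ?_, hd, ?_⟩
  · rw [← Matrix.isUnit_iff_isUnit_det, ← Matrix.linearIndependent_cols_iff_isUnit]
    exact hli
  · ext a i
    rw [Matrix.mul_diagonal, Matrix.mul_apply]
    have h1 := congrFun (hv i).apply_eq_smul a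
    rw [Matrix.toLin'_apply, Pi.smul_apply, smul_eq_mul] at h1
    rw [Matrix.of_apply, mul_comm, ← h1]
    rfl

/-- matrices which commute with a diagonal matrix -/
theorem diag_of_comm {X V Y : Mn n ℂ} {d : Fin n → ℂ} (hV : IsUnit V.det) (hd : Function.Injective d)
    (hX : X * V = V * Matrix.diagonal d) (hY : Y * X = X * Y) : ∀ i j, i ≠ j → (V⁻¹ * Y * V) i j = 0 := by
  intro i j hij
  have h1 := Matrix.mul_nonsing_inv V hV
  have h2 := Matrix.nonsing_inv_mul V hV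
  have h3 : V⁻¹ * X = Matrix.diagonal d * V⁻¹ := by
    calc V⁻¹ * X = V⁻¹ * (X * V) * V⁻¹ := by
          rw [Matrix.mul_assoc, Matrix.mul_assoc, h1, Matrix.mul_one]
      _ = (V⁻¹ * V) * Matrix.diagonal d * V⁻¹ := by rw [hX, ← Matrix.mul_assoc]
      _ = _ := by rw [h2, Matrix.one_mul]
  have h4 : (V⁻¹ * Y * V) * Matrix.diagonal d = Matrix.diagonal d * (V⁻¹ * Y * V) := by
    calc (V⁻¹ * Y * V) * Matrix.diagonal d = V⁻¹ * Y * (X * V) := by rw [hX]; simp only [Matrix.mul_assoc]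
      _ = V⁻¹ * (Y * X) * V := by simp only [Matrix.mul_assoc]
      _ = (V⁻¹ * X) * Y * V := by rw [hY]; simp only [Matrix.mul_assoc]
      _ = _ := by rw [h3]; simp only [Matrix.mul_assoc]
  have h5 := congrFun (congrFun h4 i) j
  rw [Matrix.mul_diagonal, Matrix.diagonal_mul] at h5
  have h6 : (d j - d i) * (V⁻¹ * Y * V) i j = 0 := by linear_combination h5
  exact (mul_eq_zero.1 h6).resolve_left (sub_ne_zero.2 fun h => hij (hd h).symm)

/-- **the constants of a family with a fibre with complex multiplication** -/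
theorem cs_of {g : ℕ} {C : Mn (2 * g) ℂ} {H : Matrix (Fin (2 * g)) (Fin (2 * g)) ℚ}
    {𝔤 : Submodule ℚ (Matrix (Fin (2 * g)) (Fin (2 * g)) ℚ)} {ℰ : Set (Matrix (Fin (2 * g)) (Fin (2 * g)) ℚ)}
    (hC : IsUnit C.det) (hd : IsUnit H.det) {A : AbVar g} {R : Matrix (Fin (2 * g)) (Fin (2 * g)) ℚ} (hp : Pres A H C R)
    (he : ∀ e ∈ ℰ, ∀ a b, IsAlgebraic ℚ ((C⁻¹ * cm e * C) a b))
    (hg : ∀ x ∈ 𝔤, C⁻¹ * cm x * C ∈ Submodule.span ℂ {Y | (∀ a b, IsAlgebraic ℚ (Y a b)) ∧ C * Y * C⁻¹ ∈ cx 𝔤})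
    {X : Matrix (Fin (2 * g)) (Fin (2 * g)) ℚ} (hXs : X.charpoly.Separable)
    (hX : ∀ a b, IsAlgebraic ℚ ((C⁻¹ * cm X * C) a b)) : ∃ V, Cs C V H 𝔤 ℰ := by
  obtain ⟨V, d, hV, hdi, hXV⟩ := exists_diag hXs
  refine ⟨V, hC, hV, fun δ => ?_⟩
  obtain ⟨B, q, hB, hq, hCB⟩ := hp.leg
  have hqc : (q : ℂ) ≠ 0 := by exact_mod_cast hq
  have h1 : GS (cu (cm H⁻¹)) (ld (fun _ => C) δ) := by
    have h1 := Fd_gs hC (Pool.Agent.H936.G.cm_unit hd) (mul_ne_zero AbVar.tau_ne hqc) hCB hB (fun i j => cm_alg _ i j) δ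
    rw [cm_inv hd] at h1
    exact h1
  let W : Submodule ℂ (Mn (2 * g) ℂ) :=
    { carrier := {Y | (∀ x ∈ cx 𝔤, Y * x - x * Y ∈ cx 𝔤) ∧ (∀ e ∈ ℰ, Y * cm e = cm e * Y) ∧
        ∀ i j, i ≠ j → (V⁻¹ * Y * V) i j = 0}
      zero_mem' := by
        refine ⟨fun x hx => ?_, fun e he => by rw [Matrix.zero_mul, Matrix.mul_zero], fun i j _ => ?_⟩
        · rw [Matrix.zero_mul, Matrix.mul_zero, sub_zero]
          exact Submodule.zero_mem _
        · rw [Matrix.mul_zero, Matrix.zero_mul, Matrix.zero_apply]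
      add_mem' := by
        rintro a b ⟨h2, h3, h4⟩ ⟨h2', h3', h4'⟩
        refine ⟨fun x hx => ?_, fun e he => ?_, fun i j hij => ?_⟩
        · have h5 : (a + b) * x - x * (a + b) = (a * x - x * a) + (b * x - x * b) := by noncomm_ring
          rw [h5]
          exact Submodule.add_mem _ (h2 x hx) (h2' x hx)
        · rw [Matrix.add_mul, Matrix.mul_add, h3 e he, h3' e he]
        · rw [Matrix.mul_add, Matrix.add_mul, Matrix.add_apply, h4 i j hij, h4' i j hij, add_zero]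
      smul_mem' := by
        rintro s a ⟨h2, h3, h4⟩
        refine ⟨fun x hx => ?_, fun e he => ?_, fun i j hij => ?_⟩
        · rw [Matrix.smul_mul, Matrix.mul_smul, ← smul_sub]
          exact Submodule.smul_mem _ _ (h2 x hx)
        · rw [Matrix.smul_mul, Matrix.mul_smul, h3 e he]
        · rw [Matrix.mul_smul, Matrix.smul_mul, Matrix.smul_apply, h4 i j hij, smul_zero] }
  have h2 : ld (fun _ => C) δ ∈ GU W := by
    refine ld_GU' hC (fun D => ?_) δ
    refine ⟨fun x hx => ldc_g hC hg D x hx, fun e he' => ldc_e hC (he e he') D, ?_⟩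
    exact diag_of_comm hV hdi hXV (ldc_e hC hX D)
  obtain ⟨Φ, hΦ⟩ := gm_surj (ld (fun _ => C) δ)
  rw [← hΦ] at h1 h2 ⊢
  rw [mem_GU] at h2 ⊢
  filter_upwards [gm_GS.1 h1, h2] with k k1 k2
  exact ⟨k1, k2.1, k2.2.1, k2.2.2⟩

/-! ### commutative torsors -/

section comm
variable {B : Type} [Fintype B] [DecidableEq B]

/-- the Lie algebra of a commutative torsor is commutative -/
theorem Lm_comm {K : Subfield ℂ} {S : Set (Matrix B B ℂ)} (hS : IsSubtorsor K S) {c : Matrix B B ℂ} (hc : c ∈ S)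
    (hcomm : ∀ x ∈ S, ∀ z ∈ S, x * c⁻¹ * z = z * c⁻¹ * x) {X Y : Matrix B B ℂ} (hX : X ∈ Lm S) (hY : Y ∈ Lm S) :
    X * Y = Y * X := by
  have hcu : c * c⁻¹ = 1 := Matrix.mul_nonsing_inv _ ((Matrix.isUnit_iff_isUnit_det _).1 (hS.isUnit c hc))
  have hex : ∀ (s : ℂ) (X : Matrix B B ℂ), X ∈ Lm S → NormedSpace.exp (s • X) * c ∈ S := by
    intro s X hX
    have hsX : fl (s • X) ∈ LL S := by
      rw [fl_smul]
      exact (LL S).smul_mem s hX
    exact exp_stab hS hsX hc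
  have h1 : ∀ s t : ℂ, NormedSpace.exp (s • X) * NormedSpace.exp (t • Y) =
      NormedSpace.exp (t • Y) * NormedSpace.exp (s • X) := by
    intro s t
    have h2 := hcomm _ (hex s X hX) _ (hex t Y hY)
    calc NormedSpace.exp (s • X) * NormedSpace.exp (t • Y) =
        (NormedSpace.exp (s • X) * c * c⁻¹ * (NormedSpace.exp (t • Y) * c)) * c⁻¹ := by
          rw [Matrix.mul_assoc (NormedSpace.exp (s • X)), hcu, Matrix.mul_one, ← Matrix.mul_assoc,
            Matrix.mul_assoc _ c, hcu, Matrix.mul_one]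
      _ = (NormedSpace.exp (t • Y) * c * c⁻¹ * (NormedSpace.exp (s • X) * c)) * c⁻¹ := by rw [h2]
      _ = _ := by
          rw [Matrix.mul_assoc (NormedSpace.exp (t • Y)), hcu, Matrix.mul_one, ← Matrix.mul_assoc,
            Matrix.mul_assoc _ c, hcu, Matrix.mul_one]
  have hexp : ∀ (X : Matrix B B ℂ) i j, HasDerivAt (fun s : ℂ => NormedSpace.exp (s • X) i j) (X i j) 0 := by
    intro X i j
    have h2 := exp_HD X 0 i j
    have h3 : (0 : ℂ) • X = 0 := zero_smul _ _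
    rwa [h3, exp_zero', Matrix.mul_one] at h2
  have hder : ∀ X W : Matrix B B ℂ, (∀ s : ℂ, NormedSpace.exp (s • X) * W = W * NormedSpace.exp (s • X)) → X * W = W * X := by
    intro X W h
    ext i j
    have h2 : HasDerivAt (fun s : ℂ => (NormedSpace.exp (s • X) * W) i j) ((X * W) i j) 0 := by
      simp only [Matrix.mul_apply]
      exact HasDerivAt.fun_sum fun k _ => (hexp X i k).mul_const _
    have h3 : HasDerivAt (fun s : ℂ => (W * NormedSpace.exp (s • X)) i j) ((W * X) i j) 0 := by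
      simp only [Matrix.mul_apply]
      exact HasDerivAt.fun_sum fun k _ => (hexp X k j).const_mul _
    have h4 : (fun s : ℂ => (NormedSpace.exp (s • X) * W) i j) = fun s : ℂ => (W * NormedSpace.exp (s • X)) i j := by
      funext s
      rw [h s]
    rw [h4] at h2
    exact h2.unique h3
  refine hder X Y fun s => ?_
  exact (hder Y _ fun t => (h1 s t).symm).symm

end comm

/-- the constants of a commutative torsor -/
theorem comm_of {r₀ : ℕ} {C₀ : Matrix (Fin r₀) (Fin r₀) ℂ} {K : Subfield ℂ} (hK : ∀ x ∈ K, IsAlgebraic ℚ x)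
    {S : Set (Matrix (Fin r₀) (Fin r₀) ℂ)} (hS : IsSubtorsor K S) (hc : C₀ ∈ S)
    (hcomm : ∀ x ∈ S, ∀ z ∈ S, x * C₀⁻¹ * z = z * C₀⁻¹ * x) (δ δ' : DD) :
    ld (fun _ => C₀) δ * ld (fun _ => C₀) δ' = ld (fun _ => C₀) δ' * ld (fun _ => C₀) δ := by
  obtain ⟨Φ, hΦ, h1⟩ := ld_GU hK hS hc δ
  obtain ⟨Φ', hΦ', h1'⟩ := ld_GU hK hS hc δ'
  rw [← hΦ, ← hΦ', ← gm_mul, ← gm_mul]
  congr 1
  funext k
  exact Lm_comm hS hc hcomm (h1 k) (h1' k)

end Pool.Agent.H936.R
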