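import Pool.Agent.H936.R.Alg
import Pool.Agent.H936.SL.Lev2

/-!
# The complex span of a rational Lie algebra
-/

set_option autoImplicit false
set_option linter.unusedSectionVars false
set_option linter.unusedVariables false

open Matrix Module

namespace Pool.Agent.H936.R

open Pool.Agent.Helper880_LF (spS mem_spS comm_mem)
open Pool.Agent.Y119.HY (cm cm_apply cm_mul cm_one cm_transpose cm_add cm_zero cm_neg)
open Pool.Agent.H936.SL
open Pool.Agent.R917 (QQ lamF lamF_apply)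

variable {n : ℕ}

theorem cm_sub (X Y : Matrix (Fin n) (Fin n) ℚ) : cm (X - Y) = cm X - cm Y := by
  ext i j
  rw [cm_apply, Matrix.sub_apply, Matrix.sub_apply, cm_apply, cm_apply]
  push_cast
  rfl

theorem cm_smul (q : ℚ) (X : Matrix (Fin n) (Fin n) ℚ) : cm (q • X) = (q : ℂ) • cm X := by
  ext i j
  rw [cm_apply, Matrix.smul_apply, Matrix.smul_apply, cm_apply, smul_eq_mul, smul_eq_mul]
  push_cast
  rfl

theorem cm_trace (X : Matrix (Fin n) (Fin n) ℚ) : Matrix.trace (cm X) = ((Matrix.trace X : ℚ) : ℂ) := by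
  unfold Matrix.trace
  rw [Rat.cast_sum]
  rfl

/-- rational components of complex matrices -/
noncomputable def lm (lam : ℂ →ₗ[ℚ] ℚ) (Y : Mn n ℂ) : Matrix (Fin n) (Fin n) ℚ := Matrix.of fun i j => lam (Y i j)

theorem lm_apply (lam : ℂ →ₗ[ℚ] ℚ) (Y : Mn n ℂ) (i j : Fin n) : lm lam Y i j = lam (Y i j) := rfl

theorem cm_lm (lam : ℂ →ₗ[ℚ] ℚ) (Y : Mn n ℂ) : cm (lm lam Y) = Y.map (lamF lam) := by
  ext i j
  rw [cm_apply]
  rfl

theorem lm_add (lam : ℂ →ₗ[ℚ] ℚ) (X Y : Mn n ℂ) : lm lam (X + Y) = lm lam X + lm lam Y := by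
  ext i j
  exact map_add lam _ _

theorem lm_sub (lam : ℂ →ₗ[ℚ] ℚ) (X Y : Mn n ℂ) : lm lam (X - Y) = lm lam X - lm lam Y := by
  ext i j
  exact map_sub lam _ _

theorem lm_zero (lam : ℂ →ₗ[ℚ] ℚ) : lm lam (0 : Mn n ℂ) = 0 := by
  ext i j
  exact map_zero lam

theorem lm_mul_cm (lam : ℂ →ₗ[ℚ] ℚ) (Y : Mn n ℂ) (X : Matrix (Fin n) (Fin n) ℚ) : lm lam (Y * cm X) = lm lam Y * X := by
  ext i j
  rw [lm_apply, Matrix.mul_apply, Matrix.mul_apply, map_sum]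
  refine Finset.sum_congr rfl fun k _ => ?_
  rw [cm_apply, mul_comm, ← Rat.smul_def, map_smul, smul_eq_mul, mul_comm]
  rfl

theorem lm_cm_mul (lam : ℂ →ₗ[ℚ] ℚ) (Y : Mn n ℂ) (X : Matrix (Fin n) (Fin n) ℚ) : lm lam (cm X * Y) = X * lm lam Y := by
  ext i j
  rw [lm_apply, Matrix.mul_apply, Matrix.mul_apply, map_sum]
  refine Finset.sum_congr rfl fun k _ => ?_
  rw [cm_apply, ← Rat.smul_def, map_smul, smul_eq_mul]
  rfl

theorem lm_trace (lam : ℂ →ₗ[ℚ] ℚ) (Y : Mn n ℂ) : Matrix.trace (lm lam Y) = lam (Matrix.trace Y) := by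
  unfold Matrix.trace
  rw [map_sum]
  rfl

theorem lm_ext {Y : Mn n ℂ} (h : ∀ lam : ℂ →ₗ[ℚ] ℚ, lm lam Y = 0) : Y = 0 := by
  ext i j
  exact Pool.Agent.W516.DR.eq_zero_of_dual fun lam => congrFun (congrFun (h lam) i) j

/-- a linear map with value `1` at `1` -/
theorem exists_lam1 : ∃ lam : ℂ →ₗ[ℚ] ℚ, lam 1 = 1 := by
  obtain ⟨lam, hlam⟩ : ∃ lam : ℂ →ₗ[ℚ] ℚ, lam 1 ≠ 0 := by
    by_contra hcon
    push Not at hcon
    exact one_ne_zero (Pool.Agent.W516.DR.eq_zero_of_dual hcon)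
  refine ⟨(lam 1)⁻¹ • lam, ?_⟩
  rw [LinearMap.smul_apply, smul_eq_mul, inv_mul_cancel₀ hlam]

theorem lm_cm {lam : ℂ →ₗ[ℚ] ℚ} (h : lam 1 = 1) (X : Matrix (Fin n) (Fin n) ℚ) : lm lam (cm X) = X := by
  have h1 := lm_mul_cm lam (1 : Mn n ℂ) X
  rw [Matrix.one_mul] at h1
  rw [h1]
  have h2 : lm lam (1 : Mn n ℂ) = 1 := by
    ext i j
    rw [lm_apply, Matrix.one_apply, Matrix.one_apply]
    split_ifs
    · exact h
    · exact map_zero lam
  rw [h2, Matrix.one_mul]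

/-- the complex span of a rational space -/
def cx (𝔤 : Submodule ℚ (Matrix (Fin n) (Fin n) ℚ)) : Submodule ℂ (Mn n ℂ) :=
  Submodule.span ℂ {Y | ∃ X ∈ 𝔤, Y = cm X}

variable {𝔤 : Submodule ℚ (Matrix (Fin n) (Fin n) ℚ)}

theorem cm_mem {X : Matrix (Fin n) (Fin n) ℚ} (h : X ∈ 𝔤) : cm X ∈ cx 𝔤 := Submodule.subset_span ⟨X, h, rfl⟩

/-- the components are in the rational space -/
theorem cx_lm {Y : Mn n ℂ} (h : Y ∈ cx 𝔤) : ∀ lam : ℂ →ₗ[ℚ] ℚ, lm lam Y ∈ 𝔤 := by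
  refine Submodule.span_induction (p := fun Y _ => ∀ lam : ℂ →ₗ[ℚ] ℚ, lm lam Y ∈ 𝔤) ?_ ?_ ?_ ?_ h
  · rintro _ ⟨X, hX, rfl⟩ lam
    have h1 : lm lam (cm X) = lam 1 • X := by
      ext i j
      rw [lm_apply, cm_apply, Matrix.smul_apply, smul_eq_mul]
      have h2 : ((X i j : ℚ) : ℂ) = (X i j) • (1 : ℂ) := by rw [Rat.smul_def, mul_one]
      rw [h2, map_smul, smul_eq_mul, mul_comm]
    rw [h1]
    exact 𝔤.smul_mem _ hX
  · intro lam
    rw [lm_zero]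
    exact 𝔤.zero_mem
  · intro X Y _ _ hX hY lam
    rw [lm_add]
    exact 𝔤.add_mem (hX lam) (hY lam)
  · intro c X _ hX lam
    exact hX (lam ∘ₗ LinearMap.mulLeft ℚ c)

theorem cx_of_lm {Y : Mn n ℂ} (h : ∀ lam : ℂ →ₗ[ℚ] ℚ, lm lam Y ∈ 𝔤) : Y ∈ cx 𝔤 := by
  classical
  -- a finite dimensional space of complex numbers which contains the entries
  let V : Submodule ℚ ℂ := Submodule.span ℚ (Set.range fun p : Fin n × Fin n => Y p.1 p.2)
  have hV : FiniteDimensional ℚ V := FiniteDimensional.span_of_finite ℚ (Set.finite_range _)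
  obtain ⟨W, hW⟩ := Submodule.exists_isCompl V
  let b := Module.finBasis ℚ V
  have hY : Y = ∑ k, (b k : ℂ) • cm (lm ((b.coord k) ∘ₗ V.projectionOnto W hW) Y) := by
    ext i j
    rw [Matrix.sum_apply]
    have h1 : Y i j ∈ V := Submodule.subset_span ⟨(i, j), rfl⟩
    have h2 : V.projectionOnto W hW (Y i j) = ⟨Y i j, h1⟩ :=
      Submodule.projectionOnto_apply_left hW ⟨Y i j, h1⟩
    have h3 := congrArg Subtype.val (b.sum_repr ⟨Y i j, h1⟩)
    rw [Submodule.coe_sum] at h3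
    conv_lhs => rw [show Y i j = ((⟨Y i j, h1⟩ : V) : ℂ) from rfl, ← h3]
    refine Finset.sum_congr rfl fun k _ => ?_
    rw [Matrix.smul_apply, cm_apply, lm_apply, LinearMap.comp_apply, h2, smul_eq_mul, mul_comm]
    show b.repr ⟨Y i j, h1⟩ k • (b k : ℂ) = _
    rw [Rat.smul_def]
    rfl
  rw [hY]
  exact Submodule.sum_mem _ fun k _ => Submodule.smul_mem _ _ (cm_mem (h _))

theorem mem_cx {Y : Mn n ℂ} : Y ∈ cx 𝔤 ↔ ∀ lam : ℂ →ₗ[ℚ] ℚ, lm lam Y ∈ 𝔤 := ⟨cx_lm, cx_of_lm⟩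

theorem cx_cm {X : Matrix (Fin n) (Fin n) ℚ} (h : cm X ∈ cx 𝔤) : X ∈ 𝔤 := by
  obtain ⟨lam, hlam⟩ := exists_lam1
  have h1 := cx_lm h lam
  rwa [lm_cm hlam] at h1

/-- the components of elements of the complex span -/
theorem cx_cm_lm {Y : Mn n ℂ} (h : Y ∈ cx 𝔤) (lam : ℂ →ₗ[ℚ] ℚ) : cm (lm lam Y) ∈ cx 𝔤 := cm_mem (cx_lm h lam)

theorem cx_br (hbr : ∀ x ∈ 𝔤, ∀ y ∈ 𝔤, x * y - y * x ∈ 𝔤) : ∀ x ∈ cx 𝔤, ∀ y ∈ cx 𝔤, x * y - y * x ∈ cx 𝔤 := by
  intro x hx y hy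
  refine Submodule.span_induction (p := fun x _ => x * y - y * x ∈ cx 𝔤) ?_ ?_ ?_ ?_ hx
  · rintro _ ⟨X, hX, rfl⟩
    refine Submodule.span_induction (p := fun y _ => cm X * y - y * cm X ∈ cx 𝔤) ?_ ?_ ?_ ?_ hy
    · rintro _ ⟨Y, hY, rfl⟩
      rw [← cm_mul, ← cm_mul, ← cm_sub]
      exact cm_mem (hbr X hX Y hY)
    · rw [Matrix.mul_zero, Matrix.zero_mul, sub_zero]
      exact Submodule.zero_mem _
    · intro a b _ _ ha hb
      have h1 : cm X * (a + b) - (a + b) * cm X = (cm X * a - a * cm X) + (cm X * b - b * cm X) := by noncomm_ring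
      rw [h1]
      exact Submodule.add_mem _ ha hb
    · intro c a _ ha
      rw [Matrix.mul_smul, Matrix.smul_mul, ← smul_sub]
      exact Submodule.smul_mem _ c ha
  · rw [Matrix.mul_zero, Matrix.zero_mul, sub_zero]
    exact Submodule.zero_mem _
  · intro a b _ _ ha hb
    have h1 : (a + b) * y - y * (a + b) = (a * y - y * a) + (b * y - y * b) := by noncomm_ring
    rw [h1]
    exact Submodule.add_mem _ ha hb
  · intro c a _ ha
    rw [Matrix.mul_smul, Matrix.smul_mul, ← smul_sub]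
    exact Submodule.smul_mem _ c ha

/-- the trace form of the complex span -/
theorem TN_cx (h : TN 𝔤) : TN (cx 𝔤) := by
  intro X hX htr
  refine lm_ext fun lam => h _ (cx_lm hX lam) fun Y hY => ?_
  rw [← lm_mul_cm, lm_trace, htr _ (cm_mem hY), map_zero]

/-- to check a condition on the complex span it is sufficient to check the rational elements -/
theorem cx_ind {W : Submodule ℂ (Mn n ℂ)} (h : ∀ X ∈ 𝔤, cm X ∈ W) : cx 𝔤 ≤ W := by
  refine Submodule.span_le.2 ?_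
  rintro _ ⟨X, hX, rfl⟩
  exact h X hX

/-- commutation with a matrix -/
def cmt (Y : Mn n ℂ) : Submodule ℂ (Mn n ℂ) where
  carrier := {X | Y * X = X * Y}
  zero_mem' := by
    show Y * 0 = 0 * Y
    rw [Matrix.mul_zero, Matrix.zero_mul]
  add_mem' := by
    intro a b ha hb
    show Y * (a + b) = (a + b) * Y
    rw [Matrix.mul_add, Matrix.add_mul, show Y * a = a * Y from ha, show Y * b = b * Y from hb]
  smul_mem' := by
    intro c a ha
    show Y * (c • a) = (c • a) * Y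
    rw [Matrix.mul_smul, Matrix.smul_mul, show Y * a = a * Y from ha]

theorem mem_cmt {X Y : Mn n ℂ} : X ∈ cmt Y ↔ Y * X = X * Y := Iff.rfl

/-- preimages of a subspace under `ad Y` -/
def adp (W : Submodule ℂ (Mn n ℂ)) (Y : Mn n ℂ) : Submodule ℂ (Mn n ℂ) where
  carrier := {X | Y * X - X * Y ∈ W}
  zero_mem' := by
    show Y * 0 - 0 * Y ∈ W
    rw [Matrix.mul_zero, Matrix.zero_mul, sub_zero]
    exact W.zero_mem
  add_mem' := by
    intro a b ha hb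
    show Y * (a + b) - (a + b) * Y ∈ W
    have h1 : Y * (a + b) - (a + b) * Y = (Y * a - a * Y) + (Y * b - b * Y) := by noncomm_ring
    rw [h1]
    exact W.add_mem ha hb
  smul_mem' := by
    intro c a ha
    show Y * (c • a) - (c • a) * Y ∈ W
    rw [Matrix.mul_smul, Matrix.smul_mul, ← smul_sub]
    exact W.smul_mem c ha

theorem mem_adp {W : Submodule ℂ (Mn n ℂ)} {X Y : Mn n ℂ} : X ∈ adp W Y ↔ Y * X - X * Y ∈ W := Iff.rfl

end Pool.Agent.H936.R
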