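import Pool.Agent.H936.R.Cns

/-!
# All fibres near a fibre with complex multiplication, for arbitrary monodromy
-/

set_option autoImplicit false
set_option linter.unusedSectionVars false
set_option linter.unusedVariables false
set_option maxHeartbeats 400000

open Matrix Module Filter PowerSeries

namespace Pool.Agent.H936.R

open Pool.Agent.Y113 (ev Cv GSys ps)
open Pool.Agent.Y120.GH (QU0)
open Pool.Agent.Y118.HV (Hv hh)
open Pool.Agent.Helper880_LF (spS mem_spS comm_mem)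
open Pool.Agent.Helper880_LF.NB (gm dm)
open Pool.Agent.Helper880_R3 (Ix ib Tot Zm GU Inf sum_ib exp_Zm exp_stab)
open Pool.Agent.Y118.UL (mk U ev_ge)
open Pool.Agent.Y123.ST (fl um LL fl_um um_fl fl_add fl_zero)
open Pool.Agent.TH127.PT (IsSubtorsor)
open Pool.Agent.Y119.HY (cm cm_pow cm_apply)
open Pool.Agent.Y102 (AbVar)
open Pool.Agent.H936.SL
open Pool.Agent.H936.G (DD ld)

variable {n N r₀ g : ℕ}

/-- `𝔤` and `ℰ` are compatible with the de Rham structure of the fibre with period matrix `P` -/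
structure Hz (𝔤 : Submodule ℚ (Matrix (Fin n) (Fin n) ℚ)) (ℰ : Set (Matrix (Fin n) (Fin n) ℚ)) (P : Mn n ℂ) : Prop where
  he : ∀ e ∈ ℰ, ∀ a b, IsAlgebraic ℚ ((P⁻¹ * cm e * P) a b)
  hg : ∀ x ∈ 𝔤, P⁻¹ * cm x * P ∈ Submodule.span ℂ {Y | (∀ a b, IsAlgebraic ℚ (Y a b)) ∧ P * Y * P⁻¹ ∈ cx 𝔤}

/-- **all fibres near a fibre with complex multiplication** -/
theorem fin_cm (hg : 0 < g) {Z : Matrix (Fin (2 * g)) (Fin (2 * g)) ℚ⟦X⟧} {T : Polynomial ℤ}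
    {A : Fin (2 * g * (2 * g)) → Fin (2 * g * (2 * g)) → Polynomial ℤ}
    (hT : T ≠ 0) (hode : ∀ i, ps T * d⁄dX ℚ (hh Z i) = ∑ j, ps (A i j) * hh Z j)
    {q' : ℕ} {C' : ℝ} (hG' : GSys q' C' T (hh Z)) (hqu : QU0 T A) :
    ∃ G : ℕ, 1 ≤ G ∧ ∀ (C : Mn (2 * g) ℂ) (H : Matrix (Fin (2 * g)) (Fin (2 * g)) ℚ)
      (𝔤 : Submodule ℚ (Matrix (Fin (2 * g)) (Fin (2 * g)) ℚ)) (ℰ : Set (Matrix (Fin (2 * g)) (Fin (2 * g)) ℚ)),
      IsUnit C.det → Hᵀ = -H → IsUnit H.det → GoodLie H 𝔤 ℰ → (∀ X ∈ cx 𝔤, Inf Z (C⁻¹ * X * C)) →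
      ∀ (A₀ : AbVar g) (R₀ : Matrix (Fin (2 * g)) (Fin (2 * g)) ℚ), Pres A₀ H C R₀ → Hz 𝔤 ℰ C →
      ∀ X : Matrix (Fin (2 * g)) (Fin (2 * g)) ℚ, X.charpoly.Separable →
      (∀ a b, IsAlgebraic ℚ ((C⁻¹ * cm X * C) a b)) →
      ∀ (N D r₀ : ℕ) (C₀ : Matrix (Fin r₀) (Fin r₀) ℂ), 0 < N → C₀.det ≠ 0 →
      (∀ δ δ' : DD, ld (fun _ => C₀) δ * ld (fun _ => C₀) δ' = ld (fun _ => C₀) δ' * ld (fun _ => C₀) δ) →
      ∃ E : ℕ, ∀ t : Fin N → ℕ, Function.Injective t → (∀ i j, t i ≡ t j [MOD G]) → (∀ i j, (t i - t j + 2) ^ E ≤ t j) →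
      (∀ j, (∃ (A : AbVar g) (R : Matrix (Fin (2 * g)) (Fin (2 * g)) ℚ), Pres A H (C * Hv Z (t j)) R) ∧
        Hz 𝔤 ℰ (C * Hv Z (t j))) →
      ∀ K : Subfield ℂ, FiniteDimensional ℚ K → finrank ℚ K ≤ D →
      ∀ S : Set (Matrix (Ix r₀ (2 * g) N) (Ix r₀ (2 * g) N) ℂ),
      IsSubtorsor K S → RatGrp S → Tot C₀ (fun j => C * Hv Z (t j)) ∈ S → ∀ i, ∀ X ∈ cx 𝔤, ib (r₀ := r₀) i X ∈ Lm S := by
  classical
  obtain ⟨G, hG, hpts⟩ := pts (n := 2 * g) (by omega) hT hode hG' hqu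
  refine ⟨G, hG, fun C H 𝔤 ℰ hC hH hHd hgood hI A₀ R₀ hp₀ hz₀ X hXs hX N D r₀ C₀ hN hC₀ hC₀c => ?_⟩
  obtain ⟨V, hcs⟩ := cs_of hC hHd hp₀ hz₀.he hz₀.hg hXs hX
  obtain ⟨E0, hE0⟩ := hpts C (cx 𝔤) hC hI N hN
  by_contra hcon
  simp only [not_exists, not_forall] at hcon
  choose t hinj hmod hw hpres K hK hKD S hS hSr hmem i₁ X₁ hX₁ hbad using fun k : ℕ => hcon (E0 + k)
  have hdet : ∀ k j, (Hv Z (t k j)).det ≠ 0 := by
    intro k j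
    have h4 := (Pool.Agent.Helper880_R3.Tot_unit ((hS k).isUnit _ (hmem k))).2 j
    have h5 := (Matrix.isUnit_iff_isUnit_det _).1 h4
    rw [Matrix.det_mul] at h5
    exact (isUnit_of_mul_isUnit_right h5).ne_zero
  have hX' := hE0 t hinj hmod hw hdet
  choose Av Rv hAR using fun k j => (hpres k j).1
  have hj := core (r₀ := r₀) hgood hH hHd hcs hC₀ hC₀c (z := fun k j => Hv Z (t k j)) hdet hX' hK hKD hS hSr hmem hAR
    (fun k j => (hpres k j).2.he) (fun k j => (hpres k j).2.hg)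
  obtain ⟨k, hk⟩ := hj.exists
  exact hbad k (hk _ _ (hX₁ k))

/-- stability under exponentials -/
theorem exp_of_cx {K : Subfield ℂ} {𝔤c : Submodule ℂ (Mn n ℂ)} {S : Set (Matrix (Ix r₀ n N) (Ix r₀ n N) ℂ)}
    (hS : IsSubtorsor K S) (h : ∀ i, ∀ X ∈ 𝔤c, ib (r₀ := r₀) i X ∈ Lm S) (Y : Fin N → Matrix (Fin n) (Fin n) ℂ)
    (hY : ∀ j, Y j ∈ 𝔤c) {x : Matrix (Ix r₀ n N) (Ix r₀ n N) ℂ} (hx : x ∈ S) :
    Zm (fun j => NormedSpace.exp (Y j)) * x ∈ S := by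
  classical
  have h4 : ∀ s : Finset (Fin N), fl (∑ i ∈ s, ib (r₀ := r₀) i (Y i)) ∈ LL S := by
    intro s
    induction s using Finset.induction_on with
    | empty =>
      rw [Finset.sum_empty, fl_zero]
      exact (LL S).zero_mem
    | insert a s ha ih =>
      rw [Finset.sum_insert ha, fl_add]
      exact (LL S).add_mem (h a _ (hY a)) ih
  have h3 := h4 Finset.univ
  rw [sum_ib] at h3
  have h5 := exp_stab hS h3 hx
  rw [exp_Zm] at h5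
  exact h5

end Pool.Agent.H936.R
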