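import Pool.Agent.H936.R.Lev2

/-!
# Sums of two abelian subalgebras
-/

set_option autoImplicit false
set_option linter.unusedSectionVars false
set_option linter.unusedVariables false

open Matrix Module

namespace Pool.Agent.H936.R

open Pool.Agent.H936.SL (Mn)

variable {F : Type} [Field F] {n : ℕ}

/-- the identity behind the theorem of Ito -/
theorem ito_id {R : Type} [Ring R] (a b a' b' β β₁ : R) :
    let br := fun x y : R => x * y - y * x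
    br (br a b) (br a' b') = br (br (br a a') b) b' + br (br a (br b a' - β)) b' + br β₁ β + br a (br β b')
      - br (br (br a b' - β₁) a') b - br (br a b' - β₁) (br b a' - β) + br a' (br β₁ b) + br a' (br a (br b b')) := by
  intro br
  simp only [br]
  noncomm_ring

/-- **The theorem of Ito for Lie algebras**, modulo an ideal: the sum of two abelian subalgebras is metabelian. -/
theorem ito_base {𝔤 I : Submodule F (Mn n F)} {𝔞 𝔟 : Set (Mn n F)} (hbr : ∀ x ∈ 𝔤, ∀ y ∈ 𝔤, x * y - y * x ∈ 𝔤)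
    (hI : ∀ x ∈ 𝔤, ∀ y ∈ I, x * y - y * x ∈ I) (h𝔞 : ∀ a ∈ 𝔞, a ∈ 𝔤) (h𝔟 : ∀ b ∈ 𝔟, b ∈ 𝔤)
    (ha : ∀ a ∈ 𝔞, ∀ a' ∈ 𝔞, a * a' - a' * a ∈ I) (hb : ∀ b ∈ 𝔟, ∀ b' ∈ 𝔟, b * b' - b' * b ∈ I)
    (hsum : ∀ x ∈ 𝔤, ∃ a ∈ 𝔞, ∃ b ∈ 𝔟, x = a + b) {a b a' b' : Mn n F} (h1 : a ∈ 𝔞) (h2 : b ∈ 𝔟) (h3 : a' ∈ 𝔞)
    (h4 : b' ∈ 𝔟) : (a * b - b * a) * (a' * b' - b' * a') - (a' * b' - b' * a') * (a * b - b * a) ∈ I := by
  obtain ⟨α, hα, β, hβ, e1⟩ := hsum _ (hbr b (h𝔟 b h2) a' (h𝔞 a' h3))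
  obtain ⟨α₁, hα₁, β₁, hβ₁, e2⟩ := hsum _ (hbr a (h𝔞 a h1) b' (h𝔟 b' h4))
  have hI' : ∀ y ∈ I, ∀ x ∈ 𝔤, y * x - x * y ∈ I := by
    intro y hy x hx
    have := I.neg_mem (hI x hx y hy)
    rwa [neg_sub] at this
  have key := ito_id a b a' b' β β₁
  simp only at key
  have e1' : b * a' - a' * b - β = α := by rw [e1]; abel
  have e2' : a * b' - b' * a - β₁ = α₁ := by rw [e2]; abel
  rw [e1', e2'] at key
  rw [key]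
  refine I.add_mem (I.add_mem (I.sub_mem (I.sub_mem (I.add_mem (I.add_mem (I.add_mem ?_ ?_) ?_) ?_) ?_) ?_) ?_) ?_
  · exact hI' _ (hI' _ (ha a h1 a' h3) b (h𝔟 b h2)) b' (h𝔟 b' h4)
  · exact hI' _ (ha a h1 α hα) b' (h𝔟 b' h4)
  · exact hb β₁ hβ₁ β hβ
  · exact hI a (h𝔞 a h1) _ (hb β hβ b' h4)
  · exact hI' _ (ha α₁ hα₁ a' h3) b (h𝔟 b h2)
  · exact ha α₁ hα₁ α hα
  · exact hI a' (h𝔞 a' h3) _ (hb β₁ hβ₁ b h2)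
  · exact hI a' (h𝔞 a' h3) _ (hI a (h𝔞 a h1) _ (hb b h2 b' h4))

theorem ito {𝔤 I : Submodule F (Mn n F)} {𝔞 𝔟 : Set (Mn n F)} (hbr : ∀ x ∈ 𝔤, ∀ y ∈ 𝔤, x * y - y * x ∈ 𝔤)
    (hI : ∀ x ∈ 𝔤, ∀ y ∈ I, x * y - y * x ∈ I) (h𝔞 : ∀ a ∈ 𝔞, a ∈ 𝔤) (h𝔟 : ∀ b ∈ 𝔟, b ∈ 𝔤)
    (ha : ∀ a ∈ 𝔞, ∀ a' ∈ 𝔞, a * a' - a' * a ∈ I) (hb : ∀ b ∈ 𝔟, ∀ b' ∈ 𝔟, b * b' - b' * b ∈ I)
    (hsum : ∀ x ∈ 𝔤, ∃ a ∈ 𝔞, ∃ b ∈ 𝔟, x = a + b) {x y x' y' : Mn n F} (h1 : x ∈ 𝔤) (h2 : y ∈ 𝔤) (h3 : x' ∈ 𝔤)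
    (h4 : y' ∈ 𝔤) : (x * y - y * x) * (x' * y' - y' * x') - (x' * y' - y' * x') * (x * y - y * x) ∈ I := by
  have hI' : ∀ y ∈ I, ∀ x ∈ 𝔤, y * x - x * y ∈ I := by
    intro y hy x hx
    have := I.neg_mem (hI x hx y hy)
    rwa [neg_sub] at this
  -- a commutator is the sum of two commutators between `𝔞` and `𝔟` modulo `I`
  have hdec : ∀ x ∈ 𝔤, ∀ y ∈ 𝔤, ∃ a ∈ 𝔞, ∃ b ∈ 𝔟, ∃ c ∈ 𝔞, ∃ d ∈ 𝔟, ∃ i ∈ I,
      x * y - y * x = (a * b - b * a) - (c * d - d * c) + i := by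
    intro x hx y hy
    obtain ⟨a, ha1, d, hd1, rfl⟩ := hsum x hx
    obtain ⟨c, hc1, b, hb1, rfl⟩ := hsum y hy
    refine ⟨a, ha1, b, hb1, c, hc1, d, hd1, (a * c - c * a) + (d * b - b * d), I.add_mem (ha a ha1 c hc1) (hb d hd1 b hb1), ?_⟩
    noncomm_ring
  obtain ⟨a, ha1, b, hb1, c, hc1, d, hd1, i, hi, e1⟩ := hdec x h1 y h2
  obtain ⟨a', ha1', b', hb1', c', hc1', d', hd1', i', hi', e2⟩ := hdec x' h3 y' h4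
  have k1 := ito_base hbr hI h𝔞 h𝔟 ha hb hsum ha1 hb1 ha1' hb1'
  have k2 := ito_base hbr hI h𝔞 h𝔟 ha hb hsum ha1 hb1 hc1' hd1'
  have k3 := ito_base hbr hI h𝔞 h𝔟 ha hb hsum hc1 hd1 ha1' hb1'
  have k4 := ito_base hbr hI h𝔞 h𝔟 ha hb hsum hc1 hd1 hc1' hd1'
  have k5 := hI' i hi _ (hbr x' h3 y' h4)
  have k6 := hI _ (hbr x h1 y h2) i' hi'
  have k7 : i * i' - i' * i ∈ I := by
    have h5 : i = (x * y - y * x) - ((a * b - b * a) - (c * d - d * c)) := by rw [e1]; abel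
    have h6 : i ∈ 𝔤 := by
      rw [h5]
      exact 𝔤.sub_mem (hbr x h1 y h2) (𝔤.sub_mem (hbr a (h𝔞 a ha1) b (h𝔟 b hb1)) (hbr c (h𝔞 c hc1) d (h𝔟 d hd1)))
    exact hI i h6 i' hi'
  set p := a * b - b * a with hp
  set q := c * d - d * c with hq
  set p' := a' * b' - b' * a' with hp'
  set q' := c' * d' - d' * c' with hq'
  have h5 : (x * y - y * x) * (x' * y' - y' * x') - (x' * y' - y' * x') * (x * y - y * x) =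
      (p * p' - p' * p) - (p * q' - q' * p) - (q * p' - p' * q) + (q * q' - q' * q) +
      (i * (x' * y' - y' * x') - (x' * y' - y' * x') * i) + ((x * y - y * x) * i' - i' * (x * y - y * x)) -
      (i * i' - i' * i) := by
    rw [e1, e2]
    noncomm_ring
  rw [h5]
  exact I.sub_mem (I.add_mem (I.add_mem (I.add_mem (I.sub_mem (I.sub_mem k1 k2) k3) k4) k5) k6) k7

end Pool.Agent.H936.R
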