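import Pool.Graph.R_seed8.Y102.AV13

/-!
# Negativity of the trace form on skew endomorphisms
-/

set_option autoImplicit false
set_option linter.unusedSectionVars false

open Module Function

noncomputable section

namespace Pool.Agent.H936.R

open Pool.Agent.Y102 Pool.Agent.W516.DR Pool.Agent.H204R3.GP Pool.Agent.W516.KC Pool.Agent.H204R3.SP

variable {g : ℕ} (A : AbVar g)

/-- Negativity of the trace form. -/
theorem trace_neg {X : Module.End ℚ A.H1} {M : (Fin g → ℂ) →ₗ[ℂ] (Fin g → ℂ)}
    (hM : ∀ w, M (A.per w) = A.per (X w)) (hs : IsSkew A.om X) : LinearMap.trace ℚ A.H1 (X * X) ≤ 0 := by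
  classical
  have hsk : ∀ u v, A.E (M u) v = -A.E u (M v) := by
    have h2 : A.E.comp (M.restrictScalars ℝ) = -(A.E.flip.comp (M.restrictScalars ℝ)).flip := by
      refine A.ext_per fun u => A.ext_per fun v => ?_
      change A.E (M (A.per u)) (A.per v) = -A.E (A.per u) (M (A.per v))
      rw [hM, hM, ← A.om_coe, ← A.om_coe, ← Rat.cast_neg]
      congr 1
      linear_combination hs u v
    intro u v
    exact congrArg (fun F : (Fin g → ℂ) →ₗ[ℝ] (Fin g → ℂ) →ₗ[ℝ] ℝ => F u v) h2
  have hPF : ∀ u v, A.PF (M u) v = -A.PF u (M v) := fun u v => by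
    rw [A.PF_apply, A.PF_apply, hsk, map_smul]
  have htr : ((LinearMap.trace ℚ A.H1 (X * X) : ℚ) : ℝ) =
      LinearMap.trace ℝ (Fin g → ℂ) ((M.comp M).restrictScalars ℝ) := by
    refine A.trace_real (X := X * X) (M := (M.comp M).restrictScalars ℝ) ?_
    intro w
    change M (M (A.per w)) = A.per (X (X w))
    rw [hM, hM]
  have hsym : LinearMap.IsSymm (A.PF) := ⟨fun u v => by rw [RingHom.id_apply]; exact A.PF_symm u v⟩
  obtain ⟨v, hv⟩ := LinearMap.BilinForm.exists_orthogonal_basis hsym
  have hrepr : ∀ x i, v.repr x i * A.PF (v i) (v i) = A.PF x (v i) := by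
    intro x i
    conv_rhs => rw [← v.sum_repr x]
    rw [map_sum, LinearMap.sum_apply, Finset.sum_eq_single i]
    · rw [map_smul, LinearMap.smul_apply, smul_eq_mul]
    · intro j _ hj
      rw [map_smul, LinearMap.smul_apply]
      have h1 : A.PF (v j) (v i) = 0 := hv hj
      rw [h1, smul_zero]
    · intro h
      exact absurd (Finset.mem_univ _) h
  have hpos : ∀ i, 0 < A.PF (v i) (v i) := fun i => A.PF_pos (v.ne_zero i)
  have hterm : ∀ i, v.repr (M (M (v i))) i = -(A.PF (M (v i)) (M (v i)) / A.PF (v i) (v i)) := by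
    intro i
    have h1 := hrepr (M (M (v i))) i
    rw [hPF] at h1
    rw [eq_neg_iff_add_eq_zero, ← mul_right_inj' (hpos i).ne', mul_zero, mul_add,
      mul_div_cancel₀ _ (hpos i).ne']
    linear_combination h1
  have hnn : ∀ i, 0 ≤ A.PF (M (v i)) (M (v i)) / A.PF (v i) (v i) := by
    intro i
    refine div_nonneg ?_ (hpos i).le
    by_cases h : M (v i) = 0
    · rw [h, map_zero]
    · exact (A.PF_pos h).le
  have h1 : LinearMap.trace ℝ (Fin g → ℂ) ((M.comp M).restrictScalars ℝ) ≤ 0 := by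
    rw [LinearMap.trace_eq_matrix_trace ℝ v, Matrix.trace]
    refine Finset.sum_nonpos fun i _ => ?_
    rw [Matrix.diag_apply, LinearMap.toMatrix_apply]
    have h2 : v.repr (((M.comp M).restrictScalars ℝ) (v i)) i = -(A.PF (M (v i)) (M (v i)) / A.PF (v i) (v i)) := hterm i
    rw [h2]
    exact neg_nonpos.2 (hnn i)
  rw [← htr] at h1
  exact_mod_cast h1

end Pool.Agent.H936.R
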