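import Pool.Agent.H936.R.Cx
import Pool.Agent.H936.R.Pos

/-!
# The Lie algebra of a subtorsor through the periods of an abelian variety, for arbitrary monodromy
-/

set_option autoImplicit false
set_option linter.unusedSectionVars false
set_option linter.unusedVariables false

open Matrix Module

namespace Pool.Agent.H936.R

open Pool.Agent.Helper880_LF (spS mem_spS comm_mem)
open Pool.Agent.Y102 (AbVar QBar tau toC toC_eq)
open Pool.Agent.Y119.HY (cm cm_apply cm_mul cm_one cm_transpose cm_add cm_zero cm_neg)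
open Pool.Agent.H936.SL
open Pool.Agent.W516.DR (X0 XX cmpE X0_mem IsDeRhamBettiEnd IsDeRhamBettiSubspace sub_of_stable)
open Pool.Agent.W516.KC (Semi IsSkew central_of_trace)
open Pool.Agent.R917 (PM QQ lamF lamF_apply exists_inv toC_cmpE X0_eq derQ)

/-- the conditions on the Lie algebra `𝔤` of the monodromy group and the set `ℰ` of endomorphisms -/
structure GoodLie {n : ℕ} (H : Matrix (Fin n) (Fin n) ℚ) (𝔤 : Submodule ℚ (Matrix (Fin n) (Fin n) ℚ))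
    (ℰ : Set (Matrix (Fin n) (Fin n) ℚ)) : Prop where
  br : ∀ x ∈ 𝔤, ∀ y ∈ 𝔤, x * y - y * x ∈ 𝔤
  tn : TN 𝔤
  perf : ∀ x ∈ 𝔤, x ∈ Submodule.span ℚ {z | ∃ a ∈ 𝔤, ∃ b ∈ 𝔤, z = a * b - b * a}
  sk : ∀ x ∈ 𝔤, cm x ∈ spS (cm H⁻¹)
  noc : ∀ I : Submodule ℚ (Matrix (Fin n) (Fin n) ℚ), I ≤ 𝔤 → (∀ x ∈ 𝔤, ∀ y ∈ I, x * y - y * x ∈ I) → I ≠ ⊥ →
    ∃ x ∈ I, x ≠ 0 ∧ 0 ≤ Matrix.trace (x * x)
  ce : ∀ e ∈ ℰ, ∀ x ∈ 𝔤, e * x = x * e
  com : ∀ z, (∀ x ∈ 𝔤, z * x = x * z) → (∀ e ∈ ℰ, z * e = e * z) → z ∈ ℰ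

section level
variable {g : ℕ}

/-- the data of a level: a rational Lie algebra which contains the logarithmic derivatives of a period matrix -/
structure Lv (A : AbVar g) (H : Matrix (Fin (2 * g)) (Fin (2 * g)) ℚ) (P : Matrix (Fin (2 * g)) (Fin (2 * g)) ℂ)
    (R : Matrix (Fin (2 * g)) (Fin (2 * g)) ℚ) (L : Submodule ℂ (Mn (2 * g) ℂ))
    (𝔤 : Submodule ℚ (Matrix (Fin (2 * g)) (Fin (2 * g)) ℚ)) (ℰ : Set (Matrix (Fin (2 * g)) (Fin (2 * g)) ℚ)) : Prop where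
  br : ∀ x ∈ L, ∀ y ∈ L, x * y - y * x ∈ L
  lam : ∀ (lam : ℂ →ₗ[ℚ] ℚ), ∀ x ∈ L, cm (lm lam x) ∈ L
  ld : ∀ D : Derivation QBar ℂ ℂ, P.map D * P⁻¹ ∈ L
  pres : Pres A H P R
  det : IsUnit H.det
  skew : Hᵀ = -H
  good : GoodLie H 𝔤 ℰ
  he : ∀ e ∈ ℰ, ∀ i j, IsAlgebraic ℚ ((P⁻¹ * cm e * P) i j)
  hg : ∀ x ∈ 𝔤, P⁻¹ * cm x * P ∈ Submodule.span ℂ {Y | (∀ i j, IsAlgebraic ℚ (Y i j)) ∧ P * Y * P⁻¹ ∈ cx 𝔤}

/-- the elements which normalise `𝔤`, commute with `ℰ` and are in `L` up to scalars -/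
def hC (H : Matrix (Fin (2 * g)) (Fin (2 * g)) ℚ) (L : Submodule ℂ (Mn (2 * g) ℂ))
    (𝔤 : Submodule ℚ (Matrix (Fin (2 * g)) (Fin (2 * g)) ℚ)) (ℰ : Set (Matrix (Fin (2 * g)) (Fin (2 * g)) ℚ)) :
    Submodule ℂ (Mn (2 * g) ℂ) where
  carrier := {Y | Y ∈ spS (cm H⁻¹) ∧ (∀ x ∈ cx 𝔤, Y * x - x * Y ∈ cx 𝔤) ∧ (∀ e ∈ ℰ, Y * cm e = cm e * Y) ∧
    ∃ c : ℂ, Y + c • (1 : Mn (2 * g) ℂ) ∈ L}
  zero_mem' := by
    refine ⟨Submodule.zero_mem _, fun x hx => ?_, fun e he => by rw [Matrix.zero_mul, Matrix.mul_zero], 0, ?_⟩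
    · rw [Matrix.zero_mul, Matrix.mul_zero, sub_zero]
      exact Submodule.zero_mem _
    · rw [zero_smul, add_zero]
      exact Submodule.zero_mem _
  add_mem' := by
    rintro a b ⟨h1, h2, h3, c, h4⟩ ⟨h1', h2', h3', c', h4'⟩
    refine ⟨Submodule.add_mem _ h1 h1', fun x hx => ?_, fun e he => ?_, c + c', ?_⟩
    · have h5 : (a + b) * x - x * (a + b) = (a * x - x * a) + (b * x - x * b) := by noncomm_ring
      rw [h5]
      exact Submodule.add_mem _ (h2 x hx) (h2' x hx)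
    · rw [Matrix.add_mul, Matrix.mul_add, h3 e he, h3' e he]
    · have h5 : a + b + (c + c') • (1 : Mn (2 * g) ℂ) = (a + c • 1) + (b + c' • 1) := by
        rw [add_smul]
        abel
      rw [h5]
      exact L.add_mem h4 h4'
  smul_mem' := by
    rintro s a ⟨h1, h2, h3, c, h4⟩
    refine ⟨Submodule.smul_mem _ _ h1, fun x hx => ?_, fun e he => ?_, s * c, ?_⟩
    · rw [Matrix.smul_mul, Matrix.mul_smul, ← smul_sub]
      exact Submodule.smul_mem _ _ (h2 x hx)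
    · rw [Matrix.smul_mul, Matrix.mul_smul, h3 e he]
    · rw [← smul_smul, ← smul_add]
      exact L.smul_mem _ h4

variable {A : AbVar g} {H : Matrix (Fin (2 * g)) (Fin (2 * g)) ℚ} {P : Matrix (Fin (2 * g)) (Fin (2 * g)) ℂ}
    {R : Matrix (Fin (2 * g)) (Fin (2 * g)) ℚ} {L : Submodule ℂ (Mn (2 * g) ℂ)}
    {𝔤 : Submodule ℚ (Matrix (Fin (2 * g)) (Fin (2 * g)) ℚ)} {ℰ : Set (Matrix (Fin (2 * g)) (Fin (2 * g)) ℚ)}

theorem hC_br (h : Lv A H P R L 𝔤 ℰ) : ∀ x ∈ hC H L 𝔤 ℰ, ∀ y ∈ hC H L 𝔤 ℰ, x * y - y * x ∈ hC H L 𝔤 ℰ := by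
  rintro a ⟨h1, h2, h3, c, h4⟩ b ⟨h1', h2', h3', c', h4'⟩
  refine ⟨comm_mem (cm_skew h.skew) h1 h1', fun x hx => ?_, fun e he => ?_, 0, ?_⟩
  · have h5 : (a * b - b * a) * x - x * (a * b - b * a) = (a * (b * x - x * b) - (b * x - x * b) * a) -
        (b * (a * x - x * a) - (a * x - x * a) * b) := by noncomm_ring
    rw [h5]
    exact Submodule.sub_mem _ (h2 _ (h2' x hx)) (h2' _ (h2 x hx))
  · have e1 := h3 e he
    have e2 := h3' e he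
    calc (a * b - b * a) * cm e = a * (b * cm e) - b * (a * cm e) := by
          rw [Matrix.sub_mul, Matrix.mul_assoc, Matrix.mul_assoc]
      _ = (a * cm e) * b - (b * cm e) * a := by rw [e1, e2, ← Matrix.mul_assoc, ← Matrix.mul_assoc, e1, e2]
      _ = cm e * (a * b - b * a) := by rw [e1, e2, Matrix.mul_sub, Matrix.mul_assoc, Matrix.mul_assoc]
  · rw [zero_smul, add_zero, ← br_scalar' a b c c']
    exact h.br _ h4 _ h4'

/-- rational components -/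
theorem hC_lm (h : Lv A H P R L 𝔤 ℰ) {Y : Mn (2 * g) ℂ} (hY : Y ∈ hC H L 𝔤 ℰ) (lam : ℂ →ₗ[ℚ] ℚ) :
    cm (lm lam Y) ∈ hC H L 𝔤 ℰ := by
  obtain ⟨h1, h2, h3, c, h4⟩ := hY
  refine ⟨?_, fun x hx => ?_, fun e he => ?_, ((lam c : ℚ) : ℂ), ?_⟩
  · rw [cm_lm]
    exact spS_map _ h1
  · have h5 : cx 𝔤 ≤ adp (cx 𝔤) (cm (lm lam Y)) := by
      refine cx_ind fun X hX => ?_
      rw [mem_adp, ← cm_mul, ← cm_mul, ← cm_sub, ← lm_mul_cm, ← lm_cm_mul, ← lm_sub]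
      exact cx_cm_lm (h2 _ (cm_mem hX)) lam
    exact h5 hx
  · have h5 := congrArg (lm lam) (h3 e he)
    rw [lm_mul_cm, lm_cm_mul] at h5
    rw [← cm_mul, ← cm_mul, h5]
  · have h5 := h.lam lam _ h4
    have h6 : cm (lm lam (Y + c • (1 : Mn (2 * g) ℂ))) = cm (lm lam Y) + ((lam c : ℚ) : ℂ) • (1 : Mn (2 * g) ℂ) := by
      rw [lm_add, cm_add]
      congr 1
      ext i j
      rw [cm_apply, lm_apply, Matrix.smul_apply, Matrix.smul_apply, Matrix.one_apply]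
      split_ifs
      · rw [smul_eq_mul, mul_one, smul_eq_mul, mul_one]
      · rw [smul_eq_mul, mul_zero, map_zero, smul_eq_mul, mul_zero, Rat.cast_zero]
    rwa [h6] at h5

/-! ### the logarithmic derivatives -/

theorem map_mulD (D : Derivation QBar ℂ ℂ) (X Y : Mn (2 * g) ℂ) : (X * Y).map D = X.map D * Y + X * Y.map D := by
  ext i j
  rw [Matrix.map_apply, Matrix.mul_apply, map_sum, Matrix.add_apply, Matrix.mul_apply, Matrix.mul_apply,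
    ← Finset.sum_add_distrib]
  refine Finset.sum_congr rfl fun k _ => ?_
  rw [Derivation.leibniz, Matrix.map_apply, Matrix.map_apply, smul_eq_mul, smul_eq_mul]
  ring

theorem map_algD (D : Derivation QBar ℂ ℂ) {Y : Mn (2 * g) ℂ} (h : ∀ i j, IsAlgebraic ℚ (Y i j)) : Y.map D = 0 := by
  ext i j
  exact D_alg D (h i j)

theorem Lv.Pu (h : Lv A H P R L 𝔤 ℰ) : P * P⁻¹ = 1 ∧ P⁻¹ * P = 1 := by
  obtain ⟨T, T', q, hR, hT, hTa, hq, hP, hE⟩ := h.pres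
  obtain ⟨P', e1, e2⟩ := exists_inv A
  have h1 : P * (T' * P' * (cm R)⁻¹) = 1 := by
    rw [hP]
    calc cm R * PM A * T * (T' * P' * (cm R)⁻¹) = cm R * (PM A * (T * T') * P') * (cm R)⁻¹ := by
          simp only [Matrix.mul_assoc]
      _ = 1 := by rw [hT, Matrix.mul_one, e1, Matrix.mul_one, cm_mul_inv hR]
  have h2 : IsUnit P.det := by
    have h3 := congrArg Matrix.det h1
    rw [Matrix.det_mul, Matrix.det_one] at h3
    exact IsUnit.of_mul_eq_one _ h3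
  exact ⟨Matrix.mul_nonsing_inv _ h2, Matrix.nonsing_inv_mul _ h2⟩

/-- horizontal matrices: `P Y = Q P` with algebraic `Y` -/
theorem ld_comm (h : Lv A H P R L 𝔤 ℰ) (D : Derivation QBar ℂ ℂ) {Y Q : Mn (2 * g) ℂ} (hY : ∀ i j, IsAlgebraic ℚ (Y i j))
    (hQ : P * Y * P⁻¹ = Q) : (P.map D * P⁻¹) * Q - Q * (P.map D * P⁻¹) = Q.map D := by
  obtain ⟨h1, h2⟩ := h.Pu
  have h3 : P * Y = Q * P := by
    rw [← hQ, Matrix.mul_assoc, h2, Matrix.mul_one]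
  have h4 := congrArg (fun M : Mn (2 * g) ℂ => M.map D) h3
  simp only [map_mulD] at h4
  rw [map_algD D hY, Matrix.mul_zero, add_zero] at h4
  calc (P.map D * P⁻¹) * Q - Q * (P.map D * P⁻¹) = P.map D * (P⁻¹ * P) * Y * P⁻¹ - Q * (P.map D * P⁻¹) := by
        rw [← hQ]
        simp only [Matrix.mul_assoc]
    _ = (Q.map D * P + Q * P.map D) * P⁻¹ - Q * (P.map D * P⁻¹) := by rw [h2, Matrix.mul_one, h4]
    _ = Q.map D * (P * P⁻¹) := by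
        rw [Matrix.add_mul, Matrix.mul_assoc, Matrix.mul_assoc]
        abel
    _ = Q.map D := by rw [h1, Matrix.mul_one]

theorem cx_mapD (D : Derivation QBar ℂ ℂ) {Y : Mn (2 * g) ℂ} (h : Y ∈ cx 𝔤) : Y.map D ∈ cx 𝔤 := by
  rw [mem_cx]
  intro lam
  let Dq : ℂ →ₗ[ℚ] ℂ := (D : ℂ →ₗ[QBar] ℂ).toAddMonoidHom.toRatLinearMap
  exact cx_lm h (lam ∘ₗ Dq)

theorem ld_g (h : Lv A H P R L 𝔤 ℰ) (D : Derivation QBar ℂ ℂ) :
    ∀ x ∈ cx 𝔤, (P.map D * P⁻¹) * x - x * (P.map D * P⁻¹) ∈ cx 𝔤 := by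
  obtain ⟨h1, h2⟩ := h.Pu
  have h3 : cx 𝔤 ≤ adp (cx 𝔤) (P.map D * P⁻¹) := by
    refine cx_ind fun X hX => ?_
    have h4 := h.hg X hX
    have h5 : cm X = P * (P⁻¹ * cm X * P) * P⁻¹ := by
      calc cm X = (P * P⁻¹) * cm X * (P * P⁻¹) := by rw [h1, Matrix.one_mul, Matrix.mul_one]
        _ = _ := by simp only [Matrix.mul_assoc]
    rw [h5]
    refine Submodule.span_induction (p := fun Y _ => P * Y * P⁻¹ ∈ adp (cx 𝔤) (P.map D * P⁻¹)) ?_ ?_ ?_ ?_ h4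
    · rintro Y ⟨hY, hYg⟩
      rw [mem_adp, ld_comm h D hY rfl]
      exact cx_mapD D hYg
    · rw [Matrix.mul_zero, Matrix.zero_mul]
      exact Submodule.zero_mem _
    · intro a b _ _ ha hb
      rw [Matrix.mul_add, Matrix.add_mul]
      exact Submodule.add_mem _ ha hb
    · intro c a _ ha
      rw [Matrix.mul_smul, Matrix.smul_mul]
      exact Submodule.smul_mem _ c ha
  exact fun x hx => h3 hx

theorem ld_e (h : Lv A H P R L 𝔤 ℰ) (D : Derivation QBar ℂ ℂ) :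
    ∀ e ∈ ℰ, (P.map D * P⁻¹) * cm e = cm e * (P.map D * P⁻¹) := by
  intro e he
  obtain ⟨h1, h2⟩ := h.Pu
  have h5 : P * (P⁻¹ * cm e * P) * P⁻¹ = cm e := by
    calc P * (P⁻¹ * cm e * P) * P⁻¹ = (P * P⁻¹) * cm e * (P * P⁻¹) := by simp only [Matrix.mul_assoc]
      _ = _ := by rw [h1, Matrix.one_mul, Matrix.mul_one]
  have h6 := ld_comm h D (h.he e he) h5
  rw [map_algD D (cm_alg e)] at h6
  exact sub_eq_zero.1 h6

theorem Lv.R_unit (h : Lv A H P R L 𝔤 ℰ) : IsUnit R.det := by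
  obtain ⟨T, T', q, hR, -⟩ := h.pres
  exact hR

/-- the components of the logarithmic derivative -/
theorem Lv.cmp (h : Lv A H P R L 𝔤 ℰ) (D : Derivation QBar ℂ ℂ) (lam : ℂ →ₗ[ℚ] ℚ) :
    cm (lm lam (P.map D * P⁻¹)) = bt R (X0 A.basis tau D lam) +
      ((lam (D tau / (2 * tau)) : ℚ) : ℂ) • (1 : Matrix (Fin (2 * g)) (Fin (2 * g)) ℂ) := by
  have hR := h.R_unit
  obtain ⟨P', e1, e2⟩ := exists_inv A
  rw [cm_lm, h.pres.der D e1, cm_inv hR, map_mul_cm, cm_map_mul, ← toC_cmpE A D e2 lam, ← cm_inv hR, ← bt_eq hR,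
    ← bt_one hR, ← bt_smul, ← bt_add, X0_eq]

theorem Lv.X0_hC (h : Lv A H P R L 𝔤 ℰ) (D : Derivation QBar ℂ ℂ) (lam : ℂ →ₗ[ℚ] ℚ) :
    bt R (X0 A.basis tau D lam) ∈ hC H L 𝔤 ℰ := by
  have h0 := h.cmp D lam
  set c : ℂ := ((lam (D tau / (2 * tau)) : ℚ) : ℂ) with hc
  set Λ := P.map D * P⁻¹ with hΛ
  have h1 : bt R (X0 A.basis tau D lam) = cm (lm lam Λ) + (-c) • (1 : Mn (2 * g) ℂ) := by
    rw [h0, neg_smul, add_neg_cancel_right]
  refine ⟨(skew_bt h.det h.pres _).1 (X0_skew A D lam), fun x hx => ?_, fun e he => ?_, c, ?_⟩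
  · have h2 : cx 𝔤 ≤ adp (cx 𝔤) (bt R (X0 A.basis tau D lam)) := by
      refine cx_ind fun X hX => ?_
      have h3 := br_scalar' (cm (lm lam Λ)) (cm X) (-c) 0
      rw [zero_smul, add_zero] at h3
      rw [mem_adp, h1, h3, ← cm_mul, ← cm_mul, ← cm_sub, ← lm_mul_cm, ← lm_cm_mul, ← lm_sub]
      exact cx_cm_lm (ld_g h D _ (cm_mem hX)) lam
    exact h2 hx
  · have h3 := br_scalar' (cm (lm lam Λ)) (cm e) (-c) 0
    rw [zero_smul, add_zero] at h3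
    have h4 := congrArg (lm lam) (ld_e h D e he)
    rw [lm_mul_cm, lm_cm_mul] at h4
    rw [← sub_eq_zero, h1, h3, ← cm_mul, ← cm_mul, h4, sub_self]
  · rw [← h0]
    exact h.lam lam _ (h.ld D)

/-! ### the rational Lie algebra -/

/-- the rational Lie algebra -/
def hQ (A : AbVar g) (H R : Matrix (Fin (2 * g)) (Fin (2 * g)) ℚ) (L : Submodule ℂ (Mn (2 * g) ℂ))
    (𝔤 : Submodule ℚ (Matrix (Fin (2 * g)) (Fin (2 * g)) ℚ)) (ℰ : Set (Matrix (Fin (2 * g)) (Fin (2 * g)) ℚ)) :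
    Submodule ℚ (Module.End ℚ A.H1) where
  carrier := {X | bt R X ∈ hC H L 𝔤 ℰ}
  zero_mem' := by
    show bt R 0 ∈ hC H L 𝔤 ℰ
    rw [bt_zero]
    exact Submodule.zero_mem _
  add_mem' := by
    intro a b ha hb
    show bt R (a + b) ∈ hC H L 𝔤 ℰ
    rw [bt_add]
    exact Submodule.add_mem _ ha hb
  smul_mem' := by
    intro c a ha
    show bt R (c • a) ∈ hC H L 𝔤 ℰ
    rw [bt_smul]
    exact Submodule.smul_mem _ _ ha

theorem hQ_br (h : Lv A H P R L 𝔤 ℰ) : ∀ X ∈ hQ A H R L 𝔤 ℰ, ∀ Y ∈ hQ A H R L 𝔤 ℰ, X * Y - Y * X ∈ hQ A H R L 𝔤 ℰ := by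
  intro X hX Y hY
  show bt R (X * Y - Y * X) ∈ hC H L 𝔤 ℰ
  rw [bt_sub, bt_mul h.R_unit, bt_mul h.R_unit]
  exact hC_br h _ hY _ hX

theorem hQ_skew (h : Lv A H P R L 𝔤 ℰ) {X : Module.End ℚ A.H1} (hX : X ∈ hQ A H R L 𝔤 ℰ) : IsSkew A.om X :=
  (skew_bt h.det h.pres X).2 hX.1

theorem hQ_semi (h : Lv A H P R L 𝔤 ℰ) : Semi (hQ A H R L 𝔤 ℰ) := by
  intro U hU
  have h1 : IsDeRhamBettiSubspace QBar A.dR U := by
    rw [← A.coe_basis]
    exact sub_of_stable A.basis (τ := tau) U fun D lam u hu => hU _ (h.X0_hC D lam) u hu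
  refine ⟨_, fun X hX u hu => ?_, A.isCompl_of_sub h1⟩
  intro v hv
  have h2 := hQ_skew h hX v u
  have h3 : A.om (X v) u = 0 := hu _ (hU X hX v hv)
  rw [h3, zero_add] at h2
  exact h2

/-- elements which commute with the rational Lie algebra are endomorphisms -/
theorem end_of_comm (h : Lv A H P R L 𝔤 ℰ) {X : Module.End ℚ A.H1} (hX : ∀ Y ∈ hQ A H R L 𝔤 ℰ, Y * X = X * Y) :
    ∃ M : (Fin g → ℂ) →ₗ[ℂ] (Fin g → ℂ), ∀ w, M (A.per w) = A.per (X w) :=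
  A.hodge_end (A.end_of_central (𝔥 := hQ A H R L 𝔤 ℰ) (fun D lam => h.X0_hC D lam) hX)

theorem hQ_trace (h : Lv A H P R L 𝔤 ℰ) {X : Module.End ℚ A.H1} (hX : X ∈ hQ A H R L 𝔤 ℰ)
    (htr : ∀ Y ∈ hQ A H R L 𝔤 ℰ, LinearMap.trace ℚ A.H1 (X * Y) = 0) : X = 0 := by
  have h1 := central_of_trace _ (hQ_semi h) (hQ_br h) hX htr
  obtain ⟨M, hM⟩ := end_of_comm h h1
  exact A.trace_sq hM (hQ_skew h hX) (htr X hX)

/-! ### the trace form of the projection -/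

/-- rational elements of `hC` as endomorphisms -/
theorem bt_lift (h : Lv A H P R L 𝔤 ℰ) {w : Matrix (Fin (2 * g)) (Fin (2 * g)) ℚ} (hw : cm w ∈ hC H L 𝔤 ℰ) :
    ∃ X ∈ hQ A H R L 𝔤 ℰ, bt R X = cm w := by
  obtain ⟨X, hX⟩ := bt_surj h.R_unit w
  refine ⟨X, ?_, hX⟩
  show bt R X ∈ hC H L 𝔤 ℰ
  rw [hX]
  exact hw

theorem bt_rat (R : Matrix (Fin (2 * g)) (Fin (2 * g)) ℚ) (X : Module.End ℚ (Fin (2 * g) → ℚ)) : ∃ w, bt R X = cm w :=
  ⟨_, rfl⟩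

/-- the trace form in terms of matrices -/
theorem hM_trace (h : Lv A H P R L 𝔤 ℰ) {w : Matrix (Fin (2 * g)) (Fin (2 * g)) ℚ} (hw : cm w ∈ hC H L 𝔤 ℰ)
    (htr : ∀ u, cm u ∈ hC H L 𝔤 ℰ → Matrix.trace (w * u) = 0) : w = 0 := by
  obtain ⟨X, hX, hXw⟩ := bt_lift h hw
  have h1 : X = 0 := by
    refine hQ_trace h hX fun Y hY => ?_
    obtain ⟨u, hu⟩ := bt_rat R Y
    have h2 : cm u ∈ hC H L 𝔤 ℰ := by
      rw [← hu]
      exact hY
    have h3 := htr u h2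
    rw [LinearMap.trace_mul_comm]
    have h4 : ((LinearMap.trace ℚ A.H1 (Y * X) : ℚ) : ℂ) = 0 := by
      rw [← bt_trace h.R_unit, bt_mul h.R_unit, hXw, hu, ← cm_mul, cm_trace, h3, Rat.cast_zero]
    exact_mod_cast h4
  rw [h1, bt_zero] at hXw
  apply cm_inj
  rw [cm_zero]
  exact hXw.symm

/-- rational matrices which commute with `hC` are endomorphisms, and the trace form is negative definite on the skew ones -/
theorem comm_neg (h : Lv A H P R L 𝔤 ℰ) {x : Matrix (Fin (2 * g)) (Fin (2 * g)) ℚ} (hx : cm x ∈ spS (cm H⁻¹))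
    (hc : ∀ u, cm u ∈ hC H L 𝔤 ℰ → x * u = u * x) : Matrix.trace (x * x) ≤ 0 ∧ (Matrix.trace (x * x) = 0 → x = 0) := by
  obtain ⟨X, hX⟩ := bt_surj h.R_unit x
  have h1 : ∀ Y ∈ hQ A H R L 𝔤 ℰ, Y * X = X * Y := by
    intro Y hY
    obtain ⟨u, hu⟩ := bt_rat R Y
    have h2 : cm u ∈ hC H L 𝔤 ℰ := by
      rw [← hu]
      exact hY
    have h3 : bt R (Y * X - X * Y) = 0 := by
      rw [bt_sub, bt_mul h.R_unit, bt_mul h.R_unit, hX, hu, ← cm_mul, ← cm_mul, hc u h2, sub_self]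
    exact sub_eq_zero.1 (bt_inj h.R_unit h3)
  obtain ⟨M, hM⟩ := end_of_comm h h1
  have hs : IsSkew A.om X := (skew_bt h.det h.pres X).2 (by rw [hX]; exact hx)
  have h2 : LinearMap.trace ℚ A.H1 (X * X) = Matrix.trace (x * x) := by
    have h4 : ((LinearMap.trace ℚ A.H1 (X * X) : ℚ) : ℂ) = ((Matrix.trace (x * x) : ℚ) : ℂ) := by
      rw [← bt_trace h.R_unit, bt_mul h.R_unit, hX, ← cm_mul, cm_trace]
    exact_mod_cast h4
  refine ⟨?_, fun h0 => ?_⟩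
  · rw [← h2]
    exact trace_neg A hM hs
  · rw [← h2] at h0
    have h3 := A.trace_sq hM hs h0
    rw [h3, bt_zero] at hX
    apply cm_inj
    rw [cm_zero]
    exact hX.symm

end level

end Pool.Agent.H936.R
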