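import Pool.Agent.H936.R.Lev

/-!
# The projection of the Lie algebra of a subtorsor to the Lie algebra of the monodromy group
-/

set_option autoImplicit false
set_option linter.unusedSectionVars false
set_option linter.unusedVariables false

open Matrix Module

namespace Pool.Agent.H936.R

open Pool.Agent.Helper880_LF (spS mem_spS comm_mem)
open Pool.Agent.Y102 (AbVar QBar tau)
open Pool.Agent.Y119.HY (cm cm_apply cm_mul cm_one cm_transpose cm_add cm_zero cm_neg)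
open Pool.Agent.H936.SL

theorem pr_lm {n : ℕ} {𝔤 : Submodule ℚ (Matrix (Fin n) (Fin n) ℚ)} (hTg : TN (cx 𝔤)) {π : Mn n ℂ →ₗ[ℂ] Mn n ℂ}
    (hπ : IsPr (cx 𝔤) π) (lam : ℂ →ₗ[ℚ] ℚ) (Y : Mn n ℂ) : cm (lm lam (π Y)) = π (cm (lm lam Y)) := by
  refine hTg.eq (cx_cm_lm (hπ.mem Y) lam) (hπ.mem _) fun Z hZ => ?_
  let W : Submodule ℂ (Mn n ℂ) :=
    { carrier := {Z | Matrix.trace (cm (lm lam (π Y)) * Z) = Matrix.trace (π (cm (lm lam Y)) * Z)}
      zero_mem' := by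
        show Matrix.trace (_ * 0) = Matrix.trace (_ * 0)
        rw [Matrix.mul_zero, Matrix.mul_zero]
      add_mem' := by
        intro a b ha hb
        show Matrix.trace (_ * (a + b)) = Matrix.trace (_ * (a + b))
        rw [Matrix.mul_add, Matrix.mul_add, Matrix.trace_add, Matrix.trace_add]
        exact congrArg₂ (· + ·) ha hb
      smul_mem' := by
        intro c a ha
        show Matrix.trace (_ * (c • a)) = Matrix.trace (_ * (c • a))
        rw [Matrix.mul_smul, Matrix.mul_smul, Matrix.trace_smul, Matrix.trace_smul]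
        exact congrArg (fun t => c • t) ha }
  have h1 : cx 𝔤 ≤ W := by
    refine cx_ind fun X hX => ?_
    show Matrix.trace (cm (lm lam (π Y)) * cm X) = Matrix.trace (π (cm (lm lam Y)) * cm X)
    rw [hπ.tr _ _ (cm_mem hX), ← cm_mul, ← cm_mul, cm_trace, cm_trace, ← lm_mul_cm, ← lm_mul_cm, lm_trace, lm_trace,
      hπ.tr _ _ (cm_mem hX)]
  exact h1 hZ

section level
variable {g : ℕ} {A : AbVar g} {H : Matrix (Fin (2 * g)) (Fin (2 * g)) ℚ} {P : Matrix (Fin (2 * g)) (Fin (2 * g)) ℂ}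
    {R : Matrix (Fin (2 * g)) (Fin (2 * g)) ℚ} {L : Submodule ℂ (Mn (2 * g) ℂ)}
    {𝔤 : Submodule ℚ (Matrix (Fin (2 * g)) (Fin (2 * g)) ℚ)} {ℰ : Set (Matrix (Fin (2 * g)) (Fin (2 * g)) ℚ)}
    {π : Mn (2 * g) ℂ →ₗ[ℂ] Mn (2 * g) ℂ}

/-- the projection of `hC` -/
def lC (H : Matrix (Fin (2 * g)) (Fin (2 * g)) ℚ) (L : Submodule ℂ (Mn (2 * g) ℂ))
    (𝔤 : Submodule ℚ (Matrix (Fin (2 * g)) (Fin (2 * g)) ℚ)) (ℰ : Set (Matrix (Fin (2 * g)) (Fin (2 * g)) ℚ))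
    (π : Mn (2 * g) ℂ →ₗ[ℂ] Mn (2 * g) ℂ) : Submodule ℂ (Mn (2 * g) ℂ) := (hC H L 𝔤 ℰ).map π

theorem lC_le (hπ : IsPr (cx 𝔤) π) : lC H L 𝔤 ℰ π ≤ cx 𝔤 := by
  rintro _ ⟨w, -, rfl⟩
  exact hπ.mem w

/-- the decomposition of the rational elements -/
theorem split (h : Lv A H P R L 𝔤 ℰ) (hπ : IsPr (cx 𝔤) π) {w : Matrix (Fin (2 * g)) (Fin (2 * g)) ℚ}
    (hw : cm w ∈ hC H L 𝔤 ℰ) : ∃ x ∈ 𝔤, ∃ z ∈ ℰ, w = x + z ∧ π (cm w) = cm x ∧ ∀ y ∈ 𝔤, z * y = y * z := by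
  have hTg := TN_cx h.good.tn
  obtain ⟨lam, hlam⟩ := exists_lam1
  set x := lm lam (π (cm w)) with hx
  have h1 : π (cm w) = cm x := by
    rw [hx, pr_lm hTg hπ, lm_cm hlam]
  have h2 : x ∈ 𝔤 := cx_lm (hπ.mem _) lam
  have h3 : ∀ y ∈ 𝔤, (w - x) * y = y * (w - x) := by
    intro y hy
    have h4 := sub_comm hTg hπ (cx_br h.good.br) hw.2.1 (cm y) (cm_mem hy)
    rw [h1, ← cm_sub, ← cm_mul, ← cm_mul, ← cm_sub] at h4
    have h5 := cm_inj (h4.trans cm_zero.symm)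
    exact sub_eq_zero.1 h5
  have h4 : w - x ∈ ℰ := by
    refine h.good.com _ h3 fun e he => ?_
    have h5 := hw.2.2.1 e he
    rw [← cm_mul, ← cm_mul] at h5
    rw [Matrix.sub_mul, Matrix.mul_sub, cm_inj h5, h.good.ce e he x h2]
  exact ⟨x, h2, w - x, h4, by abel, h1, h3⟩

/-- the commutators of rational elements -/
theorem split_br (h : Lv A H P R L 𝔤 ℰ) {w u x y z v : Matrix (Fin (2 * g)) (Fin (2 * g)) ℚ}
    (hw : cm w ∈ hC H L 𝔤 ℰ) (hu : cm u ∈ hC H L 𝔤 ℰ) (hx : x ∈ 𝔤) (hy : y ∈ 𝔤) (hz : z ∈ ℰ) (hv : v ∈ ℰ)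
    (hwx : w = x + z) (huy : u = y + v) : w * u - u * w = x * y - y * x := by
  have h1 : z * u = u * z := by
    have h5 := hu.2.2.1 z hz
    rw [← cm_mul, ← cm_mul] at h5
    exact (cm_inj h5).symm
  have h2 : v * x = x * v := h.good.ce v hv x hx
  calc w * u - u * w = x * u - u * x + (z * u - u * z) := by rw [hwx]; noncomm_ring
    _ = x * y - y * x - (v * x - x * v) := by rw [h1, sub_self, add_zero, huy]; noncomm_ring
    _ = _ := by rw [h2, sub_self, sub_zero]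

theorem mem_lC_rat {x w : Matrix (Fin (2 * g)) (Fin (2 * g)) ℚ} (hw : cm w ∈ hC H L 𝔤 ℰ) (h : π (cm w) = cm x) :
    cm x ∈ lC H L 𝔤 ℰ π := ⟨cm w, hw, h⟩

/-- rational elements of the projection -/
theorem lC_rat (h : Lv A H P R L 𝔤 ℰ) (hπ : IsPr (cx 𝔤) π) {Y : Mn (2 * g) ℂ} (hY : Y ∈ lC H L 𝔤 ℰ π)
    (lam : ℂ →ₗ[ℚ] ℚ) : ∃ w, cm w ∈ hC H L 𝔤 ℰ ∧ π (cm w) = cm (lm lam Y) := by
  obtain ⟨w, hw, rfl⟩ := hY
  exact ⟨lm lam w, hC_lm h hw lam, (pr_lm (TN_cx h.good.tn) hπ lam w).symm⟩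

theorem lC_lm (h : Lv A H P R L 𝔤 ℰ) (hπ : IsPr (cx 𝔤) π) {Y : Mn (2 * g) ℂ} (hY : Y ∈ lC H L 𝔤 ℰ π)
    (lam : ℂ →ₗ[ℚ] ℚ) : cm (lm lam Y) ∈ lC H L 𝔤 ℰ π := by
  obtain ⟨w, hw, h1⟩ := lC_rat h hπ hY lam
  exact ⟨_, hw, h1⟩

theorem lC_lift (h : Lv A H P R L 𝔤 ℰ) (hπ : IsPr (cx 𝔤) π) {x : Matrix (Fin (2 * g)) (Fin (2 * g)) ℚ}
    (hx : cm x ∈ lC H L 𝔤 ℰ π) : ∃ w, cm w ∈ hC H L 𝔤 ℰ ∧ π (cm w) = cm x := by
  obtain ⟨lam, hlam⟩ := exists_lam1
  obtain ⟨w, hw, h1⟩ := lC_rat h hπ hx lam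
  rw [lm_cm hlam] at h1
  exact ⟨w, hw, h1⟩

/-- to check that a rational matrix is orthogonal to the projection it is sufficient to check the rational elements -/
theorem lC_orth (h : Lv A H P R L 𝔤 ℰ) (hπ : IsPr (cx 𝔤) π) {a : Matrix (Fin (2 * g)) (Fin (2 * g)) ℚ}
    (ha : ∀ y, cm y ∈ lC H L 𝔤 ℰ π → Matrix.trace (a * y) = 0) : ∀ Y ∈ lC H L 𝔤 ℰ π, Matrix.trace (cm a * Y) = 0 := by
  intro Y hY
  refine Pool.Agent.W516.DR.eq_zero_of_dual (k := ℚ) fun lam => ?_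
  rw [← lm_trace, lm_cm_mul]
  exact ha _ (lC_lm h hπ hY lam)

/-- **the trace form of the projection is nondegenerate** -/
theorem TN_lC (h : Lv A H P R L 𝔤 ℰ) (hπ : IsPr (cx 𝔤) π) : TN (lC H L 𝔤 ℰ π) := by
  intro Y hY htr
  refine lm_ext fun lam => ?_
  obtain ⟨w, hw, h1⟩ := lC_rat h hπ hY lam
  obtain ⟨x, hx, z, hz, hwx, h2, h3⟩ := split h hπ hw
  have hxY : x = lm lam Y := cm_inj (h2.symm.trans h1)
  have hort : ∀ y, cm y ∈ lC H L 𝔤 ℰ π → Matrix.trace (x * y) = 0 := by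
    intro y hy
    rw [hxY, ← lm_mul_cm, lm_trace, htr _ hy, map_zero]
  -- `w` commutes with the rational Lie algebra
  have hcomm : ∀ u, cm u ∈ hC H L 𝔤 ℰ → w * u - u * w = 0 := by
    intro u hu
    obtain ⟨y, hy, v, hv, huy, h2', h3'⟩ := split h hπ hu
    have hwu : cm (w * u - u * w) ∈ hC H L 𝔤 ℰ := by
      rw [cm_sub, cm_mul, cm_mul]
      exact hC_br h _ hw _ hu
    refine hM_trace h hwu fun u' hu' => ?_
    obtain ⟨y', hy', v', hv', huy', h2'', h3''⟩ := split h hπ hu'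
    have e1 : Matrix.trace ((w * u - u * w) * u') = Matrix.trace (w * (u * u' - u' * u)) := tr_br w u u'
    have e2 := split_br h hu hu' hy hy' hv hv' huy huy'
    rw [e1, e2, hwx, Matrix.add_mul, Matrix.trace_add]
    have e3 : Matrix.trace (x * (y * y' - y' * y)) = 0 := by
      refine hort _ ?_
      have e4 : cm (u * u' - u' * u) ∈ hC H L 𝔤 ℰ := by
        rw [cm_sub, cm_mul, cm_mul]
        exact hC_br h _ hu _ hu'
      refine mem_lC_rat e4 ?_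
      rw [cm_sub, cm_mul, cm_mul, proj_br (TN_cx h.good.tn) hπ (cx_br h.good.br) hu.2.1 hu'.2.1, h2', h2'', cm_sub,
        cm_mul, cm_mul]
    have e4 : Matrix.trace (z * (y * y' - y' * y)) = 0 := by
      rw [← tr_br, h3 y hy, sub_self, Matrix.zero_mul, Matrix.trace_zero]
    rw [e3, e4, add_zero]
  have hxc : ∀ u, cm u ∈ hC H L 𝔤 ℰ → x * u = u * x := by
    intro u hu
    have e1 := hcomm u hu
    have e2 : z * u = u * z := by
      have h5 := hu.2.2.1 z hz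
      rw [← cm_mul, ← cm_mul] at h5
      exact (cm_inj h5).symm
    have e3 : x * u - u * x = (w * u - u * w) - (z * u - u * z) := by
      rw [hwx]
      noncomm_ring
    rw [e1, e2, sub_self, sub_zero] at e3
    exact sub_eq_zero.1 e3
  have h5 := (comm_neg h (h.good.sk x hx) hxc).2 (hort x (by rw [← h2]; exact ⟨_, hw, rfl⟩))
  rw [← hxY]
  exact h5

/-- **the last step**: if the projection is an ideal then `L` contains `𝔤` -/
theorem full (h : Lv A H P R L 𝔤 ℰ) (hπ : IsPr (cx 𝔤) π)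
    (hid : ∀ X ∈ cx 𝔤, ∀ Y ∈ lC H L 𝔤 ℰ π, X * Y - Y * X ∈ lC H L 𝔤 ℰ π) : cx 𝔤 ≤ L := by
  have hTl := TN_lC h hπ
  -- the orthogonal ideal
  let I : Submodule ℚ (Matrix (Fin (2 * g)) (Fin (2 * g)) ℚ) :=
    { carrier := {x | x ∈ 𝔤 ∧ ∀ y, cm y ∈ lC H L 𝔤 ℰ π → Matrix.trace (x * y) = 0}
      zero_mem' := ⟨𝔤.zero_mem, fun y _ => by rw [Matrix.zero_mul, Matrix.trace_zero]⟩
      add_mem' := by
        rintro a b ⟨h1, h2⟩ ⟨h3, h4⟩
        exact ⟨𝔤.add_mem h1 h3, fun y hy => by rw [Matrix.add_mul, Matrix.trace_add, h2 y hy, h4 y hy, add_zero]⟩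
      smul_mem' := by
        rintro c a ⟨h1, h2⟩
        exact ⟨𝔤.smul_mem c h1, fun y hy => by rw [Matrix.smul_mul, Matrix.trace_smul, h2 y hy, smul_zero]⟩ }
  have hI : I = ⊥ := by
    by_contra hne
    obtain ⟨x, ⟨hx, hxo⟩, hx0, hxx⟩ := h.good.noc I (fun x hx => hx.1) (by
      rintro x hx y ⟨hy, hyo⟩
      refine ⟨h.good.br x hx y hy, fun z hz => ?_⟩
      have e1 : Matrix.trace ((x * y - y * x) * z) = -Matrix.trace ((y * x - x * y) * z) := by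
        rw [← Matrix.trace_neg, ← Matrix.neg_mul, neg_sub]
      rw [e1, tr_br, hyo _ ?_, neg_zero]
      rw [cm_sub, cm_mul, cm_mul]
      exact hid _ (cm_mem hx) _ hz) hne
    -- `x` commutes with the projection
    have hxl : ∀ y, cm y ∈ lC H L 𝔤 ℰ π → x * y - y * x = 0 := by
      intro y hy
      have e1 : cm (x * y - y * x) ∈ lC H L 𝔤 ℰ π := by
        rw [cm_sub, cm_mul, cm_mul]
        exact hid _ (cm_mem hx) _ hy
      have e2 := hTl _ e1 (lC_orth h hπ fun z hz => by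
        rw [tr_br]
        refine hxo _ ?_
        rw [cm_sub, cm_mul, cm_mul]
        exact hid _ (lC_le hπ hy) _ hz)
      exact cm_inj (e2.trans cm_zero.symm)
    have hxc : ∀ u, cm u ∈ hC H L 𝔤 ℰ → x * u = u * x := by
      intro u hu
      obtain ⟨y, hy, v, hv, huy, h2, h3⟩ := split h hπ hu
      have e1 := hxl y (mem_lC_rat hu h2)
      rw [huy, Matrix.mul_add, Matrix.add_mul, h.good.ce v hv x hx, sub_eq_zero.1 e1]
    obtain ⟨e1, e2⟩ := comm_neg h (h.good.sk x hx) hxc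
    exact hx0 (e2 (le_antisymm e1 hxx))
  -- the projection is `𝔤`
  obtain ⟨Pl, hPl⟩ := exists_proj hTl
  have hfull : ∀ x ∈ 𝔤, cm x ∈ lC H L 𝔤 ℰ π := by
    intro x hx
    have e1 : cm x - Pl (cm x) = 0 := by
      refine lm_ext fun lam => ?_
      have e2 : lm lam (cm x - Pl (cm x)) ∈ I := by
        refine ⟨cx_lm (Submodule.sub_mem _ (cm_mem hx) (lC_le hπ (hPl.mem _))) lam, fun y hy => ?_⟩
        rw [← lm_mul_cm, lm_trace, Matrix.sub_mul, Matrix.trace_sub, hPl.tr _ _ hy, sub_self, map_zero]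
      rw [hI] at e2
      exact e2
    rw [sub_eq_zero.1 e1]
    exact hPl.mem _
  refine cx_ind fun x hx => ?_
  have h1 := h.good.perf x hx
  have h2 : ∀ y ∈ Submodule.span ℚ {z | ∃ a ∈ 𝔤, ∃ b ∈ 𝔤, z = a * b - b * a}, cm y ∈ L := by
    intro y hy
    refine Submodule.span_induction (p := fun y _ => cm y ∈ L) ?_ ?_ ?_ ?_ hy
    · rintro _ ⟨a, ha, b, hb, rfl⟩
      obtain ⟨w, hw, hwa⟩ := lC_lift h hπ (hfull a ha)
      obtain ⟨u, hu, hub⟩ := lC_lift h hπ (hfull b hb)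
      obtain ⟨x', hx', z, hz, hwx, e1, -⟩ := split h hπ hw
      obtain ⟨y', hy', v, hv, huy, e2, -⟩ := split h hπ hu
      have e3 : x' = a := cm_inj (e1.symm.trans hwa)
      have e4 : y' = b := cm_inj (e2.symm.trans hub)
      have e5 := split_br h hw hu hx' hy' hz hv hwx huy
      rw [e3, e4] at e5
      rw [← e5, cm_sub, cm_mul, cm_mul]
      obtain ⟨-, -, -, c, hc⟩ := hw
      obtain ⟨-, -, -, c', hc'⟩ := hu
      rw [← br_scalar' (cm w) (cm u) c c']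
      exact h.br _ hc _ hc'
    · rw [cm_zero]
      exact L.zero_mem
    · intro a b _ _ ha hb
      rw [cm_add]
      exact L.add_mem ha hb
    · intro c a _ ha
      rw [cm_smul]
      exact L.smul_mem _ ha
  exact h2 x h1

end level

end Pool.Agent.H936.R
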