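import Pool.Agent.H936.R.Ult2
import Pool.Agent.H936.G.Spc3

/-!
# The sequences of points
-/

set_option autoImplicit false
set_option linter.unusedSectionVars false
set_option linter.unusedVariables false
set_option maxHeartbeats 400000

open Matrix Module Filter PowerSeries

namespace Pool.Agent.H936.R

open Pool.Agent.Y113 (ev Cv GSys ps)
open Pool.Agent.Y120.GH (QU0)
open Pool.Agent.Y118.HV (Hv hh)
open Pool.Agent.Helper880_LF (spS mem_spS comm_mem)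
open Pool.Agent.Helper880_LF.NB (gm dm gm_mul gm_unit gm_surj)
open Pool.Agent.Helper880_R3 (Ix ib Tot GU mem_GU lieB Inf rel_all hder_seq windows)
open Pool.Agent.Y118.UL (mk U ev_ge)
open Pool.Agent.Y119.HY (cm cm_pow cm_apply cm_zero)
open Pool.Agent.Y119.HY renaming E → Ex
open Pool.Agent.H936.SL
open Pool.Agent.H936.G (DD ld ld_apply cjg cjg_apply)

variable {n N : ℕ}

/-- **the derivations of the sequences of points** -/
theorem pts (hn : 0 < n) {Z : Matrix (Fin n) (Fin n) ℚ⟦X⟧} {T : Polynomial ℤ}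
    {A : Fin (n * n) → Fin (n * n) → Polynomial ℤ}
    (hT : T ≠ 0) (hode : ∀ i, ps T * d⁄dX ℚ (hh Z i) = ∑ j, ps (A i j) * hh Z j)
    {q' : ℕ} {C' : ℝ} (hG' : GSys q' C' T (hh Z)) (hqu : QU0 T A) :
    ∃ G : ℕ, 1 ≤ G ∧ ∀ (C : Mn n ℂ) (𝔤 : Submodule ℂ (Mn n ℂ)), IsUnit C.det → (∀ X ∈ 𝔤, Inf Z (C⁻¹ * X * C)) →
      ∀ (N : ℕ), 0 < N → ∃ E0 : ℕ, ∀ t : ℕ → Fin N → ℕ, (∀ k, Function.Injective (t k)) → (∀ k i j, t k i ≡ t k j [MOD G]) →
      (∀ k i j, (t k i - t k j + 2) ^ (E0 + k) ≤ t k j) → (∀ k j, (Hv Z (t k j)).det ≠ 0) →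
      ∀ i, ∀ Y ∈ GU 𝔤, ∃ δ : DD, cjg (cu C) (ld (fun k => Hv Z (t k i)) δ) = Y ∧
        ∀ j, j ≠ i → cjg (cu C) (ld (fun k => Hv Z (t k j)) δ) = 0 := by
  classical
  obtain ⟨G0, hrel⟩ := rel_all hT hode hG' hqu
  refine ⟨G0 + 1, by omega, fun C 𝔤 hC hI N hN => ?_⟩
  have hCC : C * C⁻¹ = 1 := Matrix.mul_nonsing_inv _ hC
  have hCC' : C⁻¹ * C = 1 := Matrix.nonsing_inv_mul _ hC
  let 𝔤' : Submodule ℂ (Mn n ℂ) :=
    { carrier := {X | C * X * C⁻¹ ∈ 𝔤}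
      zero_mem' := by
        show C * 0 * C⁻¹ ∈ 𝔤
        rw [Matrix.mul_zero, Matrix.zero_mul]
        exact 𝔤.zero_mem
      add_mem' := by
        intro a b ha hb
        show C * (a + b) * C⁻¹ ∈ 𝔤
        rw [Matrix.mul_add, Matrix.add_mul]
        exact 𝔤.add_mem ha hb
      smul_mem' := by
        intro c a ha
        show C * (c • a) * C⁻¹ ∈ 𝔤
        rw [Matrix.mul_smul, Matrix.smul_mul]
        exact 𝔤.smul_mem c ha }
  have hI' : ∀ X ∈ 𝔤', Inf Z X := by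
    intro X hX
    have h1 : X = C⁻¹ * (C * X * C⁻¹) * C := by
      calc X = (C⁻¹ * C) * X * (C⁻¹ * C) := by rw [hCC', Matrix.one_mul, Matrix.mul_one]
        _ = _ := by simp only [Matrix.mul_assoc]
    rw [h1]
    exact hI _ hX
  obtain ⟨E0, hE0⟩ := hrel (G0 + 1) (by omega) N 0
  refine ⟨2 * E0, fun t hinj hmod hw hdet => ?_⟩
  have hwin : ∀ k, ∃ (H' s : ℕ) (u : Fin N → ℕ), (H' + 2) ^ (E0 + k / 2) ≤ s ∧ Function.Injective u ∧
      (∀ j, 1 ≤ u j ∧ u j ≤ H') ∧ ∀ j, s - (G0 + 1) * u j = t k j := by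
    intro k
    refine windows (by omega) hN (hinj k) (hmod k) fun i j => ?_
    refine le_trans (Nat.pow_le_pow_right (by omega) ?_) (hw k i j)
    have := Nat.div_mul_le_self k 2
    omega
  choose H' s u hH1 hH2 hH3 hH4 using hwin
  set μ : ℕ → Fin N → ℂ := fun k j => ((Real.log (1 - (((G0 + 1) * u k j : ℕ) : ℝ) / s k) : ℝ) : ℂ) with hμ
  have hge : ∀ E : ℕ, ∀ᶠ k in (hyperfilter ℕ : Filter ℕ), E ≤ E0 + k / 2 := by
    intro E
    filter_upwards [ev_ge (2 * E)] with k hk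
    omega
  have hder : ∀ i, ∀ A ∈ GU 𝔤', ∃ δ : DD,
      dm δ (gm fun k => Ex (cm (0 : Matrix (Fin n) (Fin n) ℚ)) (-(μ k i)) * Hv Z (s k - (G0 + 1) * u k i)) =
        A * (gm fun k => Ex (cm (0 : Matrix (Fin n) (Fin n) ℚ)) (-(μ k i)) * Hv Z (s k - (G0 + 1) * u k i)) ∧
      ∀ j, j ≠ i → dm δ (gm fun k => Ex (cm (0 : Matrix (Fin n) (Fin n) ℚ)) (-(μ k j)) *
        Hv Z (s k - (G0 + 1) * u k j)) = 0 := by
    intro i A hA
    refine hder_seq (M := 0) (zero_pow (by omega)) (fun B hB => ?_) (z := fun k j => Hv Z (s k - (G0 + 1) * u k j))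
      (μ := μ) (fun d => ?_) i hA
    · rw [cm_zero, Matrix.zero_mul, Matrix.mul_zero, sub_zero]
      exact Submodule.zero_mem _
    obtain ⟨E, hE⟩ := hrel (G0 + 1) (by omega) N d
    filter_upwards [hge E] with k hk Y hY P hPd hP s'
    exact ((hE (H' k) (s k) ((Nat.pow_le_pow_right (by omega) hk).trans (hH1 k))).2 (u k) (hH2 k) (hH3 k)).2 Y
      (fun j => hI' _ (hY j)) P hPd hP s'
  have hM : ∀ x : ℂ, Ex (cm (0 : Matrix (Fin n) (Fin n) ℚ)) x = 1 := fun x => Ex_M0 hn x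
  simp only [hM, Matrix.one_mul, hH4] at hder
  intro i Y hY
  obtain ⟨F, rfl, hF⟩ := hY
  obtain ⟨δ, h1, h2⟩ := hder i (gm fun k => C⁻¹ * F k * C) ⟨_, rfl, fun k => by
    show C * (C⁻¹ * F k * C) * C⁻¹ ∈ 𝔤
    have h1 : C * (C⁻¹ * F k * C) * C⁻¹ = F k := by
      calc C * (C⁻¹ * F k * C) * C⁻¹ = (C * C⁻¹) * F k * (C * C⁻¹) := by simp only [Matrix.mul_assoc]
        _ = _ := by rw [hCC, Matrix.one_mul, Matrix.mul_one]
    rw [h1]
    exact hF k⟩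
  have hzu : ∀ j, IsUnit (gm fun k => Hv Z (t k j)).det := fun j => gm_unit fun k => hdet k j
  refine ⟨δ, ?_, fun j hj => ?_⟩
  · rw [cjg_apply, ld_apply, h1, Matrix.mul_assoc _ (gm fun k => Hv Z (t k i)), Matrix.mul_nonsing_inv _ (hzu i),
      Matrix.mul_one, cu_inv hC, ← gm_mul, ← gm_mul]
    congr 1
    funext k
    calc C * (C⁻¹ * F k * C) * C⁻¹ = (C * C⁻¹) * F k * (C * C⁻¹) := by simp only [Matrix.mul_assoc]
      _ = _ := by rw [hCC, Matrix.one_mul, Matrix.mul_one]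
  · rw [cjg_apply, ld_apply, h2 j hj, Matrix.zero_mul, Matrix.mul_zero, Matrix.zero_mul]

end Pool.Agent.H936.R
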