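import Mathlib

/-!
# A Lie algebra is not the sum of the stabiliser of a symmetric form and a torus
-/

set_option autoImplicit false
set_option linter.unusedSectionVars false
set_option linter.unusedVariables false

open TensorProduct

namespace Pool.Agent.H936.R

section
variable {F 𝔤 : Type*} [Field F] [CharZero F] [LieRing 𝔤] [LieAlgebra F 𝔤]

/-- the symmetric tensors `y z` -/
noncomputable def sym (y z : 𝔤) : 𝔤 ⊗[F] 𝔤 := y ⊗ₜ[F] z + z ⊗ₜ[F] y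

theorem sym_comm (y z : 𝔤) : sym (F := F) y z = sym z y := add_comm _ _

theorem sym_add_left (y y' z : 𝔤) : sym (F := F) (y + y') z = sym y z + sym y' z := by
  unfold sym
  rw [add_tmul, tmul_add]
  abel

theorem sym_smul_left (c : F) (y z : 𝔤) : sym (F := F) (c • y) z = c • sym y z := by
  unfold sym
  rw [← smul_tmul', tmul_smul, smul_add]

theorem sym_add_right (y z z' : 𝔤) : sym (F := F) y (z + z') = sym y z + sym y z' := by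
  rw [sym_comm, sym_add_left, sym_comm z, sym_comm z']

theorem sym_smul_right (c : F) (y z : 𝔤) : sym (F := F) y (c • z) = c • sym y z := by
  rw [sym_comm, sym_smul_left, sym_comm z]

theorem sym_zero_left (z : 𝔤) : sym (F := F) 0 z = 0 := by
  unfold sym
  rw [zero_tmul, tmul_zero, add_zero]

theorem lie_sym (x y z : 𝔤) : ⁅x, sym (F := F) y z⁆ = sym ⁅x, y⁆ z + sym y ⁅x, z⁆ := by
  unfold sym
  rw [lie_add, TensorProduct.LieModule.lie_tmul_right, TensorProduct.LieModule.lie_tmul_right]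
  abel

/-- the tensors generated by the products of elements of `𝔥` under `𝔫` -/
inductive Gen (𝔥 𝔫 : Submodule F 𝔤) : 𝔤 ⊗[F] 𝔤 → Prop
  | base (h h' : 𝔤) (hh : h ∈ 𝔥) (hh' : h' ∈ 𝔥) : Gen 𝔥 𝔫 (sym h h')
  | add (w w' : 𝔤 ⊗[F] 𝔤) (hw : Gen 𝔥 𝔫 w) (hw' : Gen 𝔥 𝔫 w') : Gen 𝔥 𝔫 (w + w')
  | smul (c : F) (w : 𝔤 ⊗[F] 𝔤) (hw : Gen 𝔥 𝔫 w) : Gen 𝔥 𝔫 (c • w)
  | act (x : 𝔤) (w : 𝔤 ⊗[F] 𝔤) (hx : x ∈ 𝔫) (hw : Gen 𝔥 𝔫 w) : Gen 𝔥 𝔫 ⁅x, w⁆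

variable {𝔥 𝔫 𝔱 : Submodule F 𝔤} {ℓ : 𝔤 ⊗[F] 𝔤 →ₗ[F] F}

theorem Gen.zero : Gen 𝔥 𝔫 (0 : 𝔤 ⊗[F] 𝔤) := by
  have h := Gen.smul (𝔥 := 𝔥) (𝔫 := 𝔫) (0 : F) _ (Gen.base 0 0 𝔥.zero_mem 𝔥.zero_mem)
  rwa [zero_smul] at h

/-- the generated tensors are stable under `𝔱`, and the functional vanishes on them -/
theorem Gen.torus (hsum : ∀ x : 𝔤, ∃ n ∈ 𝔫, ∃ t ∈ 𝔱, x = n + t) (h𝔥 : ∀ h ∈ 𝔥, ∀ t ∈ 𝔱, ⁅t, h⁆ = (0 : 𝔤))
    (hℓ : ∀ x ∈ 𝔫, ∀ w, ℓ ⁅x, w⁆ = 0) {w : 𝔤 ⊗[F] 𝔤} (hw : Gen 𝔥 𝔫 w) :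
    ∀ t ∈ 𝔱, Gen 𝔥 𝔫 ⁅t, w⁆ ∧ ℓ ⁅t, w⁆ = 0 := by
  induction hw with
  | base h h' hh hh' =>
    intro t ht
    have h1 : ⁅t, sym (F := F) h h'⁆ = 0 := by
      rw [lie_sym, h𝔥 h hh t ht, h𝔥 h' hh' t ht, sym_zero_left, sym_comm, sym_zero_left, add_zero]
    rw [h1, map_zero]
    exact ⟨Gen.zero, rfl⟩
  | add w w' _ _ ih ih' =>
    intro t ht
    rw [lie_add, map_add, (ih t ht).2, (ih' t ht).2, add_zero]
    exact ⟨Gen.add _ _ (ih t ht).1 (ih' t ht).1, rfl⟩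
  | smul c w _ ih =>
    intro t ht
    rw [lie_smul, map_smul, (ih t ht).2, smul_zero]
    exact ⟨Gen.smul _ _ (ih t ht).1, rfl⟩
  | act x w hx hw ih =>
    intro t ht
    obtain ⟨n, hn, s, hs, hns⟩ := hsum ⁅t, x⁆
    have h1 : ⁅t, ⁅x, w⁆⁆ = ⁅n, w⁆ + ⁅s, w⁆ + ⁅x, ⁅t, w⁆⁆ := by
      rw [leibniz_lie, hns, add_lie]
    rw [h1, map_add, map_add, hℓ n hn, (ih s hs).2, hℓ x hx, add_zero, add_zero]
    exact ⟨Gen.add _ _ (Gen.add _ _ (Gen.act n w hn hw) (ih s hs).1) (Gen.act x _ hx (ih t ht).1), rfl⟩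

/-- **Theorem T**: let `β` be a symmetric bilinear form on a Lie algebra, `𝔫` a space of elements which leave `β`
invariant, and `𝔱` a commutative subspace, such that the Lie algebra is spanned by the joint eigenvectors of `𝔱`. If the
Lie algebra is `𝔫 + 𝔱`, then `β` is invariant. -/
theorem thmT (β : LinearMap.BilinForm F 𝔤) (hβ : ∀ y z, β y z = β z y)
    (h𝔫 : ∀ x ∈ 𝔫, ∀ y z : 𝔤, β ⁅x, y⁆ z + β y ⁅x, z⁆ = 0)
    (h𝔱 : ∀ s ∈ 𝔱, ∀ t ∈ 𝔱, ⁅s, t⁆ = (0 : 𝔤))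
    (hspan : Submodule.span F {e : 𝔤 | ∀ t ∈ 𝔱, ∃ a : F, ⁅t, e⁆ = a • e} = ⊤)
    (hsum : ∀ x : 𝔤, ∃ n ∈ 𝔫, ∃ t ∈ 𝔱, x = n + t) :
    ∀ x y z : 𝔤, β ⁅x, y⁆ z + β y ⁅x, z⁆ = 0 := by
  classical
  set ℓ : 𝔤 ⊗[F] 𝔤 →ₗ[F] F := TensorProduct.lift β with hℓdef
  have hℓt : ∀ y z, ℓ (y ⊗ₜ z) = β y z := fun y z => TensorProduct.lift.tmul _ _
  have hℓsym : ∀ y z, ℓ (sym y z) = 2 * β y z := by
    intro y z
    unfold sym
    rw [map_add, hℓt, hℓt, hβ z y]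
    ring
  have hℓ : ∀ x ∈ 𝔫, ∀ w, ℓ ⁅x, w⁆ = 0 := by
    intro x hx w
    induction w using TensorProduct.induction_on with
    | zero => rw [lie_zero, map_zero]
    | tmul y z =>
      rw [TensorProduct.LieModule.lie_tmul_right, map_add, hℓt, hℓt]
      exact h𝔫 x hx y z
    | add w w' h h' => rw [lie_add, map_add, h, h', add_zero]
  -- the centraliser of the torus
  let 𝔥 : Submodule F 𝔤 :=
    { carrier := {h | ∀ t ∈ 𝔱, ⁅t, h⁆ = 0}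
      zero_mem' := fun t _ => lie_zero t
      add_mem' := fun {a b} ha hb t ht => by rw [lie_add, ha t ht, hb t ht, add_zero]
      smul_mem' := fun c a ha t ht => by rw [lie_smul, ha t ht, smul_zero] }
  have h𝔥 : ∀ h ∈ 𝔥, ∀ t ∈ 𝔱, ⁅t, h⁆ = 0 := fun h hh => hh
  have h𝔱𝔥 : ∀ t ∈ 𝔱, t ∈ 𝔥 := fun t ht s hs => h𝔱 s hs t ht
  have hT : ∀ w : 𝔤 ⊗[F] 𝔤, Gen 𝔥 𝔫 w → ∀ t ∈ 𝔱, Gen 𝔥 𝔫 ⁅t, w⁆ ∧ ℓ ⁅t, w⁆ = 0 := fun w hw => hw.torus hsum h𝔥 hℓ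
  have hact : ∀ (x : 𝔤) (w : 𝔤 ⊗[F] 𝔤), Gen 𝔥 𝔫 w → Gen 𝔥 𝔫 ⁅x, w⁆ ∧ ℓ ⁅x, w⁆ = 0 := by
    intro x w hw
    obtain ⟨n, hn, t, ht, rfl⟩ := hsum x
    rw [add_lie, map_add, hℓ n hn, (hT w hw t ht).2, add_zero]
    exact ⟨Gen.add _ _ (Gen.act n w hn hw) (hT w hw t ht).1, rfl⟩
  have hsub : ∀ w w' : 𝔤 ⊗[F] 𝔤, Gen 𝔥 𝔫 w → Gen 𝔥 𝔫 (w + w') → Gen 𝔥 𝔫 w' := by
    intro w w' h h'
    have h1 := Gen.add _ _ h' (Gen.smul (-1 : F) _ h)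
    have h2 : w + w' + (-1 : F) • w = w' := by
      rw [neg_one_smul]
      abel
    rwa [h2] at h1
  have hdiv : ∀ (c : F) (w : 𝔤 ⊗[F] 𝔤), c ≠ 0 → Gen 𝔥 𝔫 (c • w) → Gen 𝔥 𝔫 w := by
    intro c w hc h
    have h1 := Gen.smul c⁻¹ _ h
    rwa [smul_smul, inv_mul_cancel₀ hc, one_smul] at h1
  -- step 1
  have key : ∀ {e t : 𝔤} {a : F}, t ∈ 𝔱 → ⁅t, e⁆ = a • e → a ≠ 0 → ∀ y : 𝔤, Gen 𝔥 𝔫 (sym ⁅e, y⁆ t) → Gen 𝔥 𝔫 (sym y t) →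
      Gen 𝔥 𝔫 (sym y e) := by
    intro e t a ht hea ha y h1 h2
    have h3 := (hact e _ h2).1
    rw [lie_sym] at h3
    have h4 := hsub _ _ h1 h3
    have h5 : ⁅e, t⁆ = (-a) • e := by rw [← lie_skew, hea, neg_smul]
    rw [h5, sym_smul_right] at h4
    exact hdiv _ _ (neg_ne_zero.2 ha) h4
  have step0 : ∀ {e t : 𝔤} {a : F}, t ∈ 𝔱 → ⁅t, e⁆ = a • e → a ≠ 0 → Gen 𝔥 𝔫 (sym e t) := by
    intro e t a ht hea ha
    have h1 := (hact e _ (Gen.base t t (h𝔱𝔥 t ht) (h𝔱𝔥 t ht))).1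
    have h5 : ⁅e, t⁆ = (-a) • e := by rw [← lie_skew, hea, neg_smul]
    rw [lie_sym, h5, sym_smul_right, sym_smul_left, sym_comm t e, ← add_smul] at h1
    refine hdiv _ _ ?_ h1
    have h6 : -a + -a = -(2 * a) := by ring
    rw [h6]
    exact neg_ne_zero.2 (mul_ne_zero two_ne_zero ha)
  have hJ : ∀ {e e' : 𝔤}, (∀ t ∈ 𝔱, ∃ a : F, ⁅t, e⁆ = a • e) → (∀ t ∈ 𝔱, ∃ a : F, ⁅t, e'⁆ = a • e') →
      ∀ t ∈ 𝔱, ∃ a : F, ⁅t, ⁅e, e'⁆⁆ = a • ⁅e, e'⁆ := by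
    intro e e' he he' t ht
    obtain ⟨a, ha⟩ := he t ht
    obtain ⟨b, hb⟩ := he' t ht
    exact ⟨a + b, by rw [leibniz_lie, ha, hb, smul_lie, lie_smul, add_smul]⟩
  -- step 1: a product with an element of `𝔥`
  have step1 : ∀ {e : 𝔤}, (∀ t ∈ 𝔱, ∃ a : F, ⁅t, e⁆ = a • e) → ∀ h ∈ 𝔥, Gen 𝔥 𝔫 (sym h e) := by
    intro e he h hh
    by_cases heh : e ∈ 𝔥
    · exact Gen.base h e hh heh
    · have h1 : ∃ t ∈ 𝔱, ⁅t, e⁆ ≠ 0 := by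
        by_contra hcon
        push Not at hcon
        exact heh hcon
      obtain ⟨t, ht, hte⟩ := h1
      obtain ⟨a, ha⟩ := he t ht
      have ha0 : a ≠ 0 := by
        rintro rfl
        exact hte (by rw [ha, zero_smul])
      refine key ht ha ha0 h ?_ (Gen.base h t hh (h𝔱𝔥 t ht))
      refine step0 ht (a := a) ?_ ha0
      rw [leibniz_lie, ha, h𝔥 h hh t ht, lie_zero, add_zero, smul_lie]
  have step2 : ∀ {e e' : 𝔤}, (∀ t ∈ 𝔱, ∃ a : F, ⁅t, e⁆ = a • e) → (∀ t ∈ 𝔱, ∃ a : F, ⁅t, e'⁆ = a • e') →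
      Gen 𝔥 𝔫 (sym e' e) := by
    intro e e' he he'
    by_cases heh : e ∈ 𝔥
    · rw [sym_comm]
      exact step1 he' e heh
    · have h1 : ∃ t ∈ 𝔱, ⁅t, e⁆ ≠ 0 := by
        by_contra hcon
        push Not at hcon
        exact heh hcon
      obtain ⟨t, ht, hte⟩ := h1
      obtain ⟨a, ha⟩ := he t ht
      have ha0 : a ≠ 0 := by
        rintro rfl
        exact hte (by rw [ha, zero_smul])
      refine key ht ha ha0 e' ?_ ?_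
      · rw [sym_comm]
        exact step1 (hJ he he') t (h𝔱𝔥 t ht)
      · rw [sym_comm]
        exact step1 he' t (h𝔱𝔥 t ht)
  have hall : ∀ y z : 𝔤, Gen 𝔥 𝔫 (sym y z) := by
    intro y z
    have hy : y ∈ Submodule.span F {e : 𝔤 | ∀ t ∈ 𝔱, ∃ a : F, ⁅t, e⁆ = a • e} := by
      rw [hspan]
      trivial
    have hz : z ∈ Submodule.span F {e : 𝔤 | ∀ t ∈ 𝔱, ∃ a : F, ⁅t, e⁆ = a • e} := by
      rw [hspan]
      trivial
    induction hy using Submodule.span_induction with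
    | mem y hy =>
      induction hz using Submodule.span_induction with
      | mem z hz => exact step2 hz hy
      | zero =>
        rw [sym_comm, sym_zero_left]
        exact Gen.zero
      | add z z' _ _ h h' =>
        rw [sym_add_right]
        exact Gen.add _ _ h h'
      | smul c z _ h =>
        rw [sym_smul_right]
        exact Gen.smul _ _ h
    | zero =>
      rw [sym_zero_left]
      exact Gen.zero
    | add y y' _ _ h h' =>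
      rw [sym_add_left]
      exact Gen.add _ _ h h'
    | smul c y _ h =>
      rw [sym_smul_left]
      exact Gen.smul _ _ h
  intro x y z
  have h1 := (hact x _ (hall y z)).2
  rw [lie_sym, map_add, hℓsym, hℓsym] at h1
  have h2 : (2 : F) * (β ⁅x, y⁆ z + β y ⁅x, z⁆) = 0 := by linear_combination h1
  exact (mul_eq_zero.1 h2).resolve_left two_ne_zero

end

end Pool.Agent.H936.R
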