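import Pool.Agent.H936.R.Bl
import Pool.Agent.H936.W.Lvl

/-!
# The limit of the projections is an ideal
-/

set_option autoImplicit false
set_option linter.unusedSectionVars false
set_option linter.unusedVariables false

open Matrix Module Filter

namespace Pool.Agent.H936.R

open Pool.Agent.Helper880_LF (spS mem_spS comm_mem)
open Pool.Agent.Helper880_LF.NB (gm gm_mul gm_add gm_sub gm_smul gm_zero gm_one gm_ev gm_eq gm_surj gm_neg gm_unit gm_apply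
  gm_transpose gm_kt kt kt_apply dm dm_mul dm_smul Lst mem_Lst normL)
open Pool.Agent.Helper880_R3 (Ix ib ib_apply ib_inj ib_mul Tot GU mem_GU gm_ib GU_span)
open Pool.Agent.Y118.UL (mk mk_eq mk_eq_zero mk_ne_zero mk_surj ev_ge U)
open Pool.Agent.Y119.HY (cm cm_apply cm_mul cm_one cm_transpose cm_add cm_zero cm_neg)
open Pool.Agent.Y102 (AbVar QBar tau)
open Pool.Agent.H936.SL
open Pool.Agent.H936.G (DD ld ld_apply cjg cjg_apply TN_GU GU_mono cu_GU)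
open Pool.Agent.H936.W (Lw mem_Lw Lw_br flat mem_flat)

variable {n N r₀ g : ℕ}

/-- the matrices which normalise `𝔤`, commute with `ℰ` and are diagonal in the basis `V` -/
def cN (J : Mn n ℂ) (𝔤c : Submodule ℂ (Mn n ℂ)) (ℰ : Set (Matrix (Fin n) (Fin n) ℚ)) (V : Mn n ℂ) :
    Submodule ℂ (Mn n ℂ) where
  carrier := {Y | GS J Y ∧ (∀ x ∈ 𝔤c, Y * x - x * Y ∈ 𝔤c) ∧ (∀ e ∈ ℰ, Y * cm e = cm e * Y) ∧
    ∀ i j, i ≠ j → (V⁻¹ * Y * V) i j = 0}
  zero_mem' := by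
    refine ⟨GS.zero, fun x hx => ?_, fun e he => by rw [Matrix.zero_mul, Matrix.mul_zero], fun i j _ => ?_⟩
    · rw [Matrix.zero_mul, Matrix.mul_zero, sub_zero]
      exact Submodule.zero_mem _
    · rw [Matrix.mul_zero, Matrix.zero_mul, Matrix.zero_apply]
  add_mem' := by
    rintro a b ⟨h1, h2, h3, h4⟩ ⟨h1', h2', h3', h4'⟩
    refine ⟨h1.add h1', fun x hx => ?_, fun e he => ?_, fun i j hij => ?_⟩
    · have h5 : (a + b) * x - x * (a + b) = (a * x - x * a) + (b * x - x * b) := by noncomm_ring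
      rw [h5]
      exact Submodule.add_mem _ (h2 x hx) (h2' x hx)
    · rw [Matrix.add_mul, Matrix.mul_add, h3 e he, h3' e he]
    · rw [Matrix.mul_add, Matrix.add_mul, Matrix.add_apply, h4 i j hij, h4' i j hij, add_zero]
  smul_mem' := by
    rintro s a ⟨h1, h2, h3, h4⟩
    refine ⟨h1.smul s, fun x hx => ?_, fun e he => ?_, fun i j hij => ?_⟩
    · rw [Matrix.smul_mul, Matrix.mul_smul, ← smul_sub]
      exact Submodule.smul_mem _ _ (h2 x hx)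
    · rw [Matrix.smul_mul, Matrix.mul_smul, h3 e he]
    · rw [Matrix.mul_smul, Matrix.smul_mul, Matrix.smul_apply, h4 i j hij, smul_zero]

/-- matrices which are diagonal in the same basis commute -/
theorem diag_comm {F : Type} [Field F] {V Y Y' : Mn n F} (hV : IsUnit V.det) (h : ∀ i j, i ≠ j → (V⁻¹ * Y * V) i j = 0)
    (h' : ∀ i j, i ≠ j → (V⁻¹ * Y' * V) i j = 0) : Y * Y' = Y' * Y := by
  have h0 : ∀ A B : Mn n F, (∀ i j, i ≠ j → A i j = 0) → (∀ i j, i ≠ j → B i j = 0) → A * B = B * A := by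
    intro A B hA hB
    have hA' : A = Matrix.diagonal fun i => A i i := by
      ext i j
      by_cases hij : i = j
      · subst hij
        rw [Matrix.diagonal_apply_eq]
      · rw [Matrix.diagonal_apply_ne _ hij, hA i j hij]
    have hB' : B = Matrix.diagonal fun i => B i i := by
      ext i j
      by_cases hij : i = j
      · subst hij
        rw [Matrix.diagonal_apply_eq]
      · rw [Matrix.diagonal_apply_ne _ hij, hB i j hij]
    rw [hA', hB', Matrix.diagonal_mul_diagonal, Matrix.diagonal_mul_diagonal]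
    congr 1
    funext i
    exact mul_comm _ _
  have h1 := h0 _ _ h h'
  have h2 : ∀ A B : Mn n F, A * B = V * ((V⁻¹ * A * V) * (V⁻¹ * B * V)) * V⁻¹ := by
    intro A B
    have hv := Matrix.mul_nonsing_inv V hV
    calc A * B = (V * V⁻¹) * A * (V * V⁻¹) * B * (V * V⁻¹) := by rw [hv]; simp only [Matrix.one_mul, Matrix.mul_one]
      _ = _ := by simp only [Matrix.mul_assoc]
  rw [h2 Y Y', h1, ← h2]

/-- nondegenerate trace forms in the limit -/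
theorem TN_Lw {V : ℕ → Submodule ℂ (Mn n ℂ)} (h : ∀ k, TN (V k)) : TN (Lw V) := by
  classical
  intro X hX htr
  obtain ⟨X, rfl⟩ := gm_surj X
  by_contra hne
  have h0 : ∀ᶠ k in (hyperfilter ℕ : Filter ℕ), X k ≠ 0 := by
    by_contra hcon
    rw [← Ultrafilter.eventually_not] at hcon
    apply hne
    rw [← gm_zero, gm_ev]
    exact hcon.mono fun k hk => not_not.1 hk
  have h1 := mem_Lw.1 hX
  have h2 : ∀ k, ∃ Y, (X k ≠ 0 ∧ X k ∈ V k) → (Y ∈ V k ∧ Matrix.trace (X k * Y) ≠ 0) := by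
    intro k
    by_cases hk : X k ≠ 0 ∧ X k ∈ V k
    · have h3 := h k (X k) hk.2
      by_contra hcon
      push Not at hcon
      refine hk.1 (h3 fun Y hY => ?_)
      exact (hcon Y).2 hY
    · exact ⟨0, fun h => absurd h hk⟩
  choose Y hY using h2
  have h3 := htr (gm Y) (mem_Lw.2 ((h0.and h1).mono fun k hk => (hY k hk).1))
  rw [← gm_mul, tr_gm, mk_eq_zero] at h3
  obtain ⟨k, hk1, hk2⟩ := ((h0.and h1).and h3).exists
  exact (hY k hk1).2 hk2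

theorem GU_br {V : Submodule ℂ (Mn n ℂ)} (h : ∀ x ∈ V, ∀ y ∈ V, x * y - y * x ∈ V) :
    ∀ x ∈ GU V, ∀ y ∈ GU V, x * y - y * x ∈ GU V := by
  rintro _ ⟨F, rfl, hF⟩ _ ⟨G, rfl, hG⟩
  exact ⟨fun k => F k * G k - G k * F k, by rw [gm_sub, gm_mul, gm_mul], fun k => h _ (hF k) _ (hG k)⟩

/-- the projection in the ultrapower -/
theorem pr_gm {V : Submodule ℂ (Mn n ℂ)} (hV : TN V) {π : Mn n ℂ →ₗ[ℂ] Mn n ℂ} (hπ : IsPr V π)
    {πU : Mn n (U ℂ) →ₗ[U ℂ] Mn n (U ℂ)} (hπU : IsPr (GU V) πU) (F : ℕ → Mn n ℂ) :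
    πU (gm F) = gm fun k => π (F k) := by
  refine (TN_GU hV).eq (hπU.mem _) ⟨_, rfl, fun k => hπ.mem _⟩ ?_
  rintro _ ⟨G, rfl, hG⟩
  rw [hπU.tr _ _ ⟨G, rfl, hG⟩, ← gm_mul, ← gm_mul, tr_gm, tr_gm]
  congr 1
  funext k
  rw [hπ.tr _ _ (hG k)]

/-- the constants -/
structure Cs (C V : Mn n ℂ) (H : Matrix (Fin n) (Fin n) ℚ) (𝔤 : Submodule ℚ (Matrix (Fin n) (Fin n) ℚ))
    (ℰ : Set (Matrix (Fin n) (Fin n) ℚ)) : Prop where
  cd : IsUnit C.det
  vd : IsUnit V.det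
  mem : ∀ δ : DD, ld (fun _ => C) δ ∈ GU (cN (cm H⁻¹) (cx 𝔤) ℰ V)

section cs
variable {C V : Mn n ℂ} {H : Matrix (Fin n) (Fin n) ℚ} {𝔤 : Submodule ℚ (Matrix (Fin n) (Fin n) ℚ)}
    {ℰ : Set (Matrix (Fin n) (Fin n) ℚ)}

theorem Cs.nrm (h : Cs C V H 𝔤 ℰ) (δ : DD) : ∀ x ∈ GU (cx 𝔤), ld (fun _ => C) δ * x - x * ld (fun _ => C) δ ∈ GU (cx 𝔤) := by
  rintro _ ⟨X, rfl, hX⟩
  obtain ⟨Φ, hΦ, h1⟩ := h.mem δ
  rw [← hΦ]
  exact ⟨fun k => Φ k * X k - X k * Φ k, by rw [gm_sub, gm_mul, gm_mul], fun k => (h1 k).2.1 _ (hX k)⟩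

theorem Cs.comm (h : Cs C V H 𝔤 ℰ) (δ δ' : DD) :
    ld (fun _ => C) δ * ld (fun _ => C) δ' = ld (fun _ => C) δ' * ld (fun _ => C) δ := by
  obtain ⟨Φ, hΦ, h1⟩ := h.mem δ
  obtain ⟨Φ', hΦ', h1'⟩ := h.mem δ'
  rw [← hΦ, ← hΦ', ← gm_mul, ← gm_mul]
  congr 1
  funext k
  exact diag_comm h.vd (h1 k).2.2.2 (h1' k).2.2.2

theorem Cs.diag (h : Cs C V H 𝔤 ℰ) (δ : DD) : ∀ i j, i ≠ j → ((cu V)⁻¹ * ld (fun _ => C) δ * cu V) i j = 0 := by
  obtain ⟨Φ, hΦ, h1⟩ := h.mem δ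
  rw [← hΦ, cu_inv h.vd, ← gm_mul, ← gm_mul]
  intro i j hij
  rw [gm_apply]
  have h2 : (fun k => (V⁻¹ * Φ k * V) i j) = fun _ => 0 := funext fun k => (h1 k).2.2.2 i j hij
  rw [mk_eq_zero]
  exact Filter.Eventually.of_forall fun k => (h1 k).2.2.2 i j hij

/-- simultaneous eigenvectors -/
theorem Cs.span (h : Cs C V H 𝔤 ℰ) : ∀ x ∈ GU (cx 𝔤), x ∈ Submodule.span (U ℂ) {e : Mn n (U ℂ) | e ∈ GU (cx 𝔤) ∧
    ∀ δ : DD, ∃ a : U ℂ, ld (fun _ => C) δ * e - e * ld (fun _ => C) δ = a • e} := by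
  classical
  have hVu : IsUnit (cu V).det := cu_unit h.vd
  have e1 := Matrix.mul_nonsing_inv (cu V) hVu
  have e2 := Matrix.nonsing_inv_mul (cu V) hVu
  let T : Mn n (U ℂ) ≃ₗ[U ℂ] Mn n (U ℂ) :=
    { toFun := fun X => cu V * X * (cu V)⁻¹
      map_add' := fun X Y => by rw [Matrix.mul_add, Matrix.add_mul]
      map_smul' := fun c X => by rw [Matrix.mul_smul, Matrix.smul_mul, RingHom.id_apply]
      invFun := fun X => (cu V)⁻¹ * X * cu V
      left_inv := fun X => by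
        show (cu V)⁻¹ * (cu V * X * (cu V)⁻¹) * cu V = X
        calc (cu V)⁻¹ * (cu V * X * (cu V)⁻¹) * cu V = ((cu V)⁻¹ * cu V) * X * ((cu V)⁻¹ * cu V) := by
              simp only [Matrix.mul_assoc]
          _ = X := by rw [e2, Matrix.one_mul, Matrix.mul_one]
      right_inv := fun X => by
        show cu V * ((cu V)⁻¹ * X * cu V) * (cu V)⁻¹ = X
        calc cu V * ((cu V)⁻¹ * X * cu V) * (cu V)⁻¹ = (cu V * (cu V)⁻¹) * X * (cu V * (cu V)⁻¹) := by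
              simp only [Matrix.mul_assoc]
          _ = X := by rw [e1, Matrix.one_mul, Matrix.mul_one] }
  let b := (Matrix.stdBasis (U ℂ) (Fin n) (Fin n)).map T
  have hb : ∀ p : Fin n × Fin n, b p = cu V * Matrix.single p.1 p.2 1 * (cu V)⁻¹ := by
    intro p
    show T (Matrix.stdBasis (U ℂ) (Fin n) (Fin n) p) = _
    rw [show p = (p.1, p.2) from rfl, Matrix.stdBasis_eq_single]
    rfl
  let d : DD → Fin n → U ℂ := fun δ i => ((cu V)⁻¹ * ld (fun _ => C) δ * cu V) i i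
  have hd : ∀ δ, ld (fun _ => C) δ = cu V * Matrix.diagonal (d δ) * (cu V)⁻¹ := by
    intro δ
    have h1 : Matrix.diagonal (d δ) = (cu V)⁻¹ * ld (fun _ => C) δ * cu V := by
      ext i j
      by_cases hij : i = j
      · subst hij
        rw [Matrix.diagonal_apply_eq]
      · rw [Matrix.diagonal_apply_ne _ hij, h.diag δ i j hij]
    rw [h1]
    calc ld (fun _ => C) δ = (cu V * (cu V)⁻¹) * ld (fun _ => C) δ * (cu V * (cu V)⁻¹) := by
          rw [e1, Matrix.one_mul, Matrix.mul_one]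
      _ = _ := by simp only [Matrix.mul_assoc]
  let A : DD → Mn n (U ℂ) →ₗ[U ℂ] Mn n (U ℂ) := fun δ =>
    { toFun := fun X => ld (fun _ => C) δ * X - X * ld (fun _ => C) δ
      map_add' := fun X Y => by rw [Matrix.mul_add, Matrix.add_mul]; abel
      map_smul' := fun c X => by rw [Matrix.mul_smul, Matrix.smul_mul, RingHom.id_apply, smul_sub] }
  have hA : ∀ δ p, A δ (b p) = (d δ p.1 - d δ p.2) • b p := by
    intro δ p
    show ld (fun _ => C) δ * b p - b p * ld (fun _ => C) δ = _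
    rw [hb, hd δ]
    have e3 : cu V * Matrix.diagonal (d δ) * (cu V)⁻¹ * (cu V * Matrix.single p.1 p.2 1 * (cu V)⁻¹) =
        cu V * (Matrix.diagonal (d δ) * Matrix.single p.1 p.2 1) * (cu V)⁻¹ := by
      calc cu V * Matrix.diagonal (d δ) * (cu V)⁻¹ * (cu V * Matrix.single p.1 p.2 1 * (cu V)⁻¹) =
            cu V * Matrix.diagonal (d δ) * ((cu V)⁻¹ * cu V) * Matrix.single p.1 p.2 1 * (cu V)⁻¹ := by
            simp only [Matrix.mul_assoc]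
        _ = _ := by rw [e2, Matrix.mul_one]; simp only [Matrix.mul_assoc]
    have e4 : cu V * Matrix.single p.1 p.2 1 * (cu V)⁻¹ * (cu V * Matrix.diagonal (d δ) * (cu V)⁻¹) =
        cu V * (Matrix.single p.1 p.2 1 * Matrix.diagonal (d δ)) * (cu V)⁻¹ := by
      calc cu V * Matrix.single p.1 p.2 1 * (cu V)⁻¹ * (cu V * Matrix.diagonal (d δ) * (cu V)⁻¹) =
            cu V * Matrix.single p.1 p.2 1 * ((cu V)⁻¹ * cu V) * Matrix.diagonal (d δ) * (cu V)⁻¹ := by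
            simp only [Matrix.mul_assoc]
        _ = _ := by rw [e2, Matrix.mul_one]; simp only [Matrix.mul_assoc]
    have e5 : Matrix.diagonal (d δ) * Matrix.single p.1 p.2 1 = d δ p.1 • Matrix.single p.1 p.2 (1 : U ℂ) := by
      ext i j
      rw [Matrix.diagonal_mul, Matrix.smul_apply, smul_eq_mul]
      by_cases hi : p.1 = i
      · subst hi
        rfl
      · rw [Matrix.single_apply_of_row_ne hi, mul_zero, mul_zero]
    have e6 : Matrix.single p.1 p.2 1 * Matrix.diagonal (d δ) = d δ p.2 • Matrix.single p.1 p.2 (1 : U ℂ) := by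
      ext i j
      rw [Matrix.mul_diagonal, Matrix.smul_apply, smul_eq_mul, mul_comm]
      by_cases hj : p.2 = j
      · subst hj
        rfl
      · rw [Matrix.single_apply_of_col_ne _ _ hj, mul_zero, mul_zero]
    rw [e3, e4, e5, e6, Matrix.mul_smul, Matrix.smul_mul, Matrix.mul_smul, Matrix.smul_mul, sub_smul]
  exact span_eigen b A (fun p δ => d δ p.1 - d δ p.2) hA (W := GU (cx 𝔤)) fun δ x hx => h.nrm δ x hx

end cs

section block
variable {C V : Mn (2 * g) ℂ} {H : Matrix (Fin (2 * g)) (Fin (2 * g)) ℚ}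
    {𝔤 : Submodule ℚ (Matrix (Fin (2 * g)) (Fin (2 * g)) ℚ)} {ℰ : Set (Matrix (Fin (2 * g)) (Fin (2 * g)) ℚ)}
    {π : Mn (2 * g) ℂ →ₗ[ℂ] Mn (2 * g) ℂ} {L : ℕ → Submodule ℂ (Mn (2 * g) ℂ)}

theorem GoodLie.cxsk (h : GoodLie H 𝔤 ℰ) : cx 𝔤 ≤ spS (cm H⁻¹) := cx_ind h.sk

/-- **the limit of the projections is an ideal** -/
theorem ideal_U (hgood : GoodLie H 𝔤 ℰ) (hH : Hᵀ = -H) (hc : Cs C V H 𝔤 ℰ) (X : DD → Mn (2 * g) (U ℂ))
    (hX : ∀ Y ∈ GU (cx 𝔤), ∃ δ, X δ = Y)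
    (hnrm : ∀ δ, ∀ w ∈ Lw L, (ld (fun _ => C) δ + X δ) * w - w * (ld (fun _ => C) δ + X δ) ∈ Lw L)
    (hπ : IsPr (cx 𝔤) π) (hTN : ∀ k, TN (lC H (L k) 𝔤 ℰ π)) :
    ∀ x ∈ GU (cx 𝔤), ∀ y ∈ Lw (fun k => lC H (L k) 𝔤 ℰ π), x * y - y * x ∈ Lw (fun k => lC H (L k) 𝔤 ℰ π) := by
  have hTg : TN (cx 𝔤) := TN_cx hgood.tn
  have hTG : TN (GU (cx 𝔤)) := TN_GU hTg
  have hbr : ∀ x ∈ GU (cx 𝔤), ∀ y ∈ GU (cx 𝔤), x * y - y * x ∈ GU (cx 𝔤) := GU_br (cx_br hgood.br)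
  obtain ⟨πU, hπU⟩ := exists_proj hTG
  have hle : Lw (fun k => lC H (L k) 𝔤 ℰ π) ≤ GU (cx 𝔤) := by
    rintro _ ⟨F, rfl, hF⟩
    exact ⟨F, rfl, fun k => lC_le hπ (hF k)⟩
  refine thmT_mat (𝔱 := LinearMap.range (πU ∘ₗ ld fun _ => C)) hbr hTG hle (TN_Lw hTN) ?_ ?_ ?_ ?_
  · rintro _ ⟨δ, rfl⟩
    exact hπU.mem _
  · rintro _ ⟨δ, rfl⟩ _ ⟨δ', rfl⟩
    rw [LinearMap.comp_apply, LinearMap.comp_apply, ← proj_br hTG hπU hbr (hc.nrm δ) (hc.nrm δ'), hc.comm δ δ', sub_self,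
      map_zero]
  · intro x hx
    refine Submodule.span_mono ?_ (hc.span x hx)
    rintro e ⟨he, h1⟩
    refine ⟨he, ?_⟩
    rintro _ ⟨δ, rfl⟩
    obtain ⟨a, ha⟩ := h1 δ
    refine ⟨a, ?_⟩
    rw [LinearMap.comp_apply, ← br_proj hTG hπU hbr (hc.nrm δ) he]
    exact ha
  · rintro _ ⟨ξ, rfl, hξ⟩
    obtain ⟨δ, hδ⟩ := hX (gm ξ) ⟨ξ, rfl, hξ⟩
    obtain ⟨Φ, hΦ, hΦc⟩ := hc.mem δ
    refine ⟨gm fun k => π (Φ k + ξ k), (πU ∘ₗ ld fun _ => C) (-δ), ?_, ⟨_, rfl, fun k => hπ.mem _⟩, ⟨_, rfl⟩, ?_⟩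
    · rw [LinearMap.comp_apply, map_neg, map_neg, ← hΦ, pr_gm hTg hπ hπU, ← sub_eq_add_neg, ← gm_sub]
      congr 1
      funext k
      rw [map_add, hπ.id hTg (hξ k), add_sub_cancel_left]
    · rintro _ ⟨Y, rfl, hY⟩
      choose w hw hwY using fun k => (show Y k ∈ lC H (L k) 𝔤 ℰ π from hY k)
      choose h1 h2 h3 c h4 using hw
      have h5 : (gm fun k => w k + c k • (1 : Mn (2 * g) ℂ)) ∈ Lw L := ⟨_, rfl, h4⟩
      have h6 := hnrm δ _ h5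
      rw [hδ, ← hΦ, ← gm_add, ← gm_mul, ← gm_mul, ← gm_sub, mem_Lw] at h6
      rw [← gm_mul, ← gm_mul, ← gm_sub, mem_Lw]
      filter_upwards [h6] with k hk
      have e1 : (Φ k + ξ k) * (w k + c k • 1) - (w k + c k • 1) * (Φ k + ξ k) =
          (Φ k + ξ k) * w k - w k * (Φ k + ξ k) := by
        have := br_scalar' (Φ k + ξ k) (w k) 0 (c k)
        rwa [zero_smul, add_zero] at this
      rw [e1] at hk
      have hn : ∀ x ∈ cx 𝔤, (Φ k + ξ k) * x - x * (Φ k + ξ k) ∈ cx 𝔤 := by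
        intro x hx
        have e2 : (Φ k + ξ k) * x - x * (Φ k + ξ k) = (Φ k * x - x * Φ k) + (ξ k * x - x * ξ k) := by noncomm_ring
        rw [e2]
        exact Submodule.add_mem _ ((hΦc k).2.1 x hx) (cx_br hgood.br _ (hξ k) _ hx)
      refine ⟨(Φ k + ξ k) * w k - w k * (Φ k + ξ k), ⟨?_, ?_, ?_, 0, ?_⟩, ?_⟩
      · exact ((hΦc k).1.add (GS.of (hgood.cxsk (hξ k)))).br (cm_skew hH) (GS.of (h1 k))
      · intro x hx
        have e2 : ((Φ k + ξ k) * w k - w k * (Φ k + ξ k)) * x - x * ((Φ k + ξ k) * w k - w k * (Φ k + ξ k)) =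
            ((Φ k + ξ k) * (w k * x - x * w k) - (w k * x - x * w k) * (Φ k + ξ k)) -
            (w k * ((Φ k + ξ k) * x - x * (Φ k + ξ k)) - ((Φ k + ξ k) * x - x * (Φ k + ξ k)) * w k) := by noncomm_ring
        rw [e2]
        exact Submodule.sub_mem _ (hn _ (h2 k x hx)) (h2 k _ (hn x hx))
      · intro e he
        have e2 : (Φ k + ξ k) * cm e = cm e * (Φ k + ξ k) := by
          have e4 : cm e * ξ k = ξ k * cm e := by
            have e5 : cx 𝔤 ≤ cmt (cm e) := cx_ind fun X hX => by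
              rw [mem_cmt, ← cm_mul, ← cm_mul, hgood.ce e he X hX]
            exact e5 (hξ k)
          rw [Matrix.add_mul, Matrix.mul_add, (hΦc k).2.2.1 e he, e4]
        have e3 := h3 k e he
        calc ((Φ k + ξ k) * w k - w k * (Φ k + ξ k)) * cm e = (Φ k + ξ k) * (w k * cm e) - w k * ((Φ k + ξ k) * cm e) := by
              rw [Matrix.sub_mul, Matrix.mul_assoc, Matrix.mul_assoc]
          _ = ((Φ k + ξ k) * cm e) * w k - (w k * cm e) * (Φ k + ξ k) := by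
              rw [e3, e2, ← Matrix.mul_assoc, ← Matrix.mul_assoc, e2, e3]
          _ = _ := by rw [e2, e3, Matrix.mul_sub, Matrix.mul_assoc, Matrix.mul_assoc]
      · rw [zero_smul, add_zero]
        exact hk
      · rw [← hwY k]
        exact proj_br hTg hπ (cx_br hgood.br) hn (h2 k)

/-- back to the levels -/
theorem ideal_back (hid : ∀ x ∈ GU (cx 𝔤), ∀ y ∈ Lw (fun k => lC H (L k) 𝔤 ℰ π),
    x * y - y * x ∈ Lw (fun k => lC H (L k) 𝔤 ℰ π)) : ∀ᶠ k in (hyperfilter ℕ : Filter ℕ),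
    ∀ x ∈ cx 𝔤, ∀ y ∈ lC H (L k) 𝔤 ℰ π, x * y - y * x ∈ lC H (L k) 𝔤 ℰ π := by
  classical
  by_contra hcon
  rw [← Ultrafilter.eventually_not] at hcon
  have h1 : ∀ k, ∃ x ∈ cx 𝔤, ∃ y ∈ lC H (L k) 𝔤 ℰ π, (¬ ∀ x ∈ cx 𝔤, ∀ y ∈ lC H (L k) 𝔤 ℰ π,
      x * y - y * x ∈ lC H (L k) 𝔤 ℰ π) → x * y - y * x ∉ lC H (L k) 𝔤 ℰ π := by
    intro k
    by_cases hk : ∀ x ∈ cx 𝔤, ∀ y ∈ lC H (L k) 𝔤 ℰ π, x * y - y * x ∈ lC H (L k) 𝔤 ℰ π
    · exact ⟨0, Submodule.zero_mem _, 0, Submodule.zero_mem _, fun h => absurd hk h⟩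
    · have hk' := hk
      push Not at hk'
      obtain ⟨x, hx, y, hy, h⟩ := hk'
      exact ⟨x, hx, y, hy, fun _ => h⟩
  choose x hx y hy h2 using h1
  have h3 := hid (gm x) ⟨x, rfl, hx⟩ (gm y) ⟨y, rfl, hy⟩
  rw [← gm_mul, ← gm_mul, ← gm_sub, mem_Lw] at h3
  obtain ⟨k, hk1, hk2⟩ := (h3.and hcon).exists
  exact h2 k hk2 hk1

/-- **the blocks contain `𝔤`** -/
theorem full_U {A : ℕ → AbVar g} {P : ℕ → Mn (2 * g) ℂ} {R : ℕ → Matrix (Fin (2 * g)) (Fin (2 * g)) ℚ}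
    (hlev : ∀ k, Lv (A k) H (P k) (R k) (L k) 𝔤 ℰ) (hc : Cs C V H 𝔤 ℰ) (X : DD → Mn (2 * g) (U ℂ))
    (hX : ∀ Y ∈ GU (cx 𝔤), ∃ δ, X δ = Y)
    (hnrm : ∀ δ, ∀ w ∈ Lw L, (ld (fun _ => C) δ + X δ) * w - w * (ld (fun _ => C) δ + X δ) ∈ Lw L) :
    ∀ Y ∈ GU (cx 𝔤), Y ∈ Lw L := by
  have hgood := (hlev 0).good
  obtain ⟨π, hπ⟩ := exists_proj (TN_cx hgood.tn)
  have h1 := ideal_back (ideal_U hgood (hlev 0).skew hc X hX hnrm hπ fun k => TN_lC (hlev k) hπ)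
  rintro _ ⟨Y, rfl, hY⟩
  rw [mem_Lw]
  filter_upwards [h1] with k hk
  exact full (hlev k) hπ hk (hY k)

end block

end Pool.Agent.H936.R
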