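import Pool.Agent.H936.R.Ult

/-!
# The core theorem
-/

set_option autoImplicit false
set_option linter.unusedSectionVars false
set_option linter.unusedVariables false

open Matrix Module Filter

namespace Pool.Agent.H936.R

open Pool.Agent.Helper880_LF (spS mem_spS comm_mem)
open Pool.Agent.Helper880_LF.NB (gm gm_mul gm_add gm_sub gm_smul gm_zero gm_one gm_ev gm_eq gm_surj gm_neg gm_unit gm_apply
  gm_transpose gm_kt kt kt_apply dm dm_mul dm_smul Lst mem_Lst normL)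
open Pool.Agent.Helper880_R3 (Ix ib ib_apply ib_inj ib_mul Tot GU mem_GU gm_ib GU_span)
open Pool.Agent.Y118.UL (mk mk_eq mk_eq_zero mk_ne_zero mk_surj ev_ge U)
open Pool.Agent.Y119.HY (cm cm_apply cm_mul cm_one cm_transpose cm_add cm_zero cm_neg)
open Pool.Agent.Y102 (AbVar QBar tau)
open Pool.Agent.Y123.ST (fl um LL logder_mem fl_um um_fl)
open Pool.Agent.TH127.PT (IsSubtorsor)
open Pool.Agent.H936.SL
open Pool.Agent.H936.G (DD ld ld_apply cjg cjg_apply TN_GU GU_mono cu_GU ld_Tot ld_mul)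
open Pool.Agent.H936.W (Lw mem_Lw Lw_br flat mem_flat)

variable {n N r₀ g : ℕ}

/-- the elements of `GU` -/
theorem GU_cx {𝔤 : Submodule ℚ (Matrix (Fin n) (Fin n) ℚ)} {W : Submodule (U ℂ) (Mn n (U ℂ))}
    (h : ∀ x ∈ 𝔤, cu (cm x) ∈ W) : GU (cx 𝔤) ≤ W := by
  let b := Module.finBasis ℂ (cx 𝔤)
  rw [GU_span b]
  refine Submodule.span_le.2 ?_
  rintro _ ⟨i, rfl⟩
  have h1 : ∀ y ∈ cx 𝔤, cu y ∈ W := by
    intro y hy
    refine Submodule.span_induction (p := fun y _ => cu y ∈ W) ?_ ?_ ?_ ?_ hy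
    · rintro _ ⟨X, hX, rfl⟩
      exact h X hX
    · have h2 : cu (0 : Mn n ℂ) = 0 := gm_zero
      rw [h2]
      exact W.zero_mem
    · intro a b _ _ ha hb
      have h2 : cu (a + b) = cu a + cu b := gm_add _ _
      rw [h2]
      exact W.add_mem ha hb
    · intro c a _ ha
      have h2 : cu (c • a) = mk ℂ (fun _ => c) • cu a := by
        rw [← gm_smul]
      rw [h2]
      exact W.smul_mem _ ha
  exact h1 _ (b i).2

/-- the Lie algebra is perfect -/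
theorem GU_perf {H : Matrix (Fin n) (Fin n) ℚ} {𝔤 : Submodule ℚ (Matrix (Fin n) (Fin n) ℚ)}
    {ℰ : Set (Matrix (Fin n) (Fin n) ℚ)} (hgood : GoodLie H 𝔤 ℰ) {W : Submodule (U ℂ) (Mn n (U ℂ))}
    (h : ∀ x ∈ GU (cx 𝔤), ∀ y ∈ GU (cx 𝔤), x * y - y * x ∈ W) : GU (cx 𝔤) ≤ W := by
  refine GU_cx fun x hx => ?_
  refine Submodule.span_induction (p := fun y _ => cu (cm y) ∈ W) ?_ ?_ ?_ ?_ (hgood.perf x hx)
  · rintro _ ⟨a, ha, b, hb, rfl⟩
    have h1 : cu (cm (a * b - b * a)) = cu (cm a) * cu (cm b) - cu (cm b) * cu (cm a) := by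
      rw [← gm_mul, ← gm_mul, ← gm_sub, cm_sub, cm_mul, cm_mul]
    rw [h1]
    exact h _ (cu_GU.2 (cm_mem ha)) _ (cu_GU.2 (cm_mem hb))
  · rw [cm_zero]
    have h2 : cu (0 : Mn n ℂ) = 0 := gm_zero
    rw [h2]
    exact W.zero_mem
  · intro a b _ _ ha hb
    have h2 : cu (cm (a + b)) = cu (cm a) + cu (cm b) := by
      rw [cm_add]
      exact gm_add _ _
    rw [h2]
    exact W.add_mem ha hb
  · intro c a _ ha
    have h2 : cu (cm (c • a)) = mk ℂ (fun _ => (c : ℂ)) • cu (cm a) := by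
      rw [cm_smul, ← gm_smul]
    rw [h2]
    exact W.smul_mem _ ha

/-- **the step from the blocks to the whole Lie algebra** -/
theorem ito_U {C V : Mn n ℂ} {H : Matrix (Fin n) (Fin n) ℚ} {𝔤 : Submodule ℚ (Matrix (Fin n) (Fin n) ℚ)}
    {ℰ : Set (Matrix (Fin n) (Fin n) ℚ)} (hgood : GoodLie H 𝔤 ℰ) (hc : Cs C V H 𝔤 ℰ)
    {Λ : Submodule (U ℂ) (Matrix (Ix r₀ n N) (Ix r₀ n N) (U ℂ))} (hΛ : ∀ x ∈ Λ, ∀ y ∈ Λ, x * y - y * x ∈ Λ)
    {F₀ : DD → Matrix (Fin r₀) (Fin r₀) (U ℂ)} (hF₀ : ∀ δ δ', F₀ δ * F₀ δ' = F₀ δ' * F₀ δ)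
    {X : Fin N → DD →ₗ[U ℂ] Mn n (U ℂ)} {j : Fin N}
    (hX : ∀ Y ∈ GU (cx 𝔤), ∃ δ, X j δ = Y ∧ ∀ i, i ≠ j → X i δ = 0)
    (hnrm : ∀ δ, ∀ w ∈ Λ, Tot (F₀ δ) (fun i => ld (fun _ => C) δ + X i δ) * w -
      w * Tot (F₀ δ) (fun i => ld (fun _ => C) δ + X i δ) ∈ Λ)
    (hfull : ∀ Y ∈ GU (cx 𝔤), Y ∈ bl Λ j) : ∀ Y ∈ GU (cx 𝔤), ib j Y ∈ Λ := by
  have hTg : TN (cx 𝔤) := TN_cx hgood.tn
  have hTG : TN (GU (cx 𝔤)) := TN_GU hTg
  have hbr : ∀ x ∈ GU (cx 𝔤), ∀ y ∈ GU (cx 𝔤), x * y - y * x ∈ GU (cx 𝔤) := GU_br (cx_br hgood.br)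
  obtain ⟨πU, hπU⟩ := exists_proj hTG
  set F : DD →ₗ[U ℂ] Mn n (U ℂ) := ld fun _ => C with hF
  let I : Submodule (U ℂ) (Mn n (U ℂ)) := (GU (cx 𝔤)) ⊓ Λ.comap (ib (r₀ := r₀) j)
  have hImem : ∀ Y, Y ∈ I ↔ Y ∈ GU (cx 𝔤) ∧ ib j Y ∈ Λ := fun Y => Iff.rfl
  have hI : ∀ x ∈ GU (cx 𝔤), ∀ y ∈ I, x * y - y * x ∈ I := by
    intro x hx y hy
    rw [hImem] at hy ⊢
    refine ⟨hbr x hx y hy.1, ?_⟩
    obtain ⟨e, a, h1, h2⟩ := hfull x hx
    have h3 := hΛ _ h1 _ hy.2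
    rw [Tot_ib_br, h2] at h3
    exact h3
  let I' : Submodule (U ℂ) (Mn n (U ℂ)) :=
    { carrier := {q | q ∈ GU (cx 𝔤) ∧ ∀ Y ∈ GU (cx 𝔤), q * Y - Y * q ∈ I}
      zero_mem' := ⟨Submodule.zero_mem _, fun Y _ => by
        rw [Matrix.zero_mul, Matrix.mul_zero, sub_zero]
        exact I.zero_mem⟩
      add_mem' := by
        rintro a b ⟨h1, h2⟩ ⟨h3, h4⟩
        refine ⟨Submodule.add_mem _ h1 h3, fun Y hY => ?_⟩
        have h5 : (a + b) * Y - Y * (a + b) = (a * Y - Y * a) + (b * Y - Y * b) := by noncomm_ring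
        rw [h5]
        exact I.add_mem (h2 Y hY) (h4 Y hY)
      smul_mem' := by
        rintro c a ⟨h1, h2⟩
        refine ⟨Submodule.smul_mem _ c h1, fun Y hY => ?_⟩
        rw [Matrix.smul_mul, Matrix.mul_smul, ← smul_sub]
        exact I.smul_mem c (h2 Y hY) }
  have hI'mem : ∀ q, q ∈ I' ↔ q ∈ GU (cx 𝔤) ∧ ∀ Y ∈ GU (cx 𝔤), q * Y - Y * q ∈ I := fun q => Iff.rfl
  have hI' : ∀ x ∈ GU (cx 𝔤), ∀ q ∈ I', x * q - q * x ∈ I' := by
    intro x hx q hq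
    rw [hI'mem] at hq ⊢
    refine ⟨hbr x hx q hq.1, fun Y hY => ?_⟩
    have h5 : (x * q - q * x) * Y - Y * (x * q - q * x) = (x * (q * Y - Y * q) - (q * Y - Y * q) * x) -
        (q * (x * Y - Y * x) - (x * Y - Y * x) * q) := by noncomm_ring
    rw [h5]
    exact I.sub_mem (hI x hx _ (hq.2 Y hY)) (hq.2 _ (hbr x hx Y hY))
  -- the two abelian subalgebras
  let 𝔞 : Set (Mn n (U ℂ)) := {q | ∃ δ : DD, (∀ i, i ≠ j → X i δ = 0) ∧ X j δ ∈ GU (cx 𝔤) ∧ q = X j δ + πU (F δ)}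
  let 𝔟 : Set (Mn n (U ℂ)) := {q | ∃ δ : DD, q = πU (F δ)}
  have key : ∀ {x y x' y' : Mn n (U ℂ)}, x ∈ GU (cx 𝔤) → y ∈ GU (cx 𝔤) → x' ∈ GU (cx 𝔤) → y' ∈ GU (cx 𝔤) →
      (x * y - y * x) * (x' * y' - y' * x') - (x' * y' - y' * x') * (x * y - y * x) ∈ I' := by
    intro x y x' y' h1 h2 h3 h4
    refine ito (𝔞 := 𝔞) (𝔟 := 𝔟) hbr hI' ?_ ?_ ?_ ?_ ?_ h1 h2 h3 h4
    · rintro _ ⟨δ, -, h, rfl⟩
      exact Submodule.add_mem _ h (hπU.mem _)
    · rintro _ ⟨δ, rfl⟩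
      exact hπU.mem _
    · rintro _ ⟨δ, h0, h, rfl⟩ _ ⟨δ', h0', h', rfl⟩
      -- the commutator of the two derivations
      set Q : Mn n (U ℂ) := (F δ + X j δ) * (F δ' + X j δ') - (F δ' + X j δ') * (F δ + X j δ) with hQ
      have e1 : Tot (F₀ δ) (fun i => F δ + X i δ) * Tot (F₀ δ') (fun i => F δ' + X i δ') -
          Tot (F₀ δ') (fun i => F δ' + X i δ') * Tot (F₀ δ) (fun i => F δ + X i δ) = ib (r₀ := r₀) j Q := by
        rw [Tot_br, ib_Tot, hF₀ δ δ', sub_self]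
        congr 1
        funext i
        by_cases hi : i = j
        · subst hi
          rw [Pi.single_eq_same]
        · rw [Pi.single_eq_of_ne hi, h0 i hi, h0' i hi, add_zero, add_zero, hF, hc.comm δ δ', sub_self]
      have e2 : ∀ w ∈ Λ, ib (r₀ := r₀) j Q * w - w * ib j Q ∈ Λ := by
        intro w hw
        have e3 := Λ.sub_mem (hnrm δ _ (hnrm δ' _ hw)) (hnrm δ' _ (hnrm δ _ hw))
        rw [← e1]
        convert e3 using 1
        noncomm_ring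
      have hnF : ∀ δ : DD, X j δ ∈ GU (cx 𝔤) → ∀ Y ∈ GU (cx 𝔤), (F δ + X j δ) * Y - Y * (F δ + X j δ) ∈ GU (cx 𝔤) := by
        intro δ h Y hY
        have h5 : (F δ + X j δ) * Y - Y * (F δ + X j δ) = (F δ * Y - Y * F δ) + (X j δ * Y - Y * X j δ) := by
          noncomm_ring
        rw [h5]
        exact Submodule.add_mem _ (hc.nrm δ Y hY) (hbr _ h Y hY)
      have e4 : ∀ δ : DD, X j δ ∈ GU (cx 𝔤) → πU (F δ + X j δ) = X j δ + πU (F δ) := by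
        intro δ h
        rw [map_add, hπU.id hTG h, add_comm]
      have e5 : (X j δ + πU (F δ)) * (X j δ' + πU (F δ')) - (X j δ' + πU (F δ')) * (X j δ + πU (F δ)) = πU Q := by
        rw [hQ, proj_br hTG hπU hbr (hnF δ h) (hnF δ' h'), e4 δ h, e4 δ' h']
      rw [e5, hI'mem]
      have hQn : ∀ Y ∈ GU (cx 𝔤), Q * Y - Y * Q ∈ GU (cx 𝔤) := by
        intro Y hY
        have h5 : Q * Y - Y * Q = ((F δ + X j δ) * ((F δ' + X j δ') * Y - Y * (F δ' + X j δ')) -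
            ((F δ' + X j δ') * Y - Y * (F δ' + X j δ')) * (F δ + X j δ)) -
            ((F δ' + X j δ') * ((F δ + X j δ) * Y - Y * (F δ + X j δ)) -
            ((F δ + X j δ) * Y - Y * (F δ + X j δ)) * (F δ' + X j δ')) := by
          rw [hQ]
          noncomm_ring
        rw [h5]
        exact Submodule.sub_mem _ (hnF δ h _ (hnF δ' h' Y hY)) (hnF δ' h' _ (hnF δ h Y hY))
      refine ⟨hπU.mem _, fun Y hY => ?_⟩
      rw [← br_proj hTG hπU hbr hQn hY, hImem]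
      refine ⟨hQn Y hY, ?_⟩
      obtain ⟨e, a, k1, k2⟩ := hfull Y hY
      have k3 := e2 _ k1
      have k4 := Tot_ib_br e a j Q
      have k5 : ib (r₀ := r₀) j Q * Tot e a - Tot e a * ib j Q = ib j (Q * Y - Y * Q) := by
        rw [← neg_sub (Tot e a * ib j Q), k4, k2, ← map_neg, neg_sub]
      rw [k5] at k3
      exact k3
    · rintro _ ⟨δ, rfl⟩ _ ⟨δ', rfl⟩
      rw [← proj_br hTG hπU hbr (hc.nrm δ) (hc.nrm δ'), hc.comm δ δ', sub_self, map_zero]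
      exact I'.zero_mem
    · intro x hx
      obtain ⟨δ, h1, h2⟩ := hX x hx
      refine ⟨X j δ + πU (F δ), ⟨δ, h2, by rw [h1]; exact hx, rfl⟩, πU (F (-δ)), ⟨-δ, rfl⟩, ?_⟩
      rw [map_neg, map_neg, add_neg_cancel_right, h1]
  -- perfectness
  have h1 : ∀ x ∈ GU (cx 𝔤), ∀ y ∈ GU (cx 𝔤), ∀ w ∈ GU (cx 𝔤), (x * y - y * x) * w - w * (x * y - y * x) ∈ I' := by
    intro x hx y hy
    let W : Submodule (U ℂ) (Mn n (U ℂ)) :=
      { carrier := {w | (x * y - y * x) * w - w * (x * y - y * x) ∈ I'}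
        zero_mem' := by
          show (x * y - y * x) * 0 - 0 * (x * y - y * x) ∈ I'
          rw [Matrix.mul_zero, Matrix.zero_mul, sub_zero]
          exact I'.zero_mem
        add_mem' := by
          intro a b ha hb
          show (x * y - y * x) * (a + b) - (a + b) * (x * y - y * x) ∈ I'
          have h5 : (x * y - y * x) * (a + b) - (a + b) * (x * y - y * x) =
            ((x * y - y * x) * a - a * (x * y - y * x)) + ((x * y - y * x) * b - b * (x * y - y * x)) := by noncomm_ring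
          rw [h5]
          exact I'.add_mem ha hb
        smul_mem' := by
          intro c a ha
          show (x * y - y * x) * (c • a) - (c • a) * (x * y - y * x) ∈ I'
          rw [Matrix.mul_smul, Matrix.smul_mul, ← smul_sub]
          exact I'.smul_mem c ha }
    have h2 : GU (cx 𝔤) ≤ W := GU_perf hgood fun a ha b hb => key hx hy ha hb
    exact fun w hw => h2 hw
  have h2 : ∀ w ∈ GU (cx 𝔤), ∀ x ∈ GU (cx 𝔤), x * w - w * x ∈ I' := by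
    intro w hw
    let W : Submodule (U ℂ) (Mn n (U ℂ)) :=
      { carrier := {x | x * w - w * x ∈ I'}
        zero_mem' := by
          show 0 * w - w * 0 ∈ I'
          rw [Matrix.mul_zero, Matrix.zero_mul, sub_zero]
          exact I'.zero_mem
        add_mem' := by
          intro a b ha hb
          show (a + b) * w - w * (a + b) ∈ I'
          have h5 : (a + b) * w - w * (a + b) = (a * w - w * a) + (b * w - w * b) := by noncomm_ring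
          rw [h5]
          exact I'.add_mem ha hb
        smul_mem' := by
          intro c a ha
          show (c • a) * w - w * (c • a) ∈ I'
          rw [Matrix.mul_smul, Matrix.smul_mul, ← smul_sub]
          exact I'.smul_mem c ha }
    have h2 : GU (cx 𝔤) ≤ W := GU_perf hgood fun a ha b hb => h1 a ha b hb w hw
    exact fun x hx => h2 hx
  have h3 : GU (cx 𝔤) ≤ I' := GU_perf hgood fun a ha b hb => h2 b hb a ha
  have h4 : GU (cx 𝔤) ≤ I := GU_perf hgood fun a ha b hb => ((hI'mem a).1 (h3 ha)).2 b hb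
  exact fun Y hY => ((hImem Y).1 (h4 hY)).2

/-- back to the components -/
theorem back {𝔤c : Submodule ℂ (Mn n ℂ)} {T : ℕ → Set (Matrix (Ix r₀ n N) (Ix r₀ n N) ℂ)}
    (h : ∀ i, ∀ Y ∈ GU 𝔤c, ib (r₀ := r₀) i Y ∈ Lst fun k => LL (T k)) :
    ∀ᶠ k in (hyperfilter ℕ : Filter ℕ), ∀ i, ∀ X ∈ 𝔤c, ib (r₀ := r₀) i X ∈ Lm (T k) := by
  classical
  rw [Filter.eventually_all]
  intro i
  by_contra hcon
  rw [← Ultrafilter.eventually_not] at hcon
  have h1 : ∀ k, ∃ X ∈ 𝔤c, (¬ ∀ X ∈ 𝔤c, ib (r₀ := r₀) i X ∈ Lm (T k)) → ib (r₀ := r₀) i X ∉ Lm (T k) := by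
    intro k
    by_cases hk : ∀ X ∈ 𝔤c, ib (r₀ := r₀) i X ∈ Lm (T k)
    · exact ⟨0, 𝔤c.zero_mem, fun h => absurd hk h⟩
    · have hk' := hk
      push Not at hk'
      obtain ⟨Y, h1, h2⟩ := hk'
      exact ⟨Y, h1, fun _ => h2⟩
  choose X hX1 hX2 using h1
  have h3 : ib i (gm X) ∈ Lst fun k => LL (T k) := h i _ ⟨X, rfl, hX1⟩
  rw [← gm_ib] at h3
  have h5 := mem_Lst.1 h3
  obtain ⟨k, hk1, hk2⟩ := (h5.and hcon).exists
  exact hX2 k hk2 hk1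

/-- **the core theorem** -/
theorem core {C V : Mn (2 * g) ℂ} {H : Matrix (Fin (2 * g)) (Fin (2 * g)) ℚ}
    {𝔤 : Submodule ℚ (Matrix (Fin (2 * g)) (Fin (2 * g)) ℚ)} {ℰ : Set (Matrix (Fin (2 * g)) (Fin (2 * g)) ℚ)}
    (hgood : GoodLie H 𝔤 ℰ) (hsk : Hᵀ = -H) (hd : IsUnit H.det) (hc : Cs C V H 𝔤 ℰ)
    {C₀ : Matrix (Fin r₀) (Fin r₀) ℂ} (hC₀ : C₀.det ≠ 0)
    (hC₀c : ∀ δ δ' : DD, ld (fun _ => C₀) δ * ld (fun _ => C₀) δ' = ld (fun _ => C₀) δ' * ld (fun _ => C₀) δ)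
    {z : ℕ → Fin N → Mn (2 * g) ℂ} (hz : ∀ k j, (z k j).det ≠ 0)
    (hX : ∀ i, ∀ Y ∈ GU (cx 𝔤), ∃ δ : DD, cjg (cu C) (ld (fun k => z k i) δ) = Y ∧
      ∀ j, j ≠ i → cjg (cu C) (ld (fun k => z k j) δ) = 0)
    {K : ℕ → Subfield ℂ} {d : ℕ} (hK : ∀ k, FiniteDimensional ℚ (K k)) (hD : ∀ k, finrank ℚ (K k) ≤ d)
    {T : ℕ → Set (Matrix (Ix r₀ (2 * g) N) (Ix r₀ (2 * g) N) ℂ)} (hT : ∀ k, IsSubtorsor (K k) (T k))
    (hr : ∀ k, RatGrp (T k)) (hm : ∀ k, Tot C₀ (fun j => C * z k j) ∈ T k)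
    {A : ℕ → Fin N → AbVar g} {R : ℕ → Fin N → Matrix (Fin (2 * g)) (Fin (2 * g)) ℚ}
    (hp : ∀ k j, Pres (A k j) H (C * z k j) (R k j))
    (he : ∀ k j, ∀ e ∈ ℰ, ∀ a b, IsAlgebraic ℚ (((C * z k j)⁻¹ * cm e * (C * z k j)) a b))
    (hg : ∀ k j, ∀ x ∈ 𝔤, (C * z k j)⁻¹ * cm x * (C * z k j) ∈
      Submodule.span ℂ {Y | (∀ a b, IsAlgebraic ℚ (Y a b)) ∧ (C * z k j) * Y * (C * z k j)⁻¹ ∈ cx 𝔤}) :
    ∀ᶠ k in (hyperfilter ℕ : Filter ℕ), ∀ i, ∀ X ∈ cx 𝔤, ib (r₀ := r₀) i X ∈ Lm (T k) := by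
  have halg : ∀ k, ∀ x ∈ K k, IsAlgebraic ℚ x := by
    intro k x hx
    have := hK k
    have : NumberField (K k) := { to_charZero := inferInstance, to_finiteDimensional := hK k }
    have h6 : IsAlgebraic ℚ (⟨x, hx⟩ : K k) := Algebra.IsAlgebraic.isAlgebraic _
    exact h6.algebraMap (A := ℂ)
  set Λ := Lst fun k => LL (T k) with hΛdef
  have hΛ : ∀ F : ℕ → Matrix (Ix r₀ (2 * g) N) (Ix r₀ (2 * g) N) ℂ, gm F ∈ Λ ↔
      ∀ᶠ k in (hyperfilter ℕ : Filter ℕ), F k ∈ Lm (T k) := fun F => mem_Lst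
  let X : Fin N → DD →ₗ[U ℂ] Mn (2 * g) (U ℂ) := fun i => cjg (cu C) ∘ₗ ld fun k => z k i
  have hn : ∀ δ, ∀ w ∈ Λ, Tot (ld (fun _ => C₀) δ) (fun i => ld (fun _ => C) δ + X i δ) * w -
      w * Tot (ld (fun _ => C₀) δ) (fun i => ld (fun _ => C) δ + X i δ) ∈ Λ := by
    intro δ w hw
    have h3 := normL hK hD hT hm δ hw
    have h4 : dm δ (gm fun k => Tot C₀ fun j => C * z k j) * (gm fun k => Tot C₀ fun j => C * z k j)⁻¹ =
        Tot (ld (fun _ => C₀) δ) (fun j => ld (fun _ => C) δ + X j δ) := by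
      have h5 := ld_Tot (C₀ := C₀) hC₀ (y := fun k j => C * z k j) (fun k j => by
        rw [Matrix.det_mul]
        exact mul_ne_zero hc.cd.ne_zero (hz k _)) δ
      refine h5.trans ?_
      congr 1
      funext j
      exact ld_mul (fun _ => hc.cd.ne_zero) (fun k => hz k j) _
    rw [h4] at h3
    exact h3
  refine back fun i => ito_U hgood hc (Lst_br hT fun k => ⟨_, hm k⟩) (F₀ := fun δ => ld (fun _ => C₀) δ) hC₀c
    (X := X) (hX i) hn fun Y hY => ?_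
  have h1 := full_U (A := fun k => A k i) (P := fun k => C * z k i) (R := fun k => R k i)
    (L := fun k => bl (Lm (T k)) i) (V := V) (ℰ := ℰ) (H := H)
    (fun k => mkLv (halg k) (hT k) (hr k) (hm k) i (hp k i) hd hsk hgood (he k i) (hg k i)) hc (X i)
    (fun Y hY => by
      obtain ⟨δ, h1, -⟩ := hX i Y hY
      exact ⟨δ, h1⟩) (fun δ w hw => by
      obtain ⟨w, rfl⟩ := gm_surj w
      obtain ⟨G, hG⟩ := gm_surj ((ld (fun _ => C) δ + X i δ) * gm w - gm w * (ld (fun _ => C) δ + X i δ))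
      have h2 : gm w ∈ bl Λ i := (gm_bl hΛ).2 (mem_Lw.1 hw)
      have h3 := bl_nrm (hn δ) i _ h2
      rw [← hG] at h3 ⊢
      exact mem_Lw.2 ((gm_bl hΛ).1 h3)) Y hY
  obtain ⟨Y, rfl⟩ := gm_surj Y
  exact (gm_bl hΛ).2 (mem_Lw.1 h1)

end Pool.Agent.H936.R
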